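import Pool.Agent.TM.Export

/-!
# `fun_prop` support for `PTime`, and decidable equality
-/

namespace TMLib

open Polynomial

attribute [fun_prop] PTime

attribute [fun_prop] PTime.id PTime.const PTime.comp PTime.pair PTime.fst PTime.snd
  PTime.cons PTime.succ PTime.some PTime.toList PTime.units PTime.cond PTime.ite
  PTime.not PTime.and PTime.or PTime.decide_not PTime.decide_and PTime.decide_or
  PTime.decide_true' PTime.add PTime.mul PTime.sub PTime.le PTime.lt
  PTime.pow PTime.polyEval PTime.max PTime.min
  PTime.reverse PTime.append PTime.flatMap PTime.map PTime.filter PTime.filterMap PTime.flatten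
  PTime.length PTime.all PTime.any PTime.decide_forall_mem PTime.decide_exists_mem PTime.range
  PTime.tail PTime.head? PTime.isEmpty PTime.drop PTime.take PTime.getElem? PTime.getD
  PTime.listGetD PTime.isSome PTime.replicate PTime.zip

variable {α β γ δ σ : Type} [Enc α] [Enc β] [Enc γ] [Enc δ] [Enc σ]

/-! ### Equality of trees -/

/-- Work list algorithm for the equality of trees. -/
def eqStep (s : List (D × D) × Bool) : List (D × D) × Bool :=
  List.casesOn (motive := fun _ => List (D × D) × Bool) s.1 s fun p t =>
    if p.1 = D.nil then (if p.2 = D.nil then (t, s.2) else (t, false))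
    else (if p.2 = D.nil then (t, false)
      else ((p.1.hd, p.2.hd) :: (p.1.tl, p.2.tl) :: t, s.2))

/-- Truth value represented by a work list. -/
def eqVal (s : List (D × D) × Bool) : Bool := s.2 && s.1.all fun p => decide (p.1 = p.2)

lemma eqVal_eqStep (s : List (D × D) × Bool) : eqVal (eqStep s) = eqVal s := by
  obtain ⟨w, b⟩ := s
  cases w with
  | nil => rfl
  | cons p t =>
    obtain ⟨x, y⟩ := p
    cases x <;> cases y <;> simp [eqStep, eqVal, Bool.and_assoc]

/-- Total size of the left components. -/
def eqMeas (w : List (D × D)) : ℕ := (w.map fun p => p.1.size).sum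

lemma eqMeas_eqStep (s : List (D × D) × Bool) : eqMeas (eqStep s).1 ≤ eqMeas s.1 - 1 := by
  obtain ⟨w, b⟩ := s
  cases w with
  | nil => simp [eqMeas, eqStep]
  | cons p t =>
    obtain ⟨x, y⟩ := p
    cases x <;> cases y <;> simp [eqStep, eqMeas] <;> omega

lemma sz_eqStep (s : List (D × D) × Bool) : sz (eqStep s).1 ≤ sz s.1 := by
  obtain ⟨w, b⟩ := s
  cases w with
  | nil => simp [eqStep]
  | cons p t =>
    obtain ⟨x, y⟩ := p
    cases x <;> cases y <;> simp [eqStep] <;> omega

lemma eqStep_iterate (n : ℕ) (s : List (D × D) × Bool) :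
    eqVal (eqStep^[n] s) = eqVal s ∧ eqMeas (eqStep^[n] s).1 ≤ eqMeas s.1 - n ∧
      sz (eqStep^[n] s).1 ≤ sz s.1 := by
  induction n with
  | zero => simp
  | succ n ih =>
    rw [Function.iterate_succ_apply']
    refine ⟨(eqVal_eqStep _).trans ih.1, ?_, (sz_eqStep _).trans ih.2.2⟩
    have := eqMeas_eqStep (eqStep^[n] s)
    omega

namespace PTime

lemma eqStep : PTime eqStep := by
  refine listCases (g := fun (s : List (D × D) × Bool) p t =>
    if p.1 = D.nil then (if p.2 = D.nil then (t, s.2) else (t, false))
    else (if p.2 = D.nil then (t, false)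
      else ((p.1.hd, p.2.hd) :: (p.1.tl, p.2.tl) :: t, s.2))) (fst id) id ?_
  refine treeCases (fst (fst (snd id))) (treeCases (snd (fst (snd id))) (by fun_prop) (by fun_prop))
    (treeCases (snd (fst (snd id))) (by fun_prop) ?_)
  have h1 := hd
  have h2 := tl
  fun_prop

/-- Stack program computing the size of the top tree in unary. -/
def sizeProg : Prog :=
  .seq (scan .a) (.seq (.push .m false)
    (.loop .a isS (.seq (.pop .a) (.seq (.push .m false) (.push .m true)))))

lemma runs_sizeLoop (l r b c : List Bool) (n : ℕ) :
    Runs (.loop .a isS (.seq (.pop .a) (.seq (.push .m false) (.push .m true))))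
      ⟨(enc n).code ++ r, l, b, c⟩ ⟨(enc (n + l.length)).code ++ r, [], b, c⟩
      (1 + 4 * l.length) := by
  induction l generalizing n with
  | nil => exact (Runs.loopF rfl).mono (by simp)
  | cons x l ih =>
    have h1 : Runs (.seq (.pop .a) (.seq (.push .m false) (.push .m true)))
        ⟨(enc n).code ++ r, x :: l, b, c⟩ ⟨(enc (n + 1)).code ++ r, l, b, c⟩ 3 :=
      (Runs.pop _ _).seq ((Runs.push _ _ _).seq (Runs.push _ _ _))
    have h2 := Runs.loopT (k := .a) (f := isS) rfl h1 (ih (n + 1))
    have e : n + 1 + l.length = n + (x :: l).length := by simp; omega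
    rw [e] at h2
    exact h2.mono (by simp; omega)

/-- The size of the encoding is computable in polynomial time. -/
lemma sz' {f : α → β} (hf : PTime f) : PTime (fun x => sz (f x)) := by
  have : PTime (fun x : D => x.size) := by
    refine ⟨sizeProg, 10 + 20 * X, fun x r => ?_⟩
    have h1 := runs_scan_a x r []
    have h2 := Runs.push .m false ⟨r, x.code.reverse, [], []⟩
    have h3 := runs_sizeLoop x.code.reverse r [] [] 0
    have h4 := h1.seq (h2.seq h3)
    simp only [Nat.zero_add, List.length_reverse, D.length_code] at h4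
    refine h4.mono ?_
    have e10 : eval x.size (10 : ℕ[X]) = 10 := by simp
    have e20 : eval x.size (20 : ℕ[X]) = 20 := by simp
    simp only [eval_add, eval_mul, eval_X, e10, e20, sz_D]
    omega
  exact this.comp (enc'.comp hf)

/-- Equality of trees. -/
lemma treeEq {f g : α → D} (hf : PTime f) (hg : PTime g) :
    PTime (fun x => decide (f x = g x)) := by
  have hs : PTime (fun x => ([(f x, g x)], true)) := by fun_prop
  have hb : PB (fun x => 1 + sz ([(f x, g x)] : List (D × D)) + 3) :=
    ((PB.const 1).add (show PTime (fun x => [(f x, g x)]) by fun_prop).pb).add (PB.const 3)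
  have h1 := iter (n := fun x => sz (f x)) eqStep hs (sz' hf) hb (fun x i hi => by
    have h : sz (TMLib.eqStep^[i] ([(f x, g x)], true)).1 ≤ sz [(f x, g x)] :=
      (eqStep_iterate i ([(f x, g x)], true)).2.2
    have := sz_bool_le (TMLib.eqStep^[i] ([(f x, g x)], true)).2
    rw [sz_pair]
    omega)
  refine (snd h1).congr fun x => ?_
  obtain ⟨h2, h3, -⟩ := eqStep_iterate (sz (f x)) ([(f x, g x)], true)
  have h4 : eqMeas [(f x, g x)] = sz (f x) := by simp [eqMeas]
  rw [h4, Nat.sub_self] at h3
  have h5 : (TMLib.eqStep^[sz (f x)] ([(f x, g x)], true)).1 = [] := by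
    cases h : (TMLib.eqStep^[sz (f x)] ([(f x, g x)], true)).1 with
    | nil => rfl
    | cons p t =>
      rw [h] at h3
      have := p.1.size_pos
      simp [eqMeas] at h3
      omega
  simp only [eqVal, h5] at h2
  simpa using h2.symm

end PTime

/-- Types with injective encoding. -/
class EncInj (α : Type) [Enc α] : Prop where
  inj : Function.Injective (enc : α → D)

lemma enc_inj [EncInj α] {a b : α} : enc a = enc b ↔ a = b := EncInj.inj.eq_iff

instance : EncInj D := ⟨fun _ _ h => h⟩
instance : EncInj Unit := ⟨fun _ _ _ => rfl⟩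
instance : EncInj Bool := ⟨fun a b h => by cases a <;> cases b <;> simp_all⟩
instance : EncInj ℕ := ⟨fun a b h => by
  have := congrArg D.len h
  simpa using this⟩
instance [EncInj α] [EncInj β] : EncInj (α × β) := ⟨fun a b h => by
  obtain ⟨a, a'⟩ := a
  obtain ⟨b, b'⟩ := b
  simp only [enc_pair, D.cons.injEq, enc_inj] at h
  simp [h]⟩
instance [EncInj α] : EncInj (List α) := ⟨fun l => by
  induction l with
  | nil => intro l' h; cases l' <;> simp_all
  | cons a l ih =>
    intro l' h
    cases l' with
    | nil => simp at h
    | cons b l' =>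
      simp only [enc_cons, D.cons.injEq, enc_inj] at h
      rw [h.1, ih h.2]⟩
instance [EncInj α] : EncInj (Option α) := ⟨fun a b h => by
  cases a <;> cases b <;> simp_all [enc_inj]⟩

namespace PTime

@[fun_prop] lemma eq [EncInj β] {f g : α → β} [∀ x, Decidable (f x = g x)] (hf : PTime f)
    (hg : PTime g) : PTime (fun x => decide (f x = g x)) :=
  (treeEq (enc'.comp hf) (enc'.comp hg)).congr fun x => by
    rw [decide_eq_decide, enc_inj]

@[fun_prop] lemma mem [EncInj β] {f : α → β} {l : α → List β} [∀ x, Decidable (f x ∈ l x)]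
    (hf : PTime f) (hl : PTime l) : PTime (fun x => decide (f x ∈ l x)) := by
  classical
  refine (decide_exists_mem (p := fun x b => f x = b) hl ?_).congr fun x => ?_
  · exact eq (hf.comp (fst id)) (snd id)
  · rw [decide_eq_decide]; simp

/-- Functions given by a finite table are in `PTime`. -/
lemma flatMap_const {ι : Type} (L : List ι) {g : ι → α → List β} (h : ∀ i ∈ L, PTime (g i)) :
    PTime (fun x => L.flatMap fun i => g i x) := by
  induction L with
  | nil => exact const []
  | cons i L ih =>
    have h1 := h i List.mem_cons_self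
    have h2 := ih fun j hj => h j (List.mem_cons_of_mem _ hj)
    exact (append h1 h2).congr fun x => by simp

lemma map_const {ι : Type} (L : List ι) {g : ι → α → β} (h : ∀ i ∈ L, PTime (g i)) :
    PTime (fun x => L.map fun i => g i x) := by
  induction L with
  | nil => exact const []
  | cons i L ih =>
    have h1 := h i List.mem_cons_self
    have h2 := ih fun j hj => h j (List.mem_cons_of_mem _ hj)
    exact (cons h1 h2).congr fun x => by simp

end PTime

attribute [fun_prop] PTime.sz'

example : PTime (fun p : ℕ × ℕ => decide (p.1 ∈ List.range p.2)) := by fun_prop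
example : PTime (fun p : List ℕ × ℕ => decide (p.1 = List.range p.2)) := by fun_prop

end TMLib
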