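import Pool.Agent.TM.Lib

/-!
# From `PTime` to Mathlib's `TM2ComputableInPolyTime`
-/

namespace TMLib

open Polynomial Turing

/-- Convert the bits on stack `b` to tree code on stack `m`. -/
def inLoop : Prog :=
  .loop .b isS (.ite .b isT
    (.seq (.pop .b) (.seq (.push .m false) (.seq (.push .m false)
      (.seq (.push .m true) (.push .m true)))))
    (.seq (.pop .b) (.seq (.push .m false) (.push .m true))))

lemma runs_inLoop (l : List Bool) : ∀ t : List Bool,
    Runs inLoop ⟨(enc t).code, [], l, []⟩ ⟨(enc (l.reverse ++ t)).code, [], [], []⟩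
      (1 + 7 * l.length) := by
  induction l with
  | nil => intro t; exact (Runs.loopF rfl).mono (by simp)
  | cons x l ih =>
    intro t
    have h := ih (x :: t)
    simp only [List.reverse_cons, List.append_assoc, List.singleton_append, List.length_cons]
    cases x
    · refine (Runs.loopT (k := .b) (f := isS) (s' := ⟨(enc (false :: t)).code, [], l, []⟩) rfl
        (T := 4) ?_ h).mono (by omega)
      refine (Runs.iteF rfl ((Runs.pop _ _).seq ((Runs.push _ _ _).seq (Runs.push _ _ _)))).mono ?_
      omega
    · refine (Runs.loopT (k := .b) (f := isS) (s' := ⟨(enc (true :: t)).code, [], l, []⟩) rfl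
        (T := 6) ?_ h).mono (by omega)
      refine (Runs.iteT rfl ((Runs.pop _ _).seq ((Runs.push _ _ _).seq ((Runs.push _ _ _).seq
        ((Runs.push _ _ _).seq (Runs.push _ _ _)))))).mono ?_
      omega

/-- Convert the tree code on stack `m` to bits on stack `b`. -/
def outLoop : Prog :=
  .loop .m isT (.seq (.pop .m) (.ite .m isT
    (.seq (.pop .m) (.seq (.pop .m) (.seq (.pop .m) (.push .b true))))
    (.seq (.pop .m) (.push .b false))))

lemma runs_outLoop (l : List Bool) : ∀ t : List Bool,
    Runs outLoop ⟨(enc l).code, [], t, []⟩ ⟨[false], [], l.reverse ++ t, []⟩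
      (1 + 7 * l.length) := by
  induction l with
  | nil => intro t; exact (Runs.loopF rfl).mono (by simp)
  | cons x l ih =>
    intro t
    have h := ih (x :: t)
    simp only [List.reverse_cons, List.append_assoc, List.singleton_append, List.length_cons]
    cases x
    · refine (Runs.loopT (k := .m) (f := isT) (s' := ⟨(enc l).code, [], false :: t, []⟩) rfl
        (T := 4) ?_ h).mono (by omega)
      refine ((Runs.pop _ _).seq (Runs.iteF rfl ((Runs.pop _ _).seq (Runs.push _ _ _)))).mono ?_
      omega
    · refine (Runs.loopT (k := .m) (f := isT) (s' := ⟨(enc l).code, [], true :: t, []⟩) rfl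
        (T := 6) ?_ h).mono (by omega)
      refine ((Runs.pop _ _).seq (Runs.iteT rfl ((Runs.pop _ _).seq ((Runs.pop _ _).seq
        ((Runs.pop _ _).seq (Runs.push _ _ _)))))).mono ?_
      omega

/-- The program with input and output conversion. -/
def wrap (p : Prog) : Prog :=
  .seq (mvAll .a .b) (.seq (.push .m false) (.seq inLoop (.seq p
    (.seq outLoop (.seq (.pop .m) (mvAll .b .a))))))

lemma sz_bits_le (l : List Bool) : sz l ≤ 1 + 4 * l.length := by
  induction l with
  | nil => simp
  | cons b l ih => have := sz_bool_le b; simp; omega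

theorem runs_wrap {f : List Bool → List Bool} (hf : PTime f) :
    ∃ (p : Prog) (T : ℕ[X]), ∀ l, Runs (wrap p) (.ofA l) (.ofA (f l)) (T.eval l.length) := by
  obtain ⟨p, T, hp⟩ := hf
  refine ⟨p, 100 + 100 * X + 12 * (1 + 4 * X + T.comp (1 + 4 * X)) + T.comp (1 + 4 * X),
    fun l => ?_⟩
  have h1 := runs_mvAll_ab l [] [] []
  have h2 := Runs.push .m false ⟨[], [], l.reverse ++ [], []⟩
  have h3 := runs_inLoop (l.reverse ++ []) []
  rw [List.append_nil, List.append_nil, List.reverse_reverse] at h3
  have h4 := hp l []
  rw [List.append_nil, List.append_nil] at h4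
  have h5 := runs_outLoop (f l) []
  have h6 := Runs.pop .m ⟨[false], [], (f l).reverse ++ [], []⟩
  have h7 := runs_mvAll_ba ((f l).reverse ++ []) [] [] []
  rw [List.append_nil, List.append_nil, List.reverse_reverse] at h7
  rw [List.append_nil] at h1 h2 h5 h6
  have h8 := h1.seq (h2.seq (h3.seq (h4.seq (h5.seq (h6.seq h7)))))
  refine h8.mono ?_
  have hs := PTime.size_le hp l
  have hb := sz_bits_le l
  have hT := eval_mono T hb
  have hl := length_lt_sz (f l)
  have e100 : eval l.length (100 : ℕ[X]) = 100 := by simp
  have e12 : eval l.length (12 : ℕ[X]) = 12 := by simp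
  have e4 : eval l.length (4 : ℕ[X]) = 4 := by simp
  have e1 : eval l.length (1 : ℕ[X]) = 1 := by simp
  simp only [eval_add, eval_mul, eval_X, eval_comp, e100, e12, e4, e1, List.length_reverse] at hs ⊢
  omega

/-- A function whose bit-level version is in `PTime` is computable in polynomial time by a
Mathlib `TM2` machine. -/
theorem tm2_of_ptime {α β : Type} {ea : α → List Bool} {eb : β → List Bool} {g : α → β}
    {f : List Bool → List Bool} (hf : PTime f) (h : ∀ a, eb (g a) = f (ea a)) :
    Nonempty (TM2ComputableInPolyTime ea eb g) := by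
  obtain ⟨p, T, hp⟩ := runs_wrap hf
  refine ⟨{
    tm := machine (wrap p)
    inputAlphabet := Equiv.refl Bool
    outputAlphabet := Equiv.refl Bool
    time := T + 1
    outputsFun := fun a => ?_ }⟩
  have h1 : Nonempty (TM2OutputsInTime (machine (wrap p)) (ea a) (some (f (ea a)))
      ((T + 1).eval (ea a).length)) := by
    obtain ⟨t, ht, hr⟩ := hp (ea a)
    exact outputsInTime_of_run hr (by simp; omega)
  have h2 := Classical.choice h1
  have e1 : List.map (Equiv.refl Bool).invFun (ea a) = ea a := by
    simp [Equiv.refl]
  have e2 : List.map (Equiv.refl Bool).invFun (eb (g a)) = f (ea a) := by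
    simp [Equiv.refl, h]
  have e3 : ∀ l l' : List Bool, l = ea a → l' = f (ea a) →
      TM2OutputsInTime (machine (wrap p)) l (some l') ((T + 1).eval (ea a).length) := by
    rintro _ _ rfl rfl
    exact h2
  exact e3 _ _ e1 e2

end TMLib
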