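import Pool.Agent.TM.NP

/-!
# The binary encodings of the prelude are computable in polynomial time
-/

namespace TMLib

open Polynomial N487b59b3

variable {α β γ : Type} [Enc α] [Enc β] [Enc γ]

namespace PTime

lemma length_filter_range_lt (n k : ℕ) :
    ((List.range n).filter fun q => decide (q < k)).length = Min.min n k := by
  induction n with
  | zero => simp
  | succ n ih =>
    rw [List.range_succ, List.filter_append, List.length_append, ih]
    by_cases h : n < k
    · simp [h]; omega
    · simp [h]; omega

@[fun_prop] lemma div {f g : α → ℕ} (hf : PTime f) (hg : PTime g) :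
    PTime (fun x => f x / g x) := by
  have h : PTime (fun x => if g x = 0 then 0 else
      ((List.range (f x)).filter fun q => decide ((q + 1) * g x ≤ f x)).length) := by
    fun_prop
  refine h.congr fun x => ?_
  split_ifs with hx
  · simp [hx]
  · have e : (fun q => decide ((q + 1) * g x ≤ f x)) = fun q => decide (q < f x / g x) := by
      funext q
      rw [decide_eq_decide, ← Nat.le_div_iff_mul_le (Nat.pos_of_ne_zero hx)]
      omega
    rw [e, length_filter_range_lt]
    have := Nat.div_le_self (f x) (g x)
    omega

@[fun_prop] lemma mod {f g : α → ℕ} (hf : PTime f) (hg : PTime g) :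
    PTime (fun x => f x % g x) := by
  have h : PTime (fun x => f x - g x * (f x / g x)) := by fun_prop
  refine h.congr fun x => ?_
  have := Nat.div_add_mod (f x) (g x)
  omega

end PTime

/-- Extract the lowest bit. -/
def bitsStep (s : ℕ × List Bool) : ℕ × List Bool :=
  if s.1 = 0 then s else (s.1 / 2, decide (s.1 % 2 = 1) :: s.2)

lemma bitsStep_zero (k : ℕ) (acc : List Bool) : bitsStep^[k] (0, acc) = (0, acc) := by
  induction k with
  | zero => rfl
  | succ k ih => rw [Function.iterate_succ_apply, show bitsStep (0, acc) = (0, acc) from rfl, ih]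

lemma bitsStep_iterate (n : ℕ) : ∀ (k : ℕ) (acc : List Bool), n ≤ k →
    bitsStep^[k] (n, acc) = (0, n.bits.reverse ++ acc) := by
  induction n using Nat.strong_induction_on with
  | _ n ih =>
    intro k acc hk
    rcases Nat.eq_zero_or_pos n with rfl | hn
    · rw [bitsStep_zero]; simp
    · obtain ⟨k, rfl⟩ : ∃ j, k = j + 1 := ⟨k - 1, by omega⟩
      rw [Function.iterate_succ_apply]
      have h1 : bitsStep (n, acc) = (n / 2, decide (n % 2 = 1) :: acc) := by
        simp [bitsStep, hn.ne']
      rw [h1, ih (n / 2) (by omega) k _ (by omega)]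
      have h2 : n.bits = decide (n % 2 = 1) :: (n / 2).bits := by
        rcases Nat.even_or_odd' n with ⟨m, rfl | rfl⟩
        · have hm : m ≠ 0 := by omega
          rw [Nat.bit0_bits m hm]
          simp
        · rw [Nat.bit1_bits]
          have e1 : (2 * m + 1) / 2 = m := by omega
          have e2 : (2 * m + 1) % 2 = 1 := by omega
          rw [e1, e2]
          simp
      rw [h2]
      simp

lemma bitsStep_size (k : ℕ) (n : ℕ) (acc : List Bool) :
    (bitsStep^[k] (n, acc)).1 ≤ n ∧ (bitsStep^[k] (n, acc)).2.length ≤ acc.length + k := by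
  induction k with
  | zero => simp
  | succ k ih =>
    rw [Function.iterate_succ_apply']
    generalize bitsStep^[k] (n, acc) = s at ih
    unfold bitsStep
    split_ifs
    · exact ⟨ih.1, by omega⟩
    · refine ⟨le_trans (Nat.div_le_self _ _) ih.1, ?_⟩
      simp
      omega

namespace PTime

@[fun_prop] lemma bits {f : α → ℕ} (hf : PTime f) : PTime (fun x => (f x).bits) := by
  have hstep : PTime bitsStep := by
    unfold bitsStep
    fun_prop
  have h := iter hstep (s := fun n : ℕ => (n, ([] : List Bool))) (n := fun n => n) (by fun_prop) id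
    (h := fun n : ℕ => 1 + sz n + (1 + sz n * (1 + 3)))
    (((PB.const 1).add PB.sz_self).add ((PB.const 1).add (PB.sz_self.mul (PB.const 4))))
    (fun n i hi => by
      obtain ⟨h1, h2⟩ := bitsStep_size i n []
      have h3 := sz_list_le (bitsStep^[i] (n, [])).2 (sz n) 3 (by simp at h2 ⊢; omega)
        (fun b _ => sz_bool_le b)
      rw [sz_pair]
      simp only [sz_nat] at *
      omega)
  refine PTime.comp (g := fun n : ℕ => n.bits) ?_ hf
  refine (reverse (snd h)).congr fun n => ?_
  rw [bitsStep_iterate n n [] le_rfl]
  simp

end PTime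

lemma encodePosNum_eq (p : PosNum) : Computability.encodePosNum p = (p : ℕ).bits := by
  induction p with
  | one =>
    rw [show ((PosNum.one : PosNum) : ℕ) = 1 from rfl, Nat.one_bits]
    rfl
  | bit0 p ih =>
    have hp : (p : ℕ) ≠ 0 := (PosNum.cast_pos p).ne'
    rw [PosNum.cast_bit0, ← two_mul, Nat.bit0_bits _ hp, ← ih]
    rfl
  | bit1 p ih =>
    rw [PosNum.cast_bit1, ← two_mul, Nat.bit1_bits, ← ih]
    rfl

lemma encodeNat_eq (n : ℕ) : Computability.encodeNat n = n.bits := by
  have h : ∀ m : Num, Computability.encodeNum m = (m : ℕ).bits := by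
    intro m
    cases m with
    | zero => rfl
    | pos p => exact encodePosNum_eq p
  have := h (n : Num)
  rw [Num.to_of_nat] at this
  exact this

/-- The prelude encoding of `α` is computable in polynomial time. -/
class BitEnc (α : Type) [Enc α] [N487b59b3 α] : Prop where
  ptime : PTime (fun a : α => bitEncode a)

@[fun_prop] lemma PTime.bitEncode [N487b59b3 β] [BitEnc β] {f : α → β} (hf : PTime f) :
    PTime (fun x => bitEncode (f x)) := BitEnc.ptime.comp hf

@[fun_prop] lemma PTime.delimit {f : α → List Bool} (hf : PTime f) :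
    PTime (fun x => delimit (f x)) := by
  have h : PTime (fun x => (f x).flatMap (fun b => [true, b]) ++ [false]) := by fun_prop
  refine h.congr fun x => ?_
  induction f x with
  | nil => rfl
  | cons b l ih =>
    change true :: b :: N487b59b3.delimit l = _
    rw [ih]
    rfl

instance : BitEnc Bool := ⟨by
  change PTime (fun b : Bool => [b])
  fun_prop⟩

instance : BitEnc ℕ := ⟨by
  refine PTime.congr (f := fun n : ℕ => n.bits) (by fun_prop) fun n => ?_
  exact encodeNat_eq n⟩

instance [N487b59b3 α] [N487b59b3 β] [BitEnc α] [BitEnc β] : BitEnc (α × β) := ⟨by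
  change PTime (fun p : α × β => N487b59b3.delimit (bitEncode p.1) ++ bitEncode p.2)
  fun_prop⟩

instance [N487b59b3 α] [BitEnc α] : BitEnc (List α) := ⟨by
  change PTime (fun l : List α => ((l.map bitEncode).map N487b59b3.delimit).flatten)
  fun_prop⟩

example : PTime (fun n : ℕ => bitEncode (n, List.range n, [[n]])) := by fun_prop

end TMLib
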