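import Mathlib

/-!
# Micro steps of Mathlib's `TM2` machines

Each micro step executes one primitive operation; the control state is a pair (remaining
statement, internal state), a halted machine stays put.
-/

namespace TMLib

open Turing

variable {K : Type} [DecidableEq K] {Γ : K → Type} {Λ σ : Type}

/-- One primitive operation. -/
def mstep (M : Λ → TM2.Stmt Γ Λ σ) (m : (TM2.Stmt Γ Λ σ × σ) × (∀ k, List (Γ k))) :
    (TM2.Stmt Γ Λ σ × σ) × (∀ k, List (Γ k)) :=
  match m.1.1 with
  | .push k f q => ((q, m.1.2), Function.update m.2 k (f m.1.2 :: m.2 k))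
  | .peek k f q => ((q, f m.1.2 (m.2 k).head?), m.2)
  | .pop k f q => ((q, f m.1.2 (m.2 k).head?), Function.update m.2 k (m.2 k).tail)
  | .load a q => ((q, a m.1.2), m.2)
  | .branch p q₁ q₂ => ((cond (p m.1.2) q₁ q₂, m.1.2), m.2)
  | .goto l => ((M (l m.1.2), m.1.2), m.2)
  | .halt => ((.halt, m.1.2), m.2)

/-- The statement at an optional label. -/
def stmtAt (M : Λ → TM2.Stmt Γ Λ σ) (l : Option Λ) : TM2.Stmt Γ Λ σ := l.elim .halt M

/-- The micro configuration of a macro configuration. -/
def toM (M : Λ → TM2.Stmt Γ Λ σ) (c : TM2.Cfg Γ Λ σ) :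
    (TM2.Stmt Γ Λ σ × σ) × (∀ k, List (Γ k)) :=
  ((stmtAt M c.l, c.var), c.stk)

/-- Number of primitive operations. -/
def depth : TM2.Stmt Γ Λ σ → ℕ
  | .push _ _ q => depth q + 1
  | .peek _ _ q => depth q + 1
  | .pop _ _ q => depth q + 1
  | .load _ q => depth q + 1
  | .branch _ q₁ q₂ => depth q₁ + depth q₂ + 1
  | .goto _ => 1
  | .halt => 1

lemma mstep_stmt (M : Λ → TM2.Stmt Γ Λ σ) (q : TM2.Stmt Γ Λ σ) :
    ∀ (v : σ) (S : ∀ k, List (Γ k)),
      ∃ n ≤ depth q, (mstep M)^[n] ((q, v), S) = toM M (TM2.stepAux q v S) := by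
  induction q with
  | push k f q ih =>
    intro v S
    obtain ⟨n, hn, h⟩ := ih v (Function.update S k (f v :: S k))
    exact ⟨n + 1, by simp [depth, hn], by rw [Function.iterate_succ_apply]; exact h⟩
  | peek k f q ih =>
    intro v S
    obtain ⟨n, hn, h⟩ := ih (f v (S k).head?) S
    exact ⟨n + 1, by simp [depth, hn], by rw [Function.iterate_succ_apply]; exact h⟩
  | pop k f q ih =>
    intro v S
    obtain ⟨n, hn, h⟩ := ih (f v (S k).head?) (Function.update S k (S k).tail)
    exact ⟨n + 1, by simp [depth, hn], by rw [Function.iterate_succ_apply]; exact h⟩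
  | load a q ih =>
    intro v S
    obtain ⟨n, hn, h⟩ := ih (a v) S
    exact ⟨n + 1, by simp [depth, hn], by rw [Function.iterate_succ_apply]; exact h⟩
  | branch p q₁ q₂ ih₁ ih₂ =>
    intro v S
    cases hp : p v with
    | true =>
      obtain ⟨n, hn, h⟩ := ih₁ v S
      refine ⟨n + 1, by simp [depth]; omega, ?_⟩
      rw [Function.iterate_succ_apply]
      simp only [mstep, hp, cond_true, TM2.stepAux]
      exact h
    | false =>
      obtain ⟨n, hn, h⟩ := ih₂ v S
      refine ⟨n + 1, by simp [depth]; omega, ?_⟩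
      rw [Function.iterate_succ_apply]
      simp only [mstep, hp, cond_false, TM2.stepAux]
      exact h
  | goto l => intro v S; exact ⟨1, le_rfl, rfl⟩
  | halt => intro v S; exact ⟨1, le_rfl, rfl⟩

lemma mstep_iterate_halt (M : Λ → TM2.Stmt Γ Λ σ) (v : σ) (S : ∀ k, List (Γ k)) (n : ℕ) :
    (mstep M)^[n] ((.halt, v), S) = ((.halt, v), S) := by
  induction n with
  | zero => rfl
  | succ n ih => rw [Function.iterate_succ_apply, show mstep M ((.halt, v), S) = ((.halt, v), S) from rfl, ih]

lemma flip_bind_none (M : Λ → TM2.Stmt Γ Λ σ) (n : ℕ) :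
    (flip bind (TM2.step M))^[n] none = none := by
  induction n with
  | zero => rfl
  | succ n ih => rw [Function.iterate_succ_apply]; exact ih

/-- A macro computation is simulated by micro steps. -/
theorem mstep_of_evals (M : Λ → TM2.Stmt Γ Λ σ) (C : ℕ) (hC : ∀ l, depth (M l) ≤ C) (n : ℕ) :
    ∀ (c c' : TM2.Cfg Γ Λ σ), (flip bind (TM2.step M))^[n] (some c) = some c' →
      ∃ k ≤ n * C, (mstep M)^[k] (toM M c) = toM M c' := by
  induction n with
  | zero =>
    intro c c' h
    have h' : c = c' := by simpa using h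
    subst h'
    exact ⟨0, by simp, rfl⟩
  | succ n ih =>
    intro c c' h
    rw [Function.iterate_succ_apply] at h
    obtain ⟨l, v, S⟩ := c
    cases l with
    | none =>
      have : flip bind (TM2.step M) (some (⟨none, v, S⟩ : TM2.Cfg Γ Λ σ)) = none := rfl
      rw [this, flip_bind_none] at h
      exact absurd h (by simp)
    | some l =>
      have : flip bind (TM2.step M) (some (⟨some l, v, S⟩ : TM2.Cfg Γ Λ σ)) =
        some (TM2.stepAux (M l) v S) := rfl
      rw [this] at h
      obtain ⟨k, hk, hk'⟩ := ih _ _ h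
      obtain ⟨j, hj, hj'⟩ := mstep_stmt M (M l) v S
      refine ⟨k + j, ?_, ?_⟩
      · have := hC l
        rw [Nat.add_mul]
        omega
      · rw [Function.iterate_add_apply]
        change (mstep M)^[k] ((mstep M)^[j] ((M l, v), S)) = _
        rw [hj', hk']

/-- If the machine halts within `n` macro steps, then after any `T ≥ n * C` micro steps it is in
the halting configuration. -/
theorem mstep_of_evals_halt (M : Λ → TM2.Stmt Γ Λ σ) (C : ℕ) (hC : ∀ l, depth (M l) ≤ C) (n : ℕ)
    (c c' : TM2.Cfg Γ Λ σ) (h : (flip bind (TM2.step M))^[n] (some c) = some c')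
    (hl : c'.l = none) (T : ℕ) (hT : n * C ≤ T) : (mstep M)^[T] (toM M c) = toM M c' := by
  obtain ⟨k, hk, hk'⟩ := mstep_of_evals M C hC n c c' h
  obtain ⟨j, rfl⟩ : ∃ j, T = j + k := ⟨T - k, by omega⟩
  rw [Function.iterate_add_apply, hk']
  have e : toM M c' = ((.halt, c'.var), c'.stk) := by simp [toM, stmtAt, hl]
  rw [e, mstep_iterate_halt]

end TMLib
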