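import Pool.Agent.TM.Lib2

/-!
# 3-CNF formulas
-/

namespace TMLib

/-- A literal: a variable and the value it asks for. -/
abbrev Lit := ℕ × Bool

/-- A clause of three literals (repetitions allowed). -/
abbrev Cl := Lit × Lit × Lit

/-- The clause holds under the assignment `v`. -/
def Cl.holds (v : ℕ → Bool) (c : Cl) : Prop :=
  v c.1.1 = c.1.2 ∨ v c.2.1.1 = c.2.1.2 ∨ v c.2.2.1 = c.2.2.2

/-- Satisfiability of a 3-CNF formula, given by its list of clauses. -/
def Sat (φ : List Cl) : Prop := ∃ v : ℕ → Bool, ∀ c ∈ φ, Cl.holds v c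

/-- The clause `a`. -/
def cUnit (a : ℕ) : Cl := ((a, true), (a, true), (a, true))
/-- The clause `¬ a`. -/
def cNot (a : ℕ) : Cl := ((a, false), (a, false), (a, false))
/-- The clause `a → b`. -/
def cImp (a b : ℕ) : Cl := ((a, false), (b, true), (b, true))
/-- The clause `a ∧ b → c`. -/
def cImp2 (a b c : ℕ) : Cl := ((a, false), (b, false), (c, true))
/-- The clause `a ∨ b ∨ c`. -/
def cOr (a b c : ℕ) : Cl := ((a, true), (b, true), (c, true))

@[simp] lemma holds_cUnit (v : ℕ → Bool) (a : ℕ) : Cl.holds v (cUnit a) ↔ v a = true := by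
  simp [Cl.holds, cUnit]
@[simp] lemma holds_cNot (v : ℕ → Bool) (a : ℕ) : Cl.holds v (cNot a) ↔ v a = false := by
  simp [Cl.holds, cNot]
@[simp] lemma holds_cImp (v : ℕ → Bool) (a b : ℕ) :
    Cl.holds v (cImp a b) ↔ (v a = true → v b = true) := by
  simp only [Cl.holds, cImp]; cases v a <;> simp
@[simp] lemma holds_cImp2 (v : ℕ → Bool) (a b c : ℕ) :
    Cl.holds v (cImp2 a b c) ↔ (v a = true → v b = true → v c = true) := by
  simp only [Cl.holds, cImp2]; cases v a <;> cases v b <;> simp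
@[simp] lemma holds_cOr (v : ℕ → Bool) (a b c : ℕ) :
    Cl.holds v (cOr a b c) ↔ (v a = true ∨ v b = true ∨ v c = true) := by
  simp [Cl.holds, cOr]

variable {α : Type} [Enc α]

@[fun_prop] lemma PTime.cUnit {a : α → ℕ} (ha : PTime a) : PTime (fun x => cUnit (a x)) := by
  unfold TMLib.cUnit; fun_prop
@[fun_prop] lemma PTime.cNot {a : α → ℕ} (ha : PTime a) : PTime (fun x => cNot (a x)) := by
  unfold TMLib.cNot; fun_prop
@[fun_prop] lemma PTime.cImp {a b : α → ℕ} (ha : PTime a) (hb : PTime b) :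
    PTime (fun x => cImp (a x) (b x)) := by
  unfold TMLib.cImp; fun_prop
@[fun_prop] lemma PTime.cImp2 {a b c : α → ℕ} (ha : PTime a) (hb : PTime b) (hc : PTime c) :
    PTime (fun x => cImp2 (a x) (b x) (c x)) := by
  unfold TMLib.cImp2; fun_prop
@[fun_prop] lemma PTime.cOr {a b c : α → ℕ} (ha : PTime a) (hb : PTime b) (hc : PTime c) :
    PTime (fun x => cOr (a x) (b x) (c x)) := by
  unfold TMLib.cOr; fun_prop

@[fun_prop] lemma PTime.natPair {a b : α → ℕ} (ha : PTime a) (hb : PTime b) :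
    PTime (fun x => Nat.pair (a x) (b x)) := by
  unfold Nat.pair; fun_prop

attribute [irreducible] cUnit cNot cImp cImp2 cOr

end TMLib
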