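import Pool.Agent.TM.NP
import Pool.Agent.TM.Sat
import Pool.Agent.TM.Micro

/-!
# The Cook-Levin theorem for Mathlib's `TM2` machines
-/

namespace TMLib

open Turing Polynomial N68a2faeb N793a5b8e N487b59b3

noncomputable section

section formula

open Classical in
/-- Statements that may occur. -/
def stm {K : Type} [DecidableEq K] {Γ : K → Type} {Λ σ : Type} [Fintype Λ]
    (M : Λ → TM2.Stmt Γ Λ σ) : Finset (TM2.Stmt Γ Λ σ) :=
  insert .halt (Finset.univ.biUnion fun l => TM2.stmts₁ (M l))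

variable {K : Type} [DecidableEq K] [Fintype K] {Γ : K → Type} {Λ σ : Type} [Fintype Λ] [Fintype σ]

/-- The symbol pushed by a statement. -/
def pushed (c : TM2.Stmt Γ Λ σ × σ) : List (Σ k, Γ k) :=
  match c.1 with
  | .push k f _ => [⟨k, f c.2⟩]
  | _ => []

/-- Controls that may occur. -/
def ctls (M : Λ → TM2.Stmt Γ Λ σ) : List (TM2.Stmt Γ Λ σ × σ) :=
  (stm M).toList.flatMap fun q => (Finset.univ : Finset σ).toList.map fun v => (q, v)

/-- Symbols that may occur. -/
def syms (M : Λ → TM2.Stmt Γ Λ σ) (k₀ : K) [Fintype (Γ k₀)] : List (Σ k, Γ k) :=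
  (ctls M).flatMap pushed ++ (Finset.univ : Finset (Γ k₀)).toList.map fun a => ⟨k₀, a⟩

/-- Cell contents that may occur. -/
def cells (M : Λ → TM2.Stmt Γ Λ σ) (k₀ : K) [Fintype (Γ k₀)] : List (Σ k, Option (Γ k)) :=
  ((Finset.univ : Finset K).toList.map fun k => ⟨k, none⟩) ++
    (syms M k₀).map fun s => ⟨s.1, some s.2⟩

/-- Names of propositional variables (without the two coordinates). -/
abbrev Idx (Γ : K → Type) (Λ σ : Type) :=
  (TM2.Stmt Γ Λ σ × σ) ⊕ ((Σ k, Option (Γ k)) ⊕ Fin 3)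

/-- The list of all names. -/
def idx (M : Λ → TM2.Stmt Γ Λ σ) (k₀ : K) [Fintype (Γ k₀)] : List (Idx Γ Λ σ) :=
  (ctls M).map Sum.inl ++ ((cells M k₀).map fun y => Sum.inr (Sum.inl y)) ++
    [Sum.inr (Sum.inr 0), Sum.inr (Sum.inr 1), Sum.inr (Sum.inr 2)]

open Classical in
/-- Number of a name. -/
def code (M : Λ → TM2.Stmt Γ Λ σ) (k₀ : K) [Fintype (Γ k₀)] (y : Idx Γ Λ σ) : ℕ :=
  if h : ∃ n, (idx M k₀)[n]? = some y then h.choose else (idx M k₀).length

lemma code_mem (M : Λ → TM2.Stmt Γ Λ σ) (k₀ : K) [Fintype (Γ k₀)] {y : Idx Γ Λ σ}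
    (hy : y ∈ idx M k₀) : (idx M k₀)[code M k₀ y]? = some y := by
  have h : ∃ n, (idx M k₀)[n]? = some y := List.mem_iff_getElem?.1 hy
  rw [code, dif_pos h]
  exact h.choose_spec

lemma code_not_mem (M : Λ → TM2.Stmt Γ Λ σ) (k₀ : K) [Fintype (Γ k₀)] {y : Idx Γ Λ σ}
    (hy : y ∉ idx M k₀) : (idx M k₀)[code M k₀ y]? = none := by
  have h : ¬ ∃ n, (idx M k₀)[n]? = some y := fun h => hy (List.mem_iff_getElem?.2 h)
  rw [code, dif_neg h]
  simp

/-- The propositional variable with coordinates `t`, `i` and name `y`. -/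
def V (M : Λ → TM2.Stmt Γ Λ σ) (k₀ : K) [Fintype (Γ k₀)] (y : Idx Γ Λ σ) (t i : ℕ) : ℕ :=
  Nat.pair t (Nat.pair i (code M k₀ y))

@[fun_prop] lemma PTime.V {α : Type} [Enc α] (M : Λ → TM2.Stmt Γ Λ σ) (k₀ : K) [Fintype (Γ k₀)]
    (y : Idx Γ Λ σ) {t i : α → ℕ} (ht : PTime t) (hi : PTime i) :
    PTime (fun x => V M k₀ y (t x) (i x)) := by
  unfold TMLib.V; fun_prop

/-- Control variable. -/
abbrev cv (M : Λ → TM2.Stmt Γ Λ σ) (k₀ : K) [Fintype (Γ k₀)] (c : TM2.Stmt Γ Λ σ × σ) (t : ℕ) : ℕ :=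
  V M k₀ (Sum.inl c) t 0

/-- Cell variable. -/
abbrev sv (M : Λ → TM2.Stmt Γ Λ σ) (k₀ : K) [Fintype (Γ k₀)] (y : Σ k, Option (Γ k)) (t i : ℕ) : ℕ :=
  V M k₀ (Sum.inr (Sum.inl y)) t i

/-- Witness variable. -/
abbrev wv (M : Λ → TM2.Stmt Γ Λ σ) (k₀ : K) [Fintype (Γ k₀)] (s : Fin 3) (j : ℕ) : ℕ :=
  V M k₀ (Sum.inr (Sum.inr s)) 0 j

/-- Clauses for the next control. -/
def ctlGen (M : Λ → TM2.Stmt Γ Λ σ) (k₀ : K) [Fintype (Γ k₀)] (c : TM2.Stmt Γ Λ σ × σ)
    (y : Σ k, Option (Γ k)) (t : ℕ) : List Cl :=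
  match c.1 with
  | .push k f q => [cImp (cv M k₀ c t) (cv M k₀ (q, c.2) (t + 1)),
      cImp (cv M k₀ c t) (sv M k₀ ⟨k, some (f c.2)⟩ (t + 1) 0)]
  | .peek k f q => if h : y.1 = k then
      [cImp2 (cv M k₀ c t) (sv M k₀ y t 0) (cv M k₀ (q, f c.2 (h ▸ y.2)) (t + 1))] else []
  | .pop k f q => if h : y.1 = k then
      [cImp2 (cv M k₀ c t) (sv M k₀ y t 0) (cv M k₀ (q, f c.2 (h ▸ y.2)) (t + 1))] else []
  | .load a q => [cImp (cv M k₀ c t) (cv M k₀ (q, a c.2) (t + 1))]
  | .branch p q₁ q₂ => [cImp (cv M k₀ c t) (cv M k₀ (cond (p c.2) q₁ q₂, c.2) (t + 1))]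
  | .goto l => [cImp (cv M k₀ c t) (cv M k₀ (M (l c.2), c.2) (t + 1))]
  | .halt => [cImp (cv M k₀ c t) (cv M k₀ (.halt, c.2) (t + 1))]

/-- Clauses for the next cell contents. -/
def cellGen (M : Λ → TM2.Stmt Γ Λ σ) (k₀ : K) [Fintype (Γ k₀)] (c : TM2.Stmt Γ Λ σ × σ)
    (y : Σ k, Option (Γ k)) (t i : ℕ) : List Cl :=
  match c.1 with
  | .push k _ _ => if y.1 = k then [cImp2 (cv M k₀ c t) (sv M k₀ y t i) (sv M k₀ y (t + 1) (i + 1))]
      else [cImp2 (cv M k₀ c t) (sv M k₀ y t i) (sv M k₀ y (t + 1) i)]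
  | .pop k _ _ => if y.1 = k then [cImp2 (cv M k₀ c t) (sv M k₀ y t (i + 1)) (sv M k₀ y (t + 1) i)]
      else [cImp2 (cv M k₀ c t) (sv M k₀ y t i) (sv M k₀ y (t + 1) i)]
  | _ => [cImp2 (cv M k₀ c t) (sv M k₀ y t i) (sv M k₀ y (t + 1) i)]

/-- All step clauses. -/
def stepF (M : Λ → TM2.Stmt Γ Λ σ) (k₀ : K) [Fintype (Γ k₀)] (T : ℕ) : List Cl :=
  ((ctls M).flatMap fun c => (cells M k₀).flatMap fun y =>
    (List.range T).flatMap fun t => ctlGen M k₀ c y t) ++
  ((ctls M).flatMap fun c => (cells M k₀).flatMap fun y =>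
    (List.range T).flatMap fun t => (List.range (T + 1)).flatMap fun i => cellGen M k₀ c y t i)

/-- The fixed part of the input, as bits. -/
def fixedBits (x : List Bool) : List Bool :=
  (x.flatMap fun b => [true, true, true, b, true, false]) ++ [false]

/-- Clauses for one block of the witness. -/
def groupF (M : Λ → TM2.Stmt Γ Λ σ) (k₀ : K) [Fintype (Γ k₀)] (inv : Bool → Γ k₀) (B j : ℕ) :
    List Cl :=
  [cOr (wv M k₀ 0 j) (wv M k₀ 1 j) (wv M k₀ 2 j),
   cImp (wv M k₀ 2 j) (wv M k₀ 2 (j + 1)),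
   cImp (wv M k₀ 0 j) (sv M k₀ ⟨k₀, some (inv true)⟩ 0 (B + 3 * j)),
   cImp (wv M k₀ 0 j) (sv M k₀ ⟨k₀, some (inv false)⟩ 0 (B + 3 * j + 1)),
   cImp (wv M k₀ 0 j) (sv M k₀ ⟨k₀, some (inv false)⟩ 0 (B + 3 * j + 2)),
   cImp (wv M k₀ 1 j) (sv M k₀ ⟨k₀, some (inv true)⟩ 0 (B + 3 * j)),
   cImp (wv M k₀ 1 j) (sv M k₀ ⟨k₀, some (inv true)⟩ 0 (B + 3 * j + 1)),
   cImp (wv M k₀ 1 j) (sv M k₀ ⟨k₀, some (inv false)⟩ 0 (B + 3 * j + 2)),
   cImp (wv M k₀ 2 j) (sv M k₀ ⟨k₀, none⟩ 0 (B + 3 * j)),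
   cImp (wv M k₀ 2 j) (sv M k₀ ⟨k₀, none⟩ 0 (B + 3 * j + 1)),
   cImp (wv M k₀ 2 j) (sv M k₀ ⟨k₀, none⟩ 0 (B + 3 * j + 2))]

/-- Clauses for the initial configuration. -/
def initF (M : Λ → TM2.Stmt Γ Λ σ) (k₀ : K) [Fintype (Γ k₀)] (inv : Bool → Γ k₀)
    (c₀ : TM2.Stmt Γ Λ σ × σ) (x : List Bool) (P T : ℕ) : List Cl :=
  cUnit (cv M k₀ c₀ 0) ::
  (((List.range (fixedBits x).length).map fun i =>
    cUnit (bif (fixedBits x).getD i false then sv M k₀ ⟨k₀, some (inv true)⟩ 0 i
      else sv M k₀ ⟨k₀, some (inv false)⟩ 0 i)) ++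
  ((List.range P).flatMap fun j => groupF M k₀ inv (fixedBits x).length j) ++
  ((List.range (T + 1)).map fun i =>
    cUnit (sv M k₀ ⟨k₀, none⟩ 0 ((fixedBits x).length + 3 * P + i))) ++
  ((Finset.univ : Finset K).toList.flatMap fun k => if k = k₀ then [] else
    (List.range (T + 1)).map fun i => cUnit (sv M k₀ ⟨k, none⟩ 0 i)))

/-- The Cook-Levin formula. -/
def clFormula (M : Λ → TM2.Stmt Γ Λ σ) (k₀ k₁ : K) [Fintype (Γ k₀)] (inv : Bool → Γ k₀)
    (outF : Γ k₁) (c₀ : TM2.Stmt Γ Λ σ × σ) (x : List Bool) (P T : ℕ) : List Cl :=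
  cNot (sv M k₀ ⟨k₁, some outF⟩ T 0) :: (initF M k₀ inv c₀ x P T ++ stepF M k₀ T)

/-! ### The formula is computable in polynomial time -/

lemma ptime_ctlGen (M : Λ → TM2.Stmt Γ Λ σ) (k₀ : K) [Fintype (Γ k₀)] (c : TM2.Stmt Γ Λ σ × σ)
    (y : Σ k, Option (Γ k)) : PTime (fun t => ctlGen M k₀ c y t) := by
  obtain ⟨q, v⟩ := c
  cases q with
  | peek k f q =>
    simp only [ctlGen]
    split_ifs <;> fun_prop
  | pop k f q =>
    simp only [ctlGen]
    split_ifs <;> fun_prop
  | _ => simp only [ctlGen]; fun_prop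

lemma ptime_cellGen (M : Λ → TM2.Stmt Γ Λ σ) (k₀ : K) [Fintype (Γ k₀)] (c : TM2.Stmt Γ Λ σ × σ)
    (y : Σ k, Option (Γ k)) : PTime (fun p : ℕ × ℕ => cellGen M k₀ c y p.1 p.2) := by
  obtain ⟨q, v⟩ := c
  cases q with
  | push k f q =>
    simp only [cellGen]
    split_ifs <;> fun_prop
  | pop k f q =>
    simp only [cellGen]
    split_ifs <;> fun_prop
  | _ => simp only [cellGen]; fun_prop

lemma ptime_stepF (M : Λ → TM2.Stmt Γ Λ σ) (k₀ : K) [Fintype (Γ k₀)] :
    PTime (fun T => stepF M k₀ T) := by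
  refine PTime.append (PTime.flatMap_const _ fun c _ => PTime.flatMap_const _ fun y _ => ?_)
    (PTime.flatMap_const _ fun c _ => PTime.flatMap_const _ fun y _ => ?_)
  · have := ptime_ctlGen M k₀ c y
    exact PTime.flatMap (by fun_prop) (this.comp (PTime.snd PTime.id))
  · have := ptime_cellGen M k₀ c y
    refine PTime.flatMap (by fun_prop) (PTime.flatMap (by fun_prop) ?_)
    exact this.comp (f := fun p : (ℕ × ℕ) × ℕ => (p.1.2, p.2)) (by fun_prop)

@[fun_prop] lemma ptime_fixedBits {α : Type} [Enc α] {x : α → List Bool} (hx : PTime x) :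
    PTime (fun a => fixedBits (x a)) := by
  unfold fixedBits
  fun_prop

lemma ptime_initF (M : Λ → TM2.Stmt Γ Λ σ) (k₀ : K) [Fintype (Γ k₀)] (inv : Bool → Γ k₀)
    (c₀ : TM2.Stmt Γ Λ σ × σ) :
    PTime (fun p : List Bool × ℕ × ℕ => initF M k₀ inv c₀ p.1 p.2.1 p.2.2) := by
  have h1 : PTime (fun p : List Bool × ℕ × ℕ => (Finset.univ : Finset K).toList.flatMap fun k =>
      if k = k₀ then [] else
      (List.range (p.2.2 + 1)).map fun i => cUnit (sv M k₀ ⟨k, none⟩ 0 i)) := by
    refine PTime.flatMap_const _ fun k _ => ?_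
    split_ifs <;> fun_prop
  have h2 : PTime (fun p : ℕ × ℕ => groupF M k₀ inv p.1 p.2) := by
    unfold groupF
    fun_prop
  unfold initF
  fun_prop

lemma ptime_clFormula (M : Λ → TM2.Stmt Γ Λ σ) (k₀ k₁ : K) [Fintype (Γ k₀)] (inv : Bool → Γ k₀)
    (outF : Γ k₁) (c₀ : TM2.Stmt Γ Λ σ × σ) (p τ : ℕ[X]) :
    PTime (fun x : List Bool => clFormula M k₀ k₁ inv outF c₀ x (p.eval x.length)
      (τ.eval x.length)) := by
  have h1 := ptime_initF M k₀ inv c₀
  have h2 := ptime_stepF M k₀
  have h3 : PTime (fun x : List Bool => initF M k₀ inv c₀ x (p.eval x.length) (τ.eval x.length)) :=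
    h1.comp (f := fun x : List Bool => (x, p.eval x.length, τ.eval x.length)) (by fun_prop)
  unfold clFormula
  fun_prop

/-! ### Invariants of the run -/

lemma halt_mem_stm (M : Λ → TM2.Stmt Γ Λ σ) : TM2.Stmt.halt ∈ stm M := by simp [stm]

lemma label_mem_stm (M : Λ → TM2.Stmt Γ Λ σ) (l : Λ) : M l ∈ stm M := by
  simp only [stm, Finset.mem_insert, Finset.mem_biUnion, Finset.mem_univ, true_and]
  exact Or.inr ⟨l, TM2.stmts₁_self⟩

lemma sub_mem_stm {M : Λ → TM2.Stmt Γ Λ σ} {q q' : TM2.Stmt Γ Λ σ} (h : q ∈ stm M)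
    (h' : q' ∈ TM2.stmts₁ q) : q' ∈ stm M := by
  simp only [stm, Finset.mem_insert, Finset.mem_biUnion, Finset.mem_univ, true_and] at h ⊢
  rcases h with rfl | ⟨l, hl⟩
  · left
    simpa [TM2.stmts₁] using h'
  · exact Or.inr ⟨l, TM2.stmts₁_trans hl h'⟩

lemma mem_ctls {M : Λ → TM2.Stmt Γ Λ σ} {c : TM2.Stmt Γ Λ σ × σ} : c ∈ ctls M ↔ c.1 ∈ stm M := by
  obtain ⟨q, v⟩ := c
  simp [ctls]

/-- Invariant: control and symbols are among the listed ones. -/
def MInv (M : Λ → TM2.Stmt Γ Λ σ) (k₀ : K) [Fintype (Γ k₀)]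
    (m : (TM2.Stmt Γ Λ σ × σ) × (∀ k, List (Γ k))) : Prop :=
  m.1.1 ∈ stm M ∧ ∀ k, ∀ a ∈ m.2 k, (⟨k, a⟩ : Σ k, Γ k) ∈ syms M k₀

/-- Next controls are listed. -/
lemma mstep_stm (M : Λ → TM2.Stmt Γ Λ σ) (m : (TM2.Stmt Γ Λ σ × σ) × (∀ k, List (Γ k)))
    (h : m.1.1 ∈ stm M) : (mstep M m).1.1 ∈ stm M := by
  classical
  obtain ⟨⟨q, v⟩, S⟩ := m
  cases q with
  | branch p q₁ q₂ =>
    have h1 : q₁ ∈ stm M := sub_mem_stm h (by simp [TM2.stmts₁, TM2.stmts₁_self])
    have h2 : q₂ ∈ stm M := sub_mem_stm h (by simp [TM2.stmts₁, TM2.stmts₁_self])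
    simp only [mstep]
    cases p v
    · exact h2
    · exact h1
  | goto l => exact label_mem_stm M _
  | halt => exact halt_mem_stm M
  | _ => exact sub_mem_stm h (by simp [mstep, TM2.stmts₁, TM2.stmts₁_self])

lemma minv_mstep (M : Λ → TM2.Stmt Γ Λ σ) (k₀ : K) [Fintype (Γ k₀)]
    (m : (TM2.Stmt Γ Λ σ × σ) × (∀ k, List (Γ k))) (h : MInv M k₀ m) :
    MInv M k₀ (mstep M m) := by
  refine ⟨mstep_stm M m h.1, ?_⟩
  obtain ⟨h1, h2⟩ := h
  obtain ⟨⟨q, v⟩, S⟩ := m
  intro k a ha
  cases q with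
  | push k' f q =>
    simp only [mstep] at ha h1
    by_cases hk : k = k'
    · subst hk
      rw [Function.update_self] at ha
      rcases List.mem_cons.1 ha with rfl | ha
      · refine List.mem_append_left _ (List.mem_flatMap.2 ⟨(.push k f q, v), mem_ctls.2 h1, ?_⟩)
        simp [pushed]
      · exact h2 k a ha
    · rw [Function.update_of_ne hk] at ha
      exact h2 k a ha
  | pop k' f q =>
    simp only [mstep] at ha
    by_cases hk : k = k'
    · subst hk
      rw [Function.update_self] at ha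
      exact h2 k a (List.mem_of_mem_tail ha)
    · rw [Function.update_of_ne hk] at ha
      exact h2 k a ha
  | _ => exact h2 k a ha

lemma mem_cells_of_minv {M : Λ → TM2.Stmt Γ Λ σ} {k₀ : K} [Fintype (Γ k₀)]
    {m : (TM2.Stmt Γ Λ σ × σ) × (∀ k, List (Γ k))} (h : MInv M k₀ m) (k : K) (i : ℕ) :
    (⟨k, (m.2 k)[i]?⟩ : Σ k, Option (Γ k)) ∈ cells M k₀ := by
  cases hi : (m.2 k)[i]? with
  | none => exact List.mem_append_left _ (by simp)
  | some a =>
    refine List.mem_append_right _ (List.mem_map.2 ⟨⟨k, a⟩, h.2 k a ?_, rfl⟩)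
    exact List.mem_of_getElem? hi

lemma none_mem_cells (M : Λ → TM2.Stmt Γ Λ σ) (k₀ : K) [Fintype (Γ k₀)] (k : K) :
    (⟨k, none⟩ : Σ k, Option (Γ k)) ∈ cells M k₀ := List.mem_append_left _ (by simp)

lemma input_mem_cells (M : Λ → TM2.Stmt Γ Λ σ) (k₀ : K) [Fintype (Γ k₀)] (a : Γ k₀) :
    (⟨k₀, some a⟩ : Σ k, Option (Γ k)) ∈ cells M k₀ :=
  List.mem_append_right _ (List.mem_map.2 ⟨⟨k₀, a⟩, List.mem_append_right _ (by simp), rfl⟩)

lemma pushed_mem_cells {M : Λ → TM2.Stmt Γ Λ σ} {k₀ : K} [Fintype (Γ k₀)] {k : K} {f : σ → Γ k}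
    {q : TM2.Stmt Γ Λ σ} (h : TM2.Stmt.push k f q ∈ stm M) (v : σ) :
    (⟨k, some (f v)⟩ : Σ k, Option (Γ k)) ∈ cells M k₀ :=
  List.mem_append_right _ (List.mem_map.2 ⟨⟨k, f v⟩, List.mem_append_left _
    (List.mem_flatMap.2 ⟨(.push k f q, v), mem_ctls.2 h, by simp [pushed]⟩), rfl⟩)

/-! ### Soundness: satisfying assignments describe the run -/

lemma sound_step (M : Λ → TM2.Stmt Γ Λ σ) (k₀ : K) [Fintype (Γ k₀)] (T : ℕ) (v : ℕ → Bool)
    (H : ∀ cl ∈ stepF M k₀ T, Cl.holds v cl)
    (m : (TM2.Stmt Γ Λ σ × σ) × (∀ k, List (Γ k))) (hm : MInv M k₀ m) (t : ℕ) (ht : t < T)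
    (h1 : v (cv M k₀ m.1 t) = true)
    (h2 : ∀ k, ∀ i < T + 1 - t, v (sv M k₀ ⟨k, (m.2 k)[i]?⟩ t i) = true) :
    v (cv M k₀ (mstep M m).1 (t + 1)) = true ∧
      ∀ k, ∀ i < T + 1 - (t + 1), v (sv M k₀ ⟨k, ((mstep M m).2 k)[i]?⟩ (t + 1) i) = true := by
  have H1 : ∀ y ∈ cells M k₀, ∀ cl ∈ ctlGen M k₀ m.1 y t, Cl.holds v cl := by
    intro y hy cl hcl
    refine H cl (List.mem_append_left _ ?_)
    exact List.mem_flatMap.2 ⟨m.1, mem_ctls.2 hm.1, List.mem_flatMap.2 ⟨y, hy,
      List.mem_flatMap.2 ⟨t, List.mem_range.2 ht, hcl⟩⟩⟩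
  have H2 : ∀ y ∈ cells M k₀, ∀ i < T + 1, ∀ cl ∈ cellGen M k₀ m.1 y t i, Cl.holds v cl := by
    intro y hy i hi cl hcl
    refine H cl (List.mem_append_right _ ?_)
    exact List.mem_flatMap.2 ⟨m.1, mem_ctls.2 hm.1, List.mem_flatMap.2 ⟨y, hy,
      List.mem_flatMap.2 ⟨t, List.mem_range.2 ht, List.mem_flatMap.2 ⟨i, List.mem_range.2 hi, hcl⟩⟩⟩⟩
  have hc := mem_cells_of_minv hm
  obtain ⟨⟨q, s⟩, S⟩ := m
  simp only at h1 h2 hc H1 H2
  have hsame : (∀ y ∈ cells M k₀, ∀ i < T + 1,
      ∀ cl ∈ [cImp2 (cv M k₀ (q, s) t) (sv M k₀ y t i) (sv M k₀ y (t + 1) i)], Cl.holds v cl) →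
      ∀ k, ∀ i < T + 1 - (t + 1), v (sv M k₀ ⟨k, (S k)[i]?⟩ (t + 1) i) = true := by
    intro H' k i hi
    have := H' _ (hc k i) i (by omega) _ (List.mem_singleton.2 rfl)
    rw [holds_cImp2] at this
    exact this h1 (h2 k i (by omega))
  cases q with
  | push k f q =>
    have a1 := H1 _ (none_mem_cells M k₀ k₀)
    simp only [ctlGen, List.mem_cons, List.not_mem_nil, or_false, forall_eq_or_imp, forall_eq,
      holds_cImp] at a1
    refine ⟨a1.1 h1, fun k' i hi => ?_⟩
    simp only [mstep]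
    by_cases hk : k' = k
    · subst hk
      rw [Function.update_self]
      cases i with
      | zero => exact a1.2 h1
      | succ i =>
        have := H2 _ (hc k' i) i (by omega)
        simp only [cellGen, if_true, List.mem_singleton, forall_eq, holds_cImp2] at this
        exact this h1 (h2 k' i (by omega))
    · rw [Function.update_of_ne hk]
      have := H2 _ (hc k' i) i (by omega)
      simp only [cellGen, hk, if_false, List.mem_singleton, forall_eq, holds_cImp2] at this
      exact this h1 (h2 k' i (by omega))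
  | peek k f q =>
    refine ⟨?_, hsame fun y hy i hi cl hcl => H2 y hy i hi cl hcl⟩
    have := H1 _ (hc k 0)
    simp only [ctlGen, dif_pos, List.mem_singleton, forall_eq, holds_cImp2] at this
    have := this h1 (h2 k 0 (by omega))
    simpa [mstep, List.head?_eq_getElem?] using this
  | pop k f q =>
    constructor
    · have := H1 _ (hc k 0)
      simp only [ctlGen, dif_pos, List.mem_singleton, forall_eq, holds_cImp2] at this
      have := this h1 (h2 k 0 (by omega))
      simpa [mstep, List.head?_eq_getElem?] using this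
    · intro k' i hi
      simp only [mstep]
      by_cases hk : k' = k
      · subst hk
        rw [Function.update_self]
        have := H2 _ (hc k' (i + 1)) i (by omega)
        simp only [cellGen, if_true, List.mem_singleton, forall_eq, holds_cImp2] at this
        have := this h1 (h2 k' (i + 1) (by omega))
        rwa [List.getElem?_tail]
      · rw [Function.update_of_ne hk]
        have := H2 _ (hc k' i) i (by omega)
        simp only [cellGen, hk, if_false, List.mem_singleton, forall_eq, holds_cImp2] at this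
        exact this h1 (h2 k' i (by omega))
  | _ =>
    refine ⟨?_, hsame fun y hy i hi cl hcl => H2 y hy i hi cl hcl⟩
    have := H1 _ (none_mem_cells M k₀ k₀)
    simp only [ctlGen, List.mem_singleton, forall_eq, holds_cImp] at this
    exact this h1

lemma sound_run (M : Λ → TM2.Stmt Γ Λ σ) (k₀ : K) [Fintype (Γ k₀)] (T : ℕ) (v : ℕ → Bool)
    (H : ∀ cl ∈ stepF M k₀ T, Cl.holds v cl)
    (m : (TM2.Stmt Γ Λ σ × σ) × (∀ k, List (Γ k))) (hm : MInv M k₀ m)
    (h1 : v (cv M k₀ m.1 0) = true)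
    (h2 : ∀ k, ∀ i < T + 1, v (sv M k₀ ⟨k, (m.2 k)[i]?⟩ 0 i) = true) (t : ℕ) (ht : t ≤ T) :
    MInv M k₀ ((mstep M)^[t] m) ∧ v (cv M k₀ ((mstep M)^[t] m).1 t) = true ∧
      ∀ k, ∀ i < T + 1 - t, v (sv M k₀ ⟨k, (((mstep M)^[t] m).2 k)[i]?⟩ t i) = true := by
  induction t with
  | zero => exact ⟨hm, h1, by simpa using h2⟩
  | succ t ih =>
    obtain ⟨i1, i2, i3⟩ := ih (by omega)
    rw [Function.iterate_succ_apply']
    obtain ⟨j1, j2⟩ := sound_step M k₀ T v H _ i1 t (by omega) i2 i3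
    exact ⟨minv_mstep M k₀ _ i1, j1, j2⟩

/-! ### The input -/

lemma delimit_bits (x : List Bool) : delimit (bitEncode x) = fixedBits x := by
  induction x with
  | nil => rfl
  | cons b x ih =>
    rw [bitEncode_bits_cons]
    simp only [delimit, fixedBits, List.flatMap_cons, List.cons_append, List.nil_append] at ih ⊢
    rw [ih]

lemma length_fixedBits (x : List Bool) : (fixedBits x).length = 6 * x.length + 1 := by
  rw [← delimit_bits, length_delimit, length_bitEncode_bits]; ring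

lemma bits_getElem? (w : List Bool) : ∀ j : ℕ,
    (bitEncode w)[3 * j]? = w[j]?.map (fun _ => true) ∧ (bitEncode w)[3 * j + 1]? = w[j]? ∧
      (bitEncode w)[3 * j + 2]? = w[j]?.map (fun _ => false) := by
  induction w with
  | nil => intro j; simp [bitEncode_bits_nil]
  | cons b w ih =>
    intro j
    rw [bitEncode_bits_cons]
    cases j with
    | zero => simp
    | succ j =>
      have := ih j
      have e : 3 * (j + 1) = 3 * j + 1 + 1 + 1 := by ring
      rw [e]
      simp only [List.getElem?_cons_succ]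
      exact this

lemma extract_witness (P : ℕ) : ∀ (b0 b1 b2 : ℕ → Bool),
    (∀ j < P, b0 j = true ∨ b1 j = true ∨ b2 j = true) →
    (∀ j < P, b2 j = true → b2 (j + 1) = true) →
    ∃ w : List Bool, w.length ≤ P ∧ ∀ j < P, (w[j]? = some false → b0 j = true) ∧
      (w[j]? = some true → b1 j = true) ∧ (w[j]? = none → b2 j = true) := by
  induction P with
  | zero => intro b0 b1 b2 _ _; exact ⟨[], le_rfl, by simp⟩
  | succ P ih =>
    intro b0 b1 b2 h h'
    cases h2 : b2 0 with
    | true =>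
      refine ⟨[], by simp, fun j hj => ⟨by simp, by simp, fun _ => ?_⟩⟩
      induction j with
      | zero => exact h2
      | succ j ihj => exact h' j (by omega) (ihj (by omega) (by simp))
    | false =>
      obtain ⟨w, hw, hw'⟩ := ih (fun j => b0 (j + 1)) (fun j => b1 (j + 1)) (fun j => b2 (j + 1))
        (fun j hj => h (j + 1) (by omega)) (fun j hj => h' (j + 1) (by omega))
      refine ⟨b1 0 :: w, by simpa using hw, fun j hj => ?_⟩
      cases j with
      | zero =>
        have h0 := h 0 (by omega)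
        rw [h2] at h0
        cases h1 : b1 0 with
        | true => simp
        | false =>
          rw [h1] at h0
          simpa using h0
      | succ j => simpa using hw' j (by omega)

/-- Reading the cells of the input from a satisfying assignment. -/
lemma sound_init (M : Λ → TM2.Stmt Γ Λ σ) (k₀ : K) [Fintype (Γ k₀)] (inv : Bool → Γ k₀)
    (c₀ : TM2.Stmt Γ Λ σ × σ) (x : List Bool) (P T : ℕ) (v : ℕ → Bool)
    (H : ∀ cl ∈ initF M k₀ inv c₀ x P T, Cl.holds v cl) :
    v (cv M k₀ c₀ 0) = true ∧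
    (∀ k, k ≠ k₀ → ∀ i < T + 1, v (sv M k₀ ⟨k, none⟩ 0 i) = true) ∧
    ∃ w : List Bool, w.length ≤ P ∧
      ∀ i < T + 1, v (sv M k₀ ⟨k₀, ((bitEncode (x, w)).map inv)[i]?⟩ 0 i) = true := by
  simp only [initF, List.mem_cons, List.mem_append, List.mem_map, List.mem_range,
    List.mem_flatMap, forall_eq_or_imp, holds_cUnit] at H
  obtain ⟨H0, H⟩ := H
  have Hfix : ∀ i < (fixedBits x).length, v (sv M k₀ ⟨k₀, some (inv ((fixedBits x).getD i false))⟩ 0 i) = true := by
    intro i hi
    have := H _ (Or.inl (Or.inl (Or.inl ⟨i, hi, rfl⟩)))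
    rw [holds_cUnit] at this
    cases h : (fixedBits x).getD i false <;> rw [h] at this <;> exact this
  have Hgrp : ∀ j < P, ∀ cl ∈ groupF M k₀ inv (fixedBits x).length j, Cl.holds v cl :=
    fun j hj cl hcl => H _ (Or.inl (Or.inl (Or.inr ⟨j, hj, hcl⟩)))
  have Hblank : ∀ i < T + 1, v (sv M k₀ ⟨k₀, none⟩ 0 ((fixedBits x).length + 3 * P + i)) = true := by
    intro i hi
    have := H _ (Or.inl (Or.inr ⟨i, hi, rfl⟩))
    rwa [holds_cUnit] at this
  have Hother : ∀ k, k ≠ k₀ → ∀ i < T + 1, v (sv M k₀ ⟨k, none⟩ 0 i) = true := by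
    intro k hk i hi
    have := H (cUnit (sv M k₀ ⟨k, none⟩ 0 i)) (Or.inr ⟨k, by simp, by
      rw [if_neg hk]; exact List.mem_map.2 ⟨i, List.mem_range.2 hi, rfl⟩⟩)
    rwa [holds_cUnit] at this
  refine ⟨H0, Hother, ?_⟩
  simp only [groupF, List.mem_cons, List.not_mem_nil, or_false, forall_eq_or_imp, forall_eq,
    holds_cOr, holds_cImp] at Hgrp
  obtain ⟨w, hw, hw'⟩ := extract_witness P (fun j => v (wv M k₀ 0 j)) (fun j => v (wv M k₀ 1 j))
    (fun j => v (wv M k₀ 2 j)) (fun j hj => (Hgrp j hj).1) (fun j hj => (Hgrp j hj).2.1)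
  refine ⟨w, hw, fun i hi => ?_⟩
  rw [bitEncode_pair, delimit_bits]
  generalize hB : (fixedBits x).length = B at *
  rcases Nat.lt_or_ge i B with h | h
  · have h1 := Hfix i h
    have h2 : ((fixedBits x ++ bitEncode w).map inv)[i]? = some (inv ((fixedBits x).getD i false)) := by
      rw [List.getElem?_map, List.getElem?_append_left (by omega), List.getD,
        List.getElem?_eq_getElem (by omega)]
      rfl
    rw [h2]
    exact h1
  · have h2 : ((fixedBits x ++ bitEncode w).map inv)[i]? = ((bitEncode w)[i - B]?).map inv := by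
      rw [List.getElem?_map, List.getElem?_append_right (by omega), hB]
    rw [h2]
    rcases Nat.lt_or_ge (i - B) (3 * P) with h3 | h3
    · obtain ⟨j, r, hr, hjr⟩ : ∃ j r, r < 3 ∧ i - B = 3 * j + r :=
        ⟨(i - B) / 3, (i - B) % 3, Nat.mod_lt _ (by norm_num), (Nat.div_add_mod _ _).symm⟩
      have hj : j < P := by omega
      obtain ⟨g1, g2, g3, g4, g5, g6, g7, g8, g9, g10, g11⟩ := Hgrp j hj
      obtain ⟨w1, w2, w3⟩ := hw' j hj
      obtain ⟨e1, e2, e3⟩ := bits_getElem? w j
      have hi' : i = B + 3 * j + r := by omega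
      rw [hjr, hi']
      cases hwj : w[j]? with
      | none =>
        rw [hwj] at e1 e2 e3
        have hb := w3 hwj
        interval_cases r
        · rw [Nat.add_zero, e1, Nat.add_zero]; exact g9 hb
        · rw [e2]; exact g10 hb
        · rw [e3]; exact g11 hb
      | some b =>
        rw [hwj] at e1 e2 e3
        cases b with
        | true =>
          have hb := w2 hwj
          interval_cases r
          · rw [Nat.add_zero, e1, Nat.add_zero]; exact g6 hb
          · rw [e2]; exact g7 hb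
          · rw [e3]; exact g8 hb
        | false =>
          have hb := w1 hwj
          interval_cases r
          · rw [Nat.add_zero, e1, Nat.add_zero]; exact g3 hb
          · rw [e2]; exact g4 hb
          · rw [e3]; exact g5 hb
    · have h4 : (bitEncode w)[i - B]? = none := by
        rw [List.getElem?_eq_none_iff, length_bitEncode_bits]
        omega
      rw [h4]
      have := Hblank (i - B - 3 * P) (by omega)
      rw [show B + 3 * P + (i - B - 3 * P) = i by omega] at this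
      exact this

/-! ### Completeness: the run gives a satisfying assignment -/

/-- Truth of a name at coordinates, for a run `r` and witness `w`. -/
def truth (r : ℕ → (TM2.Stmt Γ Λ σ × σ) × (∀ k, List (Γ k))) (w : List Bool) (t i : ℕ)
    (y : Idx Γ Λ σ) : Prop :=
  match y with
  | .inl c => (r t).1 = c
  | .inr (.inl y) => ((r t).2 y.1)[i]? = y.2
  | .inr (.inr s) => w[i]? = if s = 0 then some false else if s = 1 then some true else none

open Classical in
/-- The assignment of a run. -/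
def valOf (M : Λ → TM2.Stmt Γ Λ σ) (k₀ : K) [Fintype (Γ k₀)]
    (r : ℕ → (TM2.Stmt Γ Λ σ × σ) × (∀ k, List (Γ k))) (w : List Bool) (n : ℕ) : Bool :=
  decide (∃ y, (idx M k₀)[n.unpair.2.unpair.2]? = some y ∧
    truth r w n.unpair.1 n.unpair.2.unpair.1 y)

lemma valOf_true {M : Λ → TM2.Stmt Γ Λ σ} {k₀ : K} [Fintype (Γ k₀)]
    {r : ℕ → (TM2.Stmt Γ Λ σ × σ) × (∀ k, List (Γ k))} {w : List Bool} {t i : ℕ}
    {y : Idx Γ Λ σ} (hy : y ∈ idx M k₀) (h : truth r w t i y) :
    valOf M k₀ r w (V M k₀ y t i) = true := by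
  classical
  simp only [valOf, V, Nat.unpair_pair, decide_eq_true_eq]
  exact ⟨y, code_mem M k₀ hy, h⟩

lemma truth_of_valOf {M : Λ → TM2.Stmt Γ Λ σ} {k₀ : K} [Fintype (Γ k₀)]
    {r : ℕ → (TM2.Stmt Γ Λ σ × σ) × (∀ k, List (Γ k))} {w : List Bool} {t i : ℕ}
    {y : Idx Γ Λ σ} (h : valOf M k₀ r w (V M k₀ y t i) = true) : truth r w t i y := by
  classical
  simp only [valOf, V, Nat.unpair_pair, decide_eq_true_eq] at h
  obtain ⟨y', h1, h2⟩ := h
  by_cases hy : y ∈ idx M k₀
  · rw [code_mem M k₀ hy] at h1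
    cases h1
    exact h2
  · rw [code_not_mem M k₀ hy] at h1
    exact absurd h1 (by simp)

lemma ctl_mem_idx {M : Λ → TM2.Stmt Γ Λ σ} {k₀ : K} [Fintype (Γ k₀)] {c : TM2.Stmt Γ Λ σ × σ}
    (h : c.1 ∈ stm M) : (Sum.inl c : Idx Γ Λ σ) ∈ idx M k₀ :=
  List.mem_append_left _ (List.mem_append_left _ (List.mem_map.2 ⟨c, mem_ctls.2 h, rfl⟩))

lemma cell_mem_idx {M : Λ → TM2.Stmt Γ Λ σ} {k₀ : K} [Fintype (Γ k₀)]
    {y : Σ k, Option (Γ k)} (h : y ∈ cells M k₀) :
    (Sum.inr (Sum.inl y) : Idx Γ Λ σ) ∈ idx M k₀ :=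
  List.mem_append_left _ (List.mem_append_right _ (List.mem_map.2 ⟨y, h, rfl⟩))

lemma wit_mem_idx {M : Λ → TM2.Stmt Γ Λ σ} {k₀ : K} [Fintype (Γ k₀)] (s : Fin 3) :
    (Sum.inr (Sum.inr s) : Idx Γ Λ σ) ∈ idx M k₀ := by
  refine List.mem_append_right _ ?_
  fin_cases s <;> simp

lemma complete_step (M : Λ → TM2.Stmt Γ Λ σ) (k₀ : K) [Fintype (Γ k₀)] (T : ℕ) (w : List Bool)
    (r : ℕ → (TM2.Stmt Γ Λ σ × σ) × (∀ k, List (Γ k))) (hr : ∀ t, r (t + 1) = mstep M (r t)) :
    ∀ cl ∈ stepF M k₀ T, Cl.holds (valOf M k₀ r w) cl := by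
  intro cl hcl
  simp only [stepF, List.mem_append, List.mem_flatMap, List.mem_range] at hcl
  rcases hcl with ⟨c, hc, y, hy, t, ht, hcl⟩ | ⟨c, hc, y, hy, t, ht, i, hi, hcl⟩
  · have hc' := mem_ctls.1 hc
    have hnext : ∀ S : ∀ k, List (Γ k), (mstep M (c, S)).1.1 ∈ stm M :=
      fun S => mstep_stm M (c, S) hc'
    have key : ∀ c', ((r t).1 = c → (mstep M (r t)).1 = c') → c'.1 ∈ stm M →
        Cl.holds (valOf M k₀ r w) (cImp (cv M k₀ c t) (cv M k₀ c' (t + 1))) := by
      intro c' h1 h2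
      rw [holds_cImp]
      intro h3
      refine valOf_true (ctl_mem_idx h2) ?_
      change (r (t + 1)).1 = c'
      rw [hr]
      exact h1 (truth_of_valOf h3)
    have key2 : ∀ c', ((r t).1 = c → ((r t).2 y.1)[0]? = y.2 → (mstep M (r t)).1 = c') →
        c'.1 ∈ stm M →
        Cl.holds (valOf M k₀ r w) (cImp2 (cv M k₀ c t) (sv M k₀ y t 0) (cv M k₀ c' (t + 1))) := by
      intro c' h1 h2
      rw [holds_cImp2]
      intro h3 h4
      refine valOf_true (ctl_mem_idx h2) ?_
      change (r (t + 1)).1 = c'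
      rw [hr]
      exact h1 (truth_of_valOf h3) (truth_of_valOf h4)
    generalize hm : r t = m at key key2
    obtain ⟨⟨q', s'⟩, S⟩ := m
    obtain ⟨q, s⟩ := c
    simp only at hc' hnext
    cases q with
    | push k f q =>
      simp only [ctlGen, List.mem_cons, List.not_mem_nil, or_false] at hcl
      rcases hcl with rfl | rfl
      · refine key _ (fun h => ?_) (hnext S)
        simp only at h
        rw [h]
        rfl
      · rw [holds_cImp]
        intro h3
        refine valOf_true (cell_mem_idx (pushed_mem_cells hc' s)) ?_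
        have h4 : (r t).1 = _ := truth_of_valOf h3
        change ((r (t + 1)).2 k)[0]? = some (f s)
        rw [hr, hm]
        rw [hm] at h4
        simp only at h4
        rw [h4]
        simp [mstep]
    | peek k f q =>
      simp only [ctlGen] at hcl
      split_ifs at hcl with h
      · obtain ⟨k', a⟩ := y
        simp only at h
        subst h
        simp only [List.mem_singleton] at hcl
        subst hcl
        refine key2 _ (fun h1 h2 => ?_) (sub_mem_stm hc' (by simp [TM2.stmts₁, TM2.stmts₁_self]))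
        simp only at h1 h2
        rw [h1]
        simp [mstep, List.head?_eq_getElem?, h2]
      · simp at hcl
    | pop k f q =>
      simp only [ctlGen] at hcl
      split_ifs at hcl with h
      · obtain ⟨k', a⟩ := y
        simp only at h
        subst h
        simp only [List.mem_singleton] at hcl
        subst hcl
        refine key2 _ (fun h1 h2 => ?_) (sub_mem_stm hc' (by simp [TM2.stmts₁, TM2.stmts₁_self]))
        simp only at h1 h2
        rw [h1]
        simp [mstep, List.head?_eq_getElem?, h2]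
      · simp at hcl
    | _ =>
      simp only [ctlGen, List.mem_singleton] at hcl
      subst hcl
      refine key _ (fun h => ?_) (hnext S)
      simp only at h
      rw [h]
      rfl
  · have hc' := mem_ctls.1 hc
    have key : ∀ i', ((r t).1 = c → ((r t).2 y.1)[i]? = y.2 → ((mstep M (r t)).2 y.1)[i']? = y.2) →
        Cl.holds (valOf M k₀ r w) (cImp2 (cv M k₀ c t) (sv M k₀ y t i) (sv M k₀ y (t + 1) i')) := by
      intro i' h1
      rw [holds_cImp2]
      intro h3 h4
      refine valOf_true (cell_mem_idx hy) ?_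
      change ((r (t + 1)).2 y.1)[i']? = y.2
      rw [hr]
      exact h1 (truth_of_valOf h3) (truth_of_valOf h4)
    have key' : ((r t).1 = c → ((r t).2 y.1)[i + 1]? = y.2 → ((mstep M (r t)).2 y.1)[i]? = y.2) →
        Cl.holds (valOf M k₀ r w)
          (cImp2 (cv M k₀ c t) (sv M k₀ y t (i + 1)) (sv M k₀ y (t + 1) i)) := by
      intro h1
      rw [holds_cImp2]
      intro h3 h4
      refine valOf_true (cell_mem_idx hy) ?_
      change ((r (t + 1)).2 y.1)[i]? = y.2
      rw [hr]
      exact h1 (truth_of_valOf h3) (truth_of_valOf h4)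
    generalize hm : r t = m at key key'
    obtain ⟨⟨q', s'⟩, S⟩ := m
    obtain ⟨q, s⟩ := c
    simp only at hc'
    cases q with
    | push k f q =>
      simp only [cellGen] at hcl
      split_ifs at hcl with h
      · simp only [List.mem_singleton] at hcl
        subst hcl
        refine key _ fun h1 h2 => ?_
        simp only at h1 h2
        rw [h1]
        subst h
        simp [mstep, h2]
      · simp only [List.mem_singleton] at hcl
        subst hcl
        refine key _ fun h1 h2 => ?_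
        simp only at h1 h2
        rw [h1]
        simp [mstep, h2, Function.update_of_ne h]
    | pop k f q =>
      simp only [cellGen] at hcl
      split_ifs at hcl with h
      · simp only [List.mem_singleton] at hcl
        subst hcl
        refine key' fun h1 h2 => ?_
        simp only at h1 h2
        rw [h1]
        subst h
        simp [mstep, h2, List.getElem?_tail]
      · simp only [List.mem_singleton] at hcl
        subst hcl
        refine key _ fun h1 h2 => ?_
        simp only at h1 h2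
        rw [h1]
        simp [mstep, h2, Function.update_of_ne h]
    | _ =>
      simp only [cellGen, List.mem_singleton] at hcl
      subst hcl
      refine key _ fun h1 h2 => ?_
      simp only at h1 h2
      rw [h1]
      simpa [mstep] using h2

lemma complete_init (M : Λ → TM2.Stmt Γ Λ σ) (k₀ : K) [Fintype (Γ k₀)] (inv : Bool → Γ k₀)
    (c₀ : TM2.Stmt Γ Λ σ × σ) (hc₀ : c₀.1 ∈ stm M) (x : List Bool) (P T : ℕ) (w : List Bool)
    (hw : w.length ≤ P) (r : ℕ → (TM2.Stmt Γ Λ σ × σ) × (∀ k, List (Γ k)))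
    (h0 : (r 0).1 = c₀) (h1 : (r 0).2 k₀ = (bitEncode (x, w)).map inv)
    (h2 : ∀ k, k ≠ k₀ → (r 0).2 k = []) :
    ∀ cl ∈ initF M k₀ inv c₀ x P T, Cl.holds (valOf M k₀ r w) cl := by
  have hcell : ∀ (a : Option (Γ k₀)) (i : ℕ), (⟨k₀, a⟩ : Σ k, Option (Γ k)) ∈ cells M k₀ →
      ((fixedBits x ++ bitEncode w)[i]?).map inv = a →
      valOf M k₀ r w (sv M k₀ ⟨k₀, a⟩ 0 i) = true := by
    intro a i ha hi
    refine valOf_true (cell_mem_idx ha) ?_
    change ((r 0).2 k₀)[i]? = a
    rw [h1, List.getElem?_map, bitEncode_pair, delimit_bits, hi]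
  have hR : ∀ i, (fixedBits x ++ bitEncode w)[(fixedBits x).length + i]? = (bitEncode w)[i]? := by
    intro i
    rw [List.getElem?_append_right (by omega)]
    congr 1
    omega
  intro cl hcl
  simp only [initF, List.mem_cons, List.mem_append, List.mem_map, List.mem_range,
    List.mem_flatMap] at hcl
  rcases hcl with rfl | ((⟨i, hi, rfl⟩ | ⟨j, hj, hcl⟩) | ⟨i, hi, rfl⟩) | ⟨k, -, hcl⟩
  · rw [holds_cUnit]
    exact valOf_true (ctl_mem_idx hc₀) h0
  · rw [holds_cUnit]
    have e : (fixedBits x ++ bitEncode w)[i]? = some ((fixedBits x).getD i false) := by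
      rw [List.getElem?_append_left hi, List.getD, List.getElem?_eq_getElem hi]
      rfl
    cases hb : (fixedBits x).getD i false with
    | true =>
      rw [cond_true]
      refine hcell _ _ (input_mem_cells M k₀ _) ?_
      rw [e, hb]
      rfl
    | false =>
      rw [cond_false]
      refine hcell _ _ (input_mem_cells M k₀ _) ?_
      rw [e, hb]
      rfl
  · obtain ⟨e1, e2, e3⟩ := bits_getElem? w j
    have k0 : valOf M k₀ r w (wv M k₀ 0 j) = true → w[j]? = some false := fun h => by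
      have : truth r w 0 j (Sum.inr (Sum.inr 0)) := truth_of_valOf h
      simpa [truth] using this
    have k1 : valOf M k₀ r w (wv M k₀ 1 j) = true → w[j]? = some true := fun h => by
      have : truth r w 0 j (Sum.inr (Sum.inr 1)) := truth_of_valOf h
      simpa [truth] using this
    have k2 : valOf M k₀ r w (wv M k₀ 2 j) = true → w[j]? = none := fun h => by
      have : truth r w 0 j (Sum.inr (Sum.inr 2)) := truth_of_valOf h
      simpa [truth] using this
    have A0 : (fixedBits x ++ bitEncode w)[(fixedBits x).length + 3 * j]? =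
      w[j]?.map (fun _ => true) := by rw [hR, e1]
    have A1 : (fixedBits x ++ bitEncode w)[(fixedBits x).length + 3 * j + 1]? = w[j]? := by
      rw [Nat.add_assoc, hR, e2]
    have A2 : (fixedBits x ++ bitEncode w)[(fixedBits x).length + 3 * j + 2]? =
      w[j]?.map (fun _ => false) := by rw [Nat.add_assoc, hR, e3]
    have I := input_mem_cells M k₀
    have I0 := none_mem_cells M k₀ k₀
    simp only [groupF, List.mem_cons, List.not_mem_nil, or_false] at hcl
    rcases hcl with rfl | rfl | rfl | rfl | rfl | rfl | rfl | rfl | rfl | rfl | rfl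
    · rw [holds_cOr]
      cases hj' : w[j]? with
      | none => exact Or.inr (Or.inr (valOf_true (wit_mem_idx 2) (by simp [truth]; simpa using hj')))
      | some b =>
        cases b with
        | true => exact Or.inr (Or.inl (valOf_true (wit_mem_idx 1) (by simp [truth, hj'])))
        | false => exact Or.inl (valOf_true (wit_mem_idx 0) (by simp [truth, hj']))
    · rw [holds_cImp]
      intro h
      have := k2 h
      refine valOf_true (wit_mem_idx 2) ?_
      simp [truth] at this ⊢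
      omega
    · rw [holds_cImp]
      intro h
      exact hcell _ _ (I _) (by rw [A0, k0 h]; rfl)
    · rw [holds_cImp]
      intro h
      exact hcell _ _ (I _) (by rw [A1, k0 h]; rfl)
    · rw [holds_cImp]
      intro h
      exact hcell _ _ (I _) (by rw [A2, k0 h]; rfl)
    · rw [holds_cImp]
      intro h
      exact hcell _ _ (I _) (by rw [A0, k1 h]; rfl)
    · rw [holds_cImp]
      intro h
      exact hcell _ _ (I _) (by rw [A1, k1 h]; rfl)
    · rw [holds_cImp]
      intro h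
      exact hcell _ _ (I _) (by rw [A2, k1 h]; rfl)
    · rw [holds_cImp]
      intro h
      exact hcell _ _ I0 (by rw [A0, k2 h]; rfl)
    · rw [holds_cImp]
      intro h
      exact hcell _ _ I0 (by rw [A1, k2 h]; rfl)
    · rw [holds_cImp]
      intro h
      exact hcell _ _ I0 (by rw [A2, k2 h]; rfl)
  · rw [holds_cUnit]
    refine hcell _ _ (none_mem_cells M k₀ k₀) ?_
    have : (fixedBits x ++ bitEncode w)[(fixedBits x).length + 3 * P + i]? = none := by
      rw [List.getElem?_eq_none_iff, List.length_append, length_bitEncode_bits]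
      omega
    rw [this]
    rfl
  · split_ifs at hcl with hk
    · simp at hcl
    · obtain ⟨i, hi, rfl⟩ := List.mem_map.1 hcl
      rw [holds_cUnit]
      refine valOf_true (cell_mem_idx (none_mem_cells M k₀ k)) ?_
      change ((r 0).2 k)[i]? = none
      rw [h2 k hk]
      rfl

/-- Correctness of the Cook-Levin formula. -/
theorem sat_clFormula (M : Λ → TM2.Stmt Γ Λ σ) (k₀ k₁ : K) [Fintype (Γ k₀)] (inv : Bool → Γ k₀)
    (outF : Γ k₁) (l₀ : Λ) (s₀ : σ) (x : List Bool) (P T : ℕ)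
    (st : List Bool → ∀ k, List (Γ k)) (hst : ∀ z, st z k₀ = z.map inv)
    (hst' : ∀ z k, k ≠ k₀ → st z k = []) :
    Sat (clFormula M k₀ k₁ inv outF (M l₀, s₀) x P T) ↔
      ∃ w : List Bool, w.length ≤ P ∧
        (((mstep M)^[T] ((M l₀, s₀), st (bitEncode (x, w)))).2 k₁)[0]? ≠ some outF := by
  constructor
  · rintro ⟨v, hv⟩
    simp only [clFormula, List.mem_cons, List.mem_append, forall_eq_or_imp] at hv
    obtain ⟨hv1, hv2⟩ := hv
    obtain ⟨a1, a2, w, hw, a3⟩ := sound_init M k₀ inv (M l₀, s₀) x P T v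
      (fun cl hcl => hv2 cl (Or.inl hcl))
    refine ⟨w, hw, ?_⟩
    have hinv : MInv M k₀ ((M l₀, s₀), st (bitEncode (x, w))) := by
      refine ⟨label_mem_stm M l₀, fun k a ha => ?_⟩
      by_cases hk : k = k₀
      · subst hk
        exact List.mem_append_right _ (by simp)
      · simp only [hst' _ k hk] at ha
        simp at ha
    obtain ⟨-, -, h3⟩ := sound_run M k₀ T v (fun cl hcl => hv2 cl (Or.inr hcl)) _ hinv a1
      (fun k i hi => by
        by_cases hk : k = k₀
        · subst hk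
          simp only [hst]
          exact a3 i hi
        · simp only [hst' _ k hk]
          exact a2 k hk i hi) T le_rfl
    intro h
    have h4 := h3 k₁ 0 (by omega)
    rw [h] at h4
    rw [holds_cNot] at hv1
    rw [hv1] at h4
    exact absurd h4 (by simp)
  · rintro ⟨w, hw, h⟩
    let r : ℕ → (TM2.Stmt Γ Λ σ × σ) × (∀ k, List (Γ k)) := fun t =>
      (mstep M)^[t] ((M l₀, s₀), st (bitEncode (x, w)))
    have hr : ∀ t, r (t + 1) = mstep M (r t) := fun t => Function.iterate_succ_apply' _ _ _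
    refine ⟨valOf M k₀ r w, fun cl hcl => ?_⟩
    simp only [clFormula, List.mem_cons, List.mem_append] at hcl
    rcases hcl with rfl | hcl | hcl
    · rw [holds_cNot]
      by_contra hne
      have h5 : valOf M k₀ r w (sv M k₀ ⟨k₁, some outF⟩ T 0) = true := by
        cases h6 : valOf M k₀ r w (sv M k₀ ⟨k₁, some outF⟩ T 0) with
        | true => rfl
        | false => exact absurd h6 hne
      exact h (truth_of_valOf h5)
    · exact complete_init M k₀ inv _ (label_mem_stm M l₀) x P T w hw r rfl (hst _)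
        (fun k hk => hst' _ k hk) cl hcl
    · exact complete_step M k₀ T w r hr cl hcl

end formula

/-- **Cook-Levin.** Every language in `NP` reduces to satisfiability of 3-CNF formulas by a
polynomial time function. -/
theorem cook_levin {L : DecisionProblem} (hL : L ∈ NP) :
    ∃ f : List Bool → List Cl, PTime f ∧ ∀ x, L x = true ↔ Sat (f x) := by
  obtain ⟨p, R, ⟨cm⟩, hR⟩ := hL
  letI := cm.tm.kDecidableEq
  letI := cm.tm.kFin
  letI := cm.tm.ΛFin
  letI := cm.tm.σFin
  letI := cm.tm.Γk₀Fin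
  let inv : Bool → cm.tm.Γ cm.tm.k₀ := cm.inputAlphabet.invFun
  let outI : Bool → cm.tm.Γ cm.tm.k₁ := cm.outputAlphabet.invFun
  let C : ℕ := Finset.univ.sup fun l => depth (cm.tm.m l)
  have hC : ∀ l, depth (cm.tm.m l) ≤ C := fun l =>
    Finset.le_sup (f := fun l => depth (cm.tm.m l)) (Finset.mem_univ l)
  let τ : ℕ[X] := cm.time.comp (6 * X + 1 + 3 * p) * Polynomial.C C
  refine ⟨fun x => clFormula cm.tm.m cm.tm.k₀ cm.tm.k₁ inv (outI false)
    (cm.tm.m cm.tm.main, cm.tm.initialState) x (p.eval x.length) (τ.eval x.length),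
    ptime_clFormula _ _ _ _ _ _ _ _, fun x => ?_⟩
  have hst : ∀ s : List (cm.tm.Γ cm.tm.k₀), (initList cm.tm s).stk cm.tm.k₀ = s := by
    intro s
    simp [initList]
  have hst' : ∀ (s : List (cm.tm.Γ cm.tm.k₀)) (k : cm.tm.K), k ≠ cm.tm.k₀ →
      (initList cm.tm s).stk k = [] := by
    intro s k hk
    simp [initList, hk]
  have hend : ∀ s : List (cm.tm.Γ cm.tm.k₁), (haltList cm.tm s).stk cm.tm.k₁ = s := by
    intro s
    simp [haltList]
  rw [sat_clFormula cm.tm.m cm.tm.k₀ cm.tm.k₁ inv (outI false) cm.tm.main cm.tm.initialState x _ _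
    (fun z => (initList cm.tm (z.map inv)).stk) (fun z => hst _) (fun z k hk => hst' _ k hk), hR]
  refine exists_congr fun w => and_congr_right fun hw => ?_
  have hout := cm.outputsFun (x, w)
  have hlen : (bitEncode (x, w)).length ≤ 6 * x.length + 1 + 3 * p.eval x.length := by
    rw [bitEncode_pair, List.length_append, length_delimit, length_bitEncode_bits,
      length_bitEncode_bits]
    omega
  have hsteps : hout.steps * C ≤ τ.eval x.length := by
    have h1 := hout.steps_le_m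
    have h2 := eval_mono cm.time hlen
    have h3 : τ.eval x.length = cm.time.eval (6 * x.length + 1 + 3 * p.eval x.length) * C := by
      simp [τ]
    rw [h3]
    exact Nat.mul_le_mul_right _ (h1.trans h2)
  have hrun := mstep_of_evals_halt cm.tm.m C hC hout.steps
    (initList cm.tm ((bitEncode (x, w)).map inv))
    (haltList cm.tm ((bitEncode (R (x, w))).map outI)) hout.evals_in_steps rfl _ hsteps
  have hrun' : (mstep cm.tm.m)^[τ.eval x.length]
      ((cm.tm.m cm.tm.main, cm.tm.initialState),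
        (initList cm.tm ((bitEncode (x, w)).map inv)).stk) =
      toM cm.tm.m (haltList cm.tm ((bitEncode (R (x, w))).map outI)) := hrun
  rw [hrun']
  change R (x, w) = true ↔
    ((haltList cm.tm ((bitEncode (R (x, w))).map outI)).stk cm.tm.k₁)[0]? ≠ some (outI false)
  rw [hend, bitEncode_bool]
  cases hRx : R (x, w) with
  | true =>
    simp only [true_iff, List.map_cons, List.map_nil, List.getElem?_cons_zero, ne_eq,
      Option.some.injEq]
    intro h
    exact absurd (cm.outputAlphabet.symm.injective h) (by simp)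
  | false => simp

/-- NP-hardness from a polynomial time reduction from 3-SAT. -/
theorem hard_of_sat {B : DecisionProblem} {g : List Cl → List Bool} (hg : PTime g)
    (h : ∀ φ, Sat φ ↔ B (g φ) = true) : ∀ L ∈ NP, ManyOneReducible L B := by
  intro L hL
  obtain ⟨f, hf, hf'⟩ := cook_levin hL
  refine manyOne_of_ptime (f := fun x => g (f x)) (hg.comp hf) fun x => ?_
  rw [Bool.eq_iff_iff, hf' x, h]

/-- NP-completeness from a `PTime` verifier and a polynomial time reduction from 3-SAT. -/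
theorem complete_of_sat {B : DecisionProblem} {V : List Bool → List Bool → Bool}
    (hV : PTime fun p : List Bool × List Bool => V p.1 p.2) (p : ℕ[X])
    (hB : ∀ x, B x = true ↔ ∃ w : List Bool, w.length ≤ p.eval x.length ∧ V x w = true)
    {g : List Cl → List Bool} (hg : PTime g) (h : ∀ φ, Sat φ ↔ B (g φ) = true) :
    IsCompleteFor NP B :=
  ⟨mem_NP hV p hB, hard_of_sat hg h⟩

end

end TMLib
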