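import Pool.Agent.TM.Cert
import Pool.Agent.TM.CookLevin

/-!
# Closure properties of `NP`, obtained from Cook-Levin
-/

namespace TMLib

open Polynomial N68a2faeb N793a5b8e

/-- The assignment whose true variables are the elements of `tr` satisfies `φ`. -/
def satBy (φ : List Cl) (tr : List ℕ) : Prop := ∀ c ∈ φ,
  decide (c.1.1 ∈ tr) = c.1.2 ∨ decide (c.2.1.1 ∈ tr) = c.2.1.2 ∨ decide (c.2.2.1 ∈ tr) = c.2.2.2

instance (φ : List Cl) (tr : List ℕ) : Decidable (satBy φ tr) := by unfold satBy; infer_instance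

@[fun_prop] lemma ptime_satBy {α : Type} [Enc α] {φ : α → List Cl} {tr : α → List ℕ}
    (h1 : PTime φ) (h2 : PTime tr) : PTime (fun x => decide (satBy (φ x) (tr x))) := by
  unfold satBy; fun_prop

/-- The variables of a formula. -/
def vars (φ : List Cl) : List ℕ := φ.flatMap fun c => [c.1.1, c.2.1.1, c.2.2.1]

@[fun_prop] lemma ptime_vars {α : Type} [Enc α] {φ : α → List Cl}
    (h1 : PTime φ) : PTime (fun x => vars (φ x)) := by
  unfold vars; fun_prop

lemma sat_of_satBy {φ : List Cl} {tr : List ℕ} (h : satBy φ tr) : Sat φ :=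
  ⟨fun a => decide (a ∈ tr), h⟩

lemma sz_filter_le' {α : Type} [Enc α] (q : α → Bool) (l : List α) : sz (l.filter q) ≤ sz l := by
  induction l with
  | nil => simp
  | cons a l ih =>
    by_cases h : q a = true
    · rw [List.filter_cons_of_pos h]; simp; omega
    · rw [List.filter_cons_of_neg h]; simp; omega

lemma exists_satBy {φ : List Cl} (h : Sat φ) : ∃ tr, sz tr ≤ sz (vars φ) ∧ satBy φ tr := by
  obtain ⟨v, hv⟩ := h
  refine ⟨(vars φ).filter v, sz_filter_le' _ _, fun c hc => ?_⟩
  have hmem : ∀ a ∈ [c.1.1, c.2.1.1, c.2.2.1], a ∈ vars φ := fun a ha =>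
    List.mem_flatMap.2 ⟨c, hc, ha⟩
  have key : ∀ a ∈ [c.1.1, c.2.1.1, c.2.2.1], decide (a ∈ (vars φ).filter v) = v a := by
    intro a ha
    rw [Bool.eq_iff_iff, decide_eq_true_eq, List.mem_filter]
    exact ⟨fun h => h.2, fun h => ⟨hmem a ha, h⟩⟩
  rw [key _ (by simp), key _ (by simp), key _ (by simp)]
  exact hv c hc

/-- Certificates checked in polynomial time, together with an `NP` condition. -/
theorem mem_NP_cert_and {β : Type} [Enc β] [Fix β] {L A : DecisionProblem} (hA : A ∈ NP)
    {V : List Bool → β → Bool} (hV : PTime fun p : List Bool × β => V p.1 p.2)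
    {g : β → List Bool} (hg : PTime g) (p : ℕ[X])
    (hsound : ∀ x b, V x b = true → A (g b) = true → L x = true)
    (hcomplete : ∀ x, L x = true → ∃ b : β, sz b ≤ p.eval x.length ∧ V x b = true ∧
      A (g b) = true) : L ∈ NP := by
  obtain ⟨f, hf, hf'⟩ := cook_levin hA
  have hfg : PTime (fun b => vars (f (g b))) := ptime_vars (hf.comp hg)
  obtain ⟨B, hB⟩ := hfg.exists_size_le
  refine mem_NP_cert (β := β × List ℕ)
    (V := fun x b => V x b.1 && decide (satBy (f (g b.1)) b.2)) ?_ (1 + p + B.comp p) ?_ ?_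
  · refine PTime.and ?_ ?_
    · exact hV.comp (f := fun q : List Bool × β × List ℕ => (q.1, q.2.1)) (by fun_prop)
    · refine ptime_satBy ?_ (by fun_prop)
      exact (hf.comp hg).comp (f := fun q : List Bool × β × List ℕ => q.2.1) (by fun_prop)
  · intro x b hb
    simp only [Bool.and_eq_true, decide_eq_true_eq] at hb
    exact hsound x b.1 hb.1 ((hf' _).2 (sat_of_satBy hb.2))
  · intro x hx
    obtain ⟨b, h1, h2, h3⟩ := hcomplete x hx
    obtain ⟨tr, h4, h5⟩ := exists_satBy ((hf' _).1 h3)
    refine ⟨(b, tr), ?_, ?_⟩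
    · have h6 := hB b
      have h7 := eval_mono B h1
      simp only [sz_pair, eval_add, eval_one, eval_comp]
      omega
    · simp only [Bool.and_eq_true, decide_eq_true_eq]
      exact ⟨h2, h5⟩

/-- Languages reducible in polynomial time to satisfiability are in `NP`. -/
theorem mem_NP_of_sat {L : DecisionProblem} {f : List Bool → List Cl} (hf : PTime f)
    (h : ∀ x, L x = true ↔ Sat (f x)) : L ∈ NP := by
  have hfv : PTime (fun x => vars (f x)) := ptime_vars hf
  obtain ⟨B, hB⟩ := hfv.exists_size_le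
  have hsz : ∀ x : List Bool, sz x ≤ 1 + x.length * 4 := fun x =>
    sz_list_le x _ 3 le_rfl fun b _ => sz_bool_le b
  refine mem_NP_cert (β := List ℕ) (V := fun x tr => decide (satBy (f x) tr)) ?_
    (B.comp (1 + X * C 4)) ?_ ?_
  · refine ptime_satBy ?_ (by fun_prop)
    exact hf.comp (f := fun q : List Bool × List ℕ => q.1) (by fun_prop)
  · intro x tr htr
    exact (h x).2 (sat_of_satBy (by simpa using htr))
  · intro x hx
    obtain ⟨tr, h4, h5⟩ := exists_satBy ((h x).1 hx)
    refine ⟨tr, ?_, by simpa using h5⟩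
    have h6 := (hB x).trans (eval_mono B (hsz x))
    simp only [eval_comp, eval_add, eval_one, eval_mul, eval_X, eval_C]
    omega

/-- `NP` is closed under polynomial time many-one reductions. -/
theorem mem_NP_comp {L A : DecisionProblem} (hA : A ∈ NP) {g : List Bool → List Bool}
    (hg : PTime g) (h : ∀ x, L x = A (g x)) : L ∈ NP := by
  obtain ⟨f, hf, hf'⟩ := cook_levin hA
  exact mem_NP_of_sat (hf.comp hg) fun x => by rw [h x, hf']

lemma Run.det {p : Prog} {s s₁ : St} {t₁ : ℕ} (h : Run p s s₁ t₁) :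
    ∀ {s₂ : St} {t₂ : ℕ}, Run p s s₂ t₂ → s₁ = s₂ := by
  induction h with
  | skip => intro s₂ t₂ h; cases h; rfl
  | push => intro s₂ t₂ h; cases h; rfl
  | pop => intro s₂ t₂ h; cases h; rfl
  | seq _ _ ih1 ih2 =>
    intro s₂ t₂ h
    cases h with
    | seq h1 h2 =>
      have := ih1 h1
      subst this
      exact ih2 h2
  | iteT hf _ ih =>
    intro s₂ t₂ h
    cases h with
    | iteT _ h1 => exact ih h1
    | iteF hf' _ => rw [hf] at hf'; exact absurd hf' (by simp)
  | iteF hf _ ih =>
    intro s₂ t₂ h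
    cases h with
    | iteT hf' _ => rw [hf] at hf'; exact absurd hf' (by simp)
    | iteF _ h1 => exact ih h1
  | loopF hf =>
    intro s₂ t₂ h
    cases h with
    | loopF _ => rfl
    | loopT hf' _ _ => rw [hf] at hf'; exact absurd hf' (by simp)
  | loopT hf _ _ ih1 ih2 =>
    intro s₂ t₂ h
    cases h with
    | loopF hf' => rw [hf] at hf'; exact absurd hf' (by simp)
    | loopT _ h1 h2 =>
      have := ih1 h1
      subst this
      exact ih2 h2

deriving instance Countable for Stk
deriving instance Countable for Prog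

/-- The program of a `PTime` function determines the function. -/
lemma eq_of_prog {α β : Type} [Enc α] [Enc β] [EncInj β] {f g : α → β} {p : Prog} {T U : ℕ[X]}
    (hf : ∀ a r, Runs p (ms ((enc a).code ++ r)) (ms ((enc (f a)).code ++ r)) (T.eval (sz a)))
    (hg : ∀ a r, Runs p (ms ((enc a).code ++ r)) (ms ((enc (g a)).code ++ r)) (U.eval (sz a))) :
    f = g := by
  funext a
  obtain ⟨t, -, h1⟩ := hf a []
  obtain ⟨u, -, h2⟩ := hg a []
  have h3 := h1.det h2
  simp only [ms, List.append_nil, St.mk.injEq, and_true] at h3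
  have h4 := congrArg parse h3
  rw [parse_code, parse_code] at h4
  exact enc_inj.1 h4

/-- **`NP` is countable.** -/
theorem countable_NP : (NP : Set DecisionProblem).Countable := by
  classical
  have h : ∀ L : (NP : Set DecisionProblem), ∃ (p : Prog) (f : List Bool → List Cl) (T : ℕ[X]),
      (∀ a r, Runs p (ms ((enc a).code ++ r)) (ms ((enc (f a)).code ++ r)) (T.eval (sz a))) ∧
        ∀ x, L.1 x = true ↔ Sat (f x) := by
    intro L
    obtain ⟨f, ⟨p, T, h1⟩, h2⟩ := cook_levin L.2
    exact ⟨p, f, T, h1, h2⟩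
  choose P F T h1 h2 using h
  refine Set.countable_coe_iff.1 (Function.Injective.countable (f := P) ?_)
  intro L L' hLL
  have hF : F L = F L' := eq_of_prog (h1 L) (by rw [hLL]; exact h1 L')
  refine Subtype.ext (funext fun x => ?_)
  rw [Bool.eq_iff_iff, h2 L, h2 L', hF]

end TMLib
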