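import Pool.Agent.TM.CookLevin
import Pool.Agent.TM.Closure
import Pool.Agent.TM.BitEnc

/-!
# Simulation of Mathlib's `TM2` machines: polynomial time functions are in `PTime`
-/

namespace TMLib

open Turing Polynomial N68a2faeb N793a5b8e N487b59b3

noncomputable section

lemma getElem?_idxOf_of_mem {α : Type} [BEq α] [LawfulBEq α] {l : List α} {a : α} (h : a ∈ l) :
    l[l.idxOf a]? = some a := by
  rw [List.getElem?_eq_getElem (List.idxOf_lt_length_of_mem h)]
  simp

/-- Read a symbol of stack `k`. -/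
def rdSym {K : Type} [DecidableEq K] {Γ : K → Type} (k : K) (F : Γ k → Bool) (s : Σ k, Γ k) :
    Bool := if h : s.1 = k then F (h ▸ s.2) else false

@[simp] lemma rdSym_self {K : Type} [DecidableEq K] {Γ : K → Type} (k : K) (F : Γ k → Bool)
    (a : Γ k) : rdSym k F ⟨k, a⟩ = F a := by simp [rdSym]

lemma map_set_idxOf {α β : Type} [DecidableEq α] (l : List α) (hl : l.Nodup) (g : α → β) (a : α)
    (x : β) (h : a ∈ l) :
    (l.map g).take (l.idxOf a) ++ x :: (l.map g).drop (l.idxOf a + 1) =
      l.map (Function.update g a x) := by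
  induction l with
  | nil => simp at h
  | cons b l ih =>
    rw [List.nodup_cons] at hl
    by_cases hb : b = a
    · subst hb
      have h1 : l.map (Function.update g b x) = l.map g := by
        apply List.map_congr_left
        intro c hc
        have : c ≠ b := by rintro rfl; exact hl.1 hc
        simp [Function.update_of_ne this]
      simp [h1]
    · have h' : a ∈ l := by
        rcases List.mem_cons.1 h with h | h
        · exact absurd h.symm hb
        · exact h
      have h1 := ih hl.2 h'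
      rw [List.idxOf_cons_ne _ hb]
      simp only [List.map_cons, List.take_succ_cons, List.cons_append, List.drop_succ_cons, h1]
      rw [Function.update_of_ne hb]

section sim

variable {K : Type} [DecidableEq K] [Fintype K] {Γ : K → Type} {Λ σ : Type} [Fintype Λ] [Fintype σ]

open Classical in
/-- Number of a control. -/
def cCode (M : Λ → TM2.Stmt Γ Λ σ) (c : TM2.Stmt Γ Λ σ × σ) : ℕ := (ctls M).idxOf c

open Classical in
/-- Number of a symbol. -/
def sCode (M : Λ → TM2.Stmt Γ Λ σ) (k₀ : K) [Fintype (Γ k₀)] (s : Σ k, Γ k) : ℕ :=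
  (syms M k₀).idxOf s

/-- Number of a stack. -/
def kCode (k : K) : ℕ := (Finset.univ : Finset K).toList.idxOf k

/-- The stacks as lists of numbers. -/
def codeStk (M : Λ → TM2.Stmt Γ Λ σ) (k₀ : K) [Fintype (Γ k₀)] (S : ∀ k, List (Γ k)) :
    List (List ℕ) :=
  (Finset.univ : Finset K).toList.map fun k => (S k).map fun a => sCode M k₀ ⟨k, a⟩

/-- The coded configuration. -/
def codeCfg (M : Λ → TM2.Stmt Γ Λ σ) (k₀ : K) [Fintype (Γ k₀)]
    (m : (TM2.Stmt Γ Λ σ × σ) × (∀ k, List (Γ k))) : ℕ × List (List ℕ) :=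
  (cCode M m.1, codeStk M k₀ m.2)

/-- Replace an entry of a list. -/
def setAt (st : List (List ℕ)) (i : ℕ) (x : List ℕ) : List (List ℕ) :=
  st.take i ++ x :: st.drop (i + 1)

/-- Table of the next control after reading a symbol. -/
def tbl (M : Λ → TM2.Stmt Γ Λ σ) (k₀ : K) [Fintype (Γ k₀)] (k : K) (F : Option (Γ k) → ℕ)
    (o : Option ℕ) : ℕ :=
  Option.casesOn (motive := fun _ => ℕ) o (F none) fun n =>
    ((syms M k₀).map fun s => if h : s.1 = k then F (some (h ▸ s.2)) else 0).getD n 0

/-- One step on codes, for a given control. -/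
def act (M : Λ → TM2.Stmt Γ Λ σ) (k₀ : K) [Fintype (Γ k₀)] (c : TM2.Stmt Γ Λ σ × σ)
    (st : List (List ℕ)) : ℕ × List (List ℕ) :=
  match c.1 with
  | .push k f q => (cCode M (q, c.2), setAt st (kCode k) (sCode M k₀ ⟨k, f c.2⟩ ::
      st.getD (kCode k) []))
  | .peek k f q => (tbl M k₀ k (fun a => cCode M (q, f c.2 a)) (st.getD (kCode k) []).head?, st)
  | .pop k f q => (tbl M k₀ k (fun a => cCode M (q, f c.2 a)) (st.getD (kCode k) []).head?,
      setAt st (kCode k) (st.getD (kCode k) []).tail)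
  | .load a q => (cCode M (q, a c.2), st)
  | .branch p q₁ q₂ => (cCode M (cond (p c.2) q₁ q₂, c.2), st)
  | .goto l => (cCode M (M (l c.2), c.2), st)
  | .halt => (cCode M (.halt, c.2), st)

/-- One step on codes. -/
def stepN (M : Λ → TM2.Stmt Γ Λ σ) (k₀ : K) [Fintype (Γ k₀)] (s : ℕ × List (List ℕ)) :
    ℕ × List (List ℕ) :=
  ((ctls M).map fun c => act M k₀ c s.2).getD s.1 s

lemma getD_codeStk (M : Λ → TM2.Stmt Γ Λ σ) (k₀ : K) [Fintype (Γ k₀)] (S : ∀ k, List (Γ k))
    (k : K) : (codeStk M k₀ S).getD (kCode k) [] = (S k).map fun a => sCode M k₀ ⟨k, a⟩ := by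
  have h : (Finset.univ : Finset K).toList[kCode k]? = some k :=
    getElem?_idxOf_of_mem (by simp)
  simp [codeStk, List.getD, h]

lemma setAt_codeStk (M : Λ → TM2.Stmt Γ Λ σ) (k₀ : K) [Fintype (Γ k₀)] (S : ∀ k, List (Γ k))
    (k : K) (l : List (Γ k)) :
    setAt (codeStk M k₀ S) (kCode k) (l.map fun a => sCode M k₀ ⟨k, a⟩) =
      codeStk M k₀ (Function.update S k l) := by
  unfold setAt codeStk kCode
  rw [map_set_idxOf _ (Finset.nodup_toList _) _ _ _ (by simp)]
  apply List.map_congr_left
  intro k' _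
  by_cases h : k' = k
  · subst h
    simp
  · simp [Function.update_of_ne h]

omit [Fintype K] in
lemma tbl_head (M : Λ → TM2.Stmt Γ Λ σ) (k₀ : K) [Fintype (Γ k₀)] (k : K) (F : Option (Γ k) → ℕ)
    (l : List (Γ k)) (hl : ∀ a ∈ l, (⟨k, a⟩ : Σ k, Γ k) ∈ syms M k₀) :
    tbl M k₀ k F (l.map fun a => sCode M k₀ ⟨k, a⟩).head? = F l.head? := by
  classical
  cases l with
  | nil => rfl
  | cons a l =>
    have h : (syms M k₀)[sCode M k₀ ⟨k, a⟩]? = some ⟨k, a⟩ :=
      getElem?_idxOf_of_mem (hl a (by simp))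
    simp only [List.map_cons, List.head?_cons, tbl, List.getD, List.getElem?_map, h]
    simp

omit [Fintype K] in
lemma getElem?_cCode (M : Λ → TM2.Stmt Γ Λ σ) {c : TM2.Stmt Γ Λ σ × σ} (h : c ∈ ctls M) :
    (ctls M)[cCode M c]? = some c := by
  classical
  unfold cCode
  exact getElem?_idxOf_of_mem h

theorem stepN_codeCfg (M : Λ → TM2.Stmt Γ Λ σ) (k₀ : K) [Fintype (Γ k₀)]
    (m : (TM2.Stmt Γ Λ σ × σ) × (∀ k, List (Γ k))) (hm : MInv M k₀ m) :
    stepN M k₀ (codeCfg M k₀ m) = codeCfg M k₀ (mstep M m) := by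
  classical
  have h : (ctls M)[cCode M m.1]? = some m.1 := getElem?_cCode M (mem_ctls.2 hm.1)
  have h1 : stepN M k₀ (codeCfg M k₀ m) = act M k₀ m.1 (codeStk M k₀ m.2) := by
    simp [stepN, codeCfg, List.getD, h]
  rw [h1]
  obtain ⟨⟨q, v⟩, S⟩ := m
  obtain ⟨-, h2⟩ := hm
  simp only at h2
  cases q with
  | push k f q =>
    simp only [act, mstep, codeCfg, getD_codeStk]
    rw [← setAt_codeStk]
    rfl
  | peek k f q =>
    simp only [act, mstep, codeCfg, getD_codeStk]
    rw [tbl_head M k₀ k _ _ (h2 k)]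
  | pop k f q =>
    simp only [act, mstep, codeCfg, getD_codeStk]
    rw [tbl_head M k₀ k _ _ (h2 k), ← setAt_codeStk, List.map_tail]
  | _ => rfl

lemma stepN_iterate (M : Λ → TM2.Stmt Γ Λ σ) (k₀ : K) [Fintype (Γ k₀)]
    (m : (TM2.Stmt Γ Λ σ × σ) × (∀ k, List (Γ k))) (hm : MInv M k₀ m) (t : ℕ) :
    (stepN M k₀)^[t] (codeCfg M k₀ m) = codeCfg M k₀ ((mstep M)^[t] m) ∧
      MInv M k₀ ((mstep M)^[t] m) := by
  induction t with
  | zero => exact ⟨rfl, hm⟩
  | succ t ih =>
    rw [Function.iterate_succ_apply', Function.iterate_succ_apply', ih.1, stepN_codeCfg M k₀ _ ih.2]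
    exact ⟨rfl, minv_mstep M k₀ _ ih.2⟩

omit [Fintype K] [Fintype Λ] [Fintype σ] in
lemma length_mstep (M : Λ → TM2.Stmt Γ Λ σ) (m : (TM2.Stmt Γ Λ σ × σ) × (∀ k, List (Γ k)))
    (N : ℕ) (h : ∀ k, (m.2 k).length ≤ N) (k : K) : ((mstep M m).2 k).length ≤ N + 1 := by
  obtain ⟨⟨q, v⟩, S⟩ := m
  simp only at h
  have hk := h k
  cases q with
  | push k' f q =>
    simp only [mstep]
    by_cases hkk : k = k'
    · subst hkk
      simp [hk]
    · rw [Function.update_of_ne hkk]
      omega
  | pop k' f q =>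
    simp only [mstep]
    by_cases hkk : k = k'
    · subst hkk
      simp
      omega
    · rw [Function.update_of_ne hkk]
      omega
  | _ => simp only [mstep]; omega

omit [Fintype K] [Fintype Λ] [Fintype σ] in
lemma length_mstep_iterate (M : Λ → TM2.Stmt Γ Λ σ)
    (m : (TM2.Stmt Γ Λ σ × σ) × (∀ k, List (Γ k)))
    (N : ℕ) (h : ∀ k, (m.2 k).length ≤ N) (t : ℕ) :
    ∀ k, (((mstep M)^[t] m).2 k).length ≤ N + t := by
  induction t with
  | zero => exact h
  | succ t ih =>
    rw [Function.iterate_succ_apply']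
    exact length_mstep M _ _ ih

lemma sz_codeCfg_le (M : Λ → TM2.Stmt Γ Λ σ) (k₀ : K) [Fintype (Γ k₀)]
    (m : (TM2.Stmt Γ Λ σ × σ) × (∀ k, List (Γ k))) (N : ℕ) (h : ∀ k, (m.2 k).length ≤ N) :
    sz (codeCfg M k₀ m) ≤ 1 + (1 + 2 * (ctls M).length) + (1 + Fintype.card K *
      (1 + (1 + N * (1 + (1 + 2 * (syms M k₀).length))))) := by
  classical
  rw [codeCfg, sz_pair]
  have h1 : cCode M m.1 ≤ (ctls M).length := List.idxOf_le_length
  have h2 : sz (codeStk M k₀ m.2) ≤ 1 + Fintype.card K *
      (1 + (1 + N * (1 + (1 + 2 * (syms M k₀).length)))) := by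
    refine sz_list_le _ _ _ (by simp [codeStk]) ?_
    intro l hl
    obtain ⟨k, -, rfl⟩ := List.mem_map.1 hl
    refine sz_list_le _ _ _ (by simpa using h k) ?_
    intro a ha
    obtain ⟨b, -, rfl⟩ := List.mem_map.1 ha
    have h3 : sCode M k₀ ⟨k, b⟩ ≤ (syms M k₀).length := List.idxOf_le_length
    simp only [sz_nat]
    omega
  simp only [sz_nat]
  omega

end sim

section ptime

lemma ptime_setAt {α : Type} [Enc α] {st : α → List (List ℕ)} {x : α → List ℕ} (i : ℕ)
    (h1 : PTime st) (h2 : PTime x) : PTime (fun a => setAt (st a) i (x a)) := by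
  unfold setAt
  fun_prop

lemma ptime_tbl {K : Type} [DecidableEq K] {Γ : K → Type} {Λ σ : Type} [Fintype Λ] [Fintype σ]
    (M : Λ → TM2.Stmt Γ Λ σ) (k₀ : K) [Fintype (Γ k₀)] (k : K) (F : Option (Γ k) → ℕ) {α : Type}
    [Enc α] {o : α → Option ℕ} (ho : PTime o) : PTime (fun a => tbl M k₀ k F (o a)) := by
  unfold tbl
  refine PTime.optCases ho (by fun_prop) ?_
  fun_prop

lemma ptime_act {K : Type} [DecidableEq K] [Fintype K] {Γ : K → Type} {Λ σ : Type} [Fintype Λ]
    [Fintype σ] (M : Λ → TM2.Stmt Γ Λ σ) (k₀ : K) [Fintype (Γ k₀)] (c : TM2.Stmt Γ Λ σ × σ) :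
    PTime (fun st => act M k₀ c st) := by
  obtain ⟨q, v⟩ := c
  cases q with
  | push k f q =>
    refine PTime.pair (by fun_prop) (ptime_setAt _ PTime.id (by fun_prop))
  | peek k f q =>
    refine PTime.pair (ptime_tbl M k₀ k _ (by fun_prop)) (by fun_prop)
  | pop k f q =>
    refine PTime.pair (ptime_tbl M k₀ k _ (by fun_prop)) (ptime_setAt _ PTime.id (by fun_prop))
  | _ => exact PTime.pair (PTime.const _) PTime.id

lemma ptime_stepN {K : Type} [DecidableEq K] [Fintype K] {Γ : K → Type} {Λ σ : Type} [Fintype Λ]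
    [Fintype σ] (M : Λ → TM2.Stmt Γ Λ σ) (k₀ : K) [Fintype (Γ k₀)] : PTime (stepN M k₀) := by
  unfold stepN
  refine PTime.listGetD (PTime.map_const _ fun c _ => ?_) (by fun_prop) (by fun_prop)
  exact (ptime_act M k₀ c).comp (PTime.snd PTime.id)

end ptime

/-- **Simulation.** A function computed in polynomial time by a Mathlib `TM2` machine is computed,
on bit strings, by a `PTime` function. -/
theorem ptime_of_tm2 {α β : Type} {ea : α → List Bool} {eb : β → List Bool} {g : α → β}
    (h : Nonempty (TM2ComputableInPolyTime ea eb g)) :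
    ∃ F : List Bool → List Bool, PTime F ∧ ∀ a, F (ea a) = eb (g a) := by
  classical
  obtain ⟨cm⟩ := h
  let := cm.tm.kDecidableEq
  let := cm.tm.kFin
  let := cm.tm.ΛFin
  let := cm.tm.σFin
  let := cm.tm.Γk₀Fin
  let M := cm.tm.m
  let k₀ := cm.tm.k₀
  let k₁ := cm.tm.k₁
  let inv : Bool → cm.tm.Γ cm.tm.k₀ := cm.inputAlphabet.invFun
  let outI : Bool → cm.tm.Γ cm.tm.k₁ := cm.outputAlphabet.invFun
  let C : ℕ := Finset.univ.sup fun l => depth (cm.tm.m l)
  have hC : ∀ l, depth (cm.tm.m l) ≤ C := fun l =>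
    Finset.le_sup (f := fun l => depth (cm.tm.m l)) (Finset.mem_univ l)
  let τ : ℕ[X] := cm.time * Polynomial.C C
  -- the initial coded configuration
  let m0 : List Bool → (TM2.Stmt cm.tm.Γ cm.tm.Λ cm.tm.σ × cm.tm.σ) × (∀ k, List (cm.tm.Γ k)) :=
    fun z => ((M cm.tm.main, cm.tm.initialState), (initList cm.tm (z.map inv)).stk)
  have hst : ∀ s : List (cm.tm.Γ cm.tm.k₀), (initList cm.tm s).stk cm.tm.k₀ = s := by
    intro s
    simp [initList]
  have hst' : ∀ (s : List (cm.tm.Γ cm.tm.k₀)) (k : cm.tm.K), k ≠ cm.tm.k₀ →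
      (initList cm.tm s).stk k = [] := by
    intro s k hk
    simp [initList, hk]
  have hend : ∀ s : List (cm.tm.Γ cm.tm.k₁), (haltList cm.tm s).stk cm.tm.k₁ = s := by
    intro s
    simp [haltList]
  have hinv : ∀ z, MInv M k₀ (m0 z) := by
    intro z
    refine ⟨label_mem_stm M _, fun k a ha => ?_⟩
    by_cases hk : k = k₀
    · subst hk
      exact List.mem_append_right _ (by simp)
    · simp only [m0, hst' _ k hk] at ha
      simp at ha
  let init : List Bool → ℕ × List (List ℕ) := fun z =>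
    (cCode M (M cm.tm.main, cm.tm.initialState),
      setAt ((Finset.univ : Finset cm.tm.K).toList.map fun _ => []) (kCode k₀)
        (z.map fun b => bif b then sCode M k₀ ⟨k₀, inv true⟩ else sCode M k₀ ⟨k₀, inv false⟩))
  have hinit : ∀ z, init z = codeCfg M k₀ (m0 z) := by
    intro z
    refine Prod.ext rfl ?_
    have h1 := setAt_codeStk M k₀ (fun k => ([] : List (cm.tm.Γ k))) k₀ (z.map inv)
    have h2 : codeStk M k₀ (m0 z).2 =
        codeStk M k₀ (Function.update (fun k => ([] : List (cm.tm.Γ k))) k₀ (z.map inv)) := by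
      congr 1
      funext k
      by_cases hk : k = k₀
      · subst hk
        rw [Function.update_self]
        exact hst _
      · rw [Function.update_of_ne hk]
        exact hst' _ k hk
    change setAt _ _ _ = codeStk M k₀ (m0 z).2
    rw [h2, ← h1]
    congr 1
    rw [List.map_map]
    apply List.map_congr_left
    intro b _
    cases b <;> rfl
  have hinitP : PTime init := by
    refine PTime.pair (PTime.const _) (ptime_setAt _ (PTime.const _) ?_)
    fun_prop
  let out : ℕ × List (List ℕ) → List Bool := fun s =>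
    (s.2.getD (kCode k₁) []).map fun n =>
      ((syms M k₀).map fun s => rdSym k₁ cm.outputAlphabet s).getD n false
  have houtP : PTime out := by
    refine PTime.map (by fun_prop) ?_
    fun_prop
  have hout : ∀ m, MInv M k₀ m → out (codeCfg M k₀ m) = (m.2 k₁).map cm.outputAlphabet := by
    intro m hm
    change ((codeStk M k₀ m.2).getD (kCode k₁) []).map _ = _
    rw [getD_codeStk, List.map_map]
    apply List.map_congr_left
    intro a ha
    have h : (syms M k₀)[sCode M k₀ ⟨k₁, a⟩]? = some ⟨k₁, a⟩ :=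
      getElem?_idxOf_of_mem (hm.2 k₁ a ha)
    simp only [Function.comp_apply, List.getD, List.getElem?_map, h]
    simp
  refine ⟨fun z => out ((stepN M k₀)^[τ.eval z.length] (init z)), ?_, fun a => ?_⟩
  · refine houtP.comp (PTime.iter (ptime_stepN M k₀) hinitP (by fun_prop)
      (h := fun z => 1 + (1 + 2 * (ctls M).length) + (1 + Fintype.card cm.tm.K *
      (1 + (1 + (sz z + τ.eval z.length) * (1 + (1 + 2 * (syms M k₀).length)))))) ?_ ?_)
    · have hτ : PB (fun z : List Bool => τ.eval z.length) :=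
        PB.mono (PTime.pb (show PTime (fun z : List Bool => τ.eval z.length) by fun_prop))
          (fun z => by simp; omega)
      exact (PB.const _).add ((PB.const 1).add ((PB.const _).mul ((PB.const 1).add
        ((PB.const 1).add ((PB.sz_self.add hτ).mul (PB.const _))))))
    · intro z i hi
      rw [hinit, (stepN_iterate M k₀ _ (hinv z) i).1]
      refine sz_codeCfg_le M k₀ _ _ fun k => ?_
      refine (length_mstep_iterate M (m0 z) z.length ?_ i k).trans ?_
      · intro k
        by_cases hk : k = k₀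
        · subst hk
          have : (m0 z).2 k₀ = z.map inv := hst _
          rw [this]
          simp
        · have : (m0 z).2 k = [] := hst' _ k hk
          rw [this]
          simp
      · have := length_lt_sz z
        omega
  · have hout' := cm.outputsFun a
    have hsteps : hout'.steps * C ≤ τ.eval (ea a).length := by
      have h1 := hout'.steps_le_m
      have h3 : τ.eval (ea a).length = cm.time.eval (ea a).length * C := by simp [τ]
      rw [h3]
      exact Nat.mul_le_mul_right _ h1
    have hrun := mstep_of_evals_halt cm.tm.m C hC hout'.steps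
      (initList cm.tm ((ea a).map inv))
      (haltList cm.tm ((eb (g a)).map outI)) hout'.evals_in_steps rfl _ hsteps
    have hrun' : (mstep M)^[τ.eval (ea a).length] (m0 (ea a)) =
        toM cm.tm.m (haltList cm.tm ((eb (g a)).map outI)) := hrun
    obtain ⟨h4, h5⟩ := stepN_iterate M k₀ _ (hinv (ea a)) (τ.eval (ea a).length)
    change out ((stepN M k₀)^[τ.eval (ea a).length] (init (ea a))) = _
    rw [hinit, h4, hout _ h5, hrun']
    change ((haltList cm.tm ((eb (g a)).map outI)).stk cm.tm.k₁).map cm.outputAlphabet = _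
    rw [hend, List.map_map]
    have : (cm.outputAlphabet ∘ outI) = id := by
      funext b
      exact cm.outputAlphabet.apply_symm_apply b
    rw [this, List.map_id]

/-- For functions on bit strings the two notions of polynomial time agree. -/
theorem ptime_of_isPolyTime {f : List Bool → List Bool} (h : IsPolyTime f) : PTime f := by
  obtain ⟨F, hF, hF'⟩ := ptime_of_tm2 h
  have h1 : PTime (fun x : List Bool => (chunks 3 1 (F (bitEncode x))).1) := by
    refine PTime.fst (PTime.chunks 3 1 (hF.comp ?_))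
    fun_prop
  refine h1.congr fun x => ?_
  have h2 : F (bitEncode x) = bitEncode (f x) := hF' x
  rw [h2, chunks_bits]

theorem isPolyTime_iff {f : List Bool → List Bool} : IsPolyTime f ↔ PTime f :=
  ⟨ptime_of_isPolyTime, isPolyTime_of_ptime⟩

end

end TMLib
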