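import Pool.Prelude.Def_F_458e953d
import Pool.Agent.TM.Lib2

/-!
# `PTime` and the classes of the prelude
-/

namespace TMLib

open Polynomial N68a2faeb N793a5b8e N487b59b3

/-- Read one block of `c` bits and keep its bit number `j`, if the block starts with `true`. -/
def chunkStep (c j : ℕ) (s : List Bool × List Bool) : List Bool × List Bool :=
  if s.2.headD false = true then (s.2.getD j false :: s.1, s.2.drop c) else s

lemma chunkStep_size (c j : ℕ) (s : List Bool × List Bool) :
    (chunkStep c j s).1.length ≤ s.1.length + 1 ∧ sz (chunkStep c j s).2 ≤ sz s.2 := by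
  unfold chunkStep
  split_ifs
  · exact ⟨by simp, PTime.sz_drop_le _ _⟩
  · exact ⟨by omega, le_rfl⟩

lemma chunkStep_iterate_size (c j n : ℕ) (s : List Bool × List Bool) :
    ((chunkStep c j)^[n] s).1.length ≤ s.1.length + n ∧
      sz ((chunkStep c j)^[n] s).2 ≤ sz s.2 := by
  induction n with
  | zero => simp
  | succ n ih =>
    rw [Function.iterate_succ_apply']
    have h := chunkStep_size c j ((chunkStep c j)^[n] s)
    exact ⟨by omega, h.2.trans ih.2⟩

/-- Decode blocks. -/
def chunks (c j : ℕ) (z : List Bool) : List Bool × List Bool :=
  (fun s => (s.1.reverse, s.2)) ((chunkStep c j)^[z.length] ([], z))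

namespace PTime

@[fun_prop] lemma chunks {α : Type} [Enc α] (c j : ℕ) {f : α → List Bool} (hf : PTime f) :
    PTime (fun x => chunks c j (f x)) := by
  have hstep : PTime (chunkStep c j) := by
    refine ite (eq (f := fun s : List Bool × List Bool => s.2.headD false) (g := fun _ => true)
      ?_ (const true)) ?_ id
    · exact (getD (head? (snd id)) (const false)).congr fun s => by cases s.2 <;> rfl
    · fun_prop
  have h := iter hstep (pair (const []) id) (length id)
    (h := fun z : List Bool => 1 + (1 + sz z * (1 + 3)) + sz z)
    (((PB.const 1).add ((PB.const 1).add (PB.sz_self.mul (PB.const 4)))).add PB.sz_self)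
    (fun z i hi => by
      obtain ⟨h1, h2⟩ := chunkStep_iterate_size c j i ([], z)
      have h3 := sz_list_le ((chunkStep c j)^[i] ([], z)).1 (sz z) 3 (by
        have := length_lt_sz z
        simp at h1
        omega) (fun b _ => sz_bool_le b)
      rw [sz_pair]
      simp only at h2
      omega)
  exact (pair (reverse (fst h)) (snd h)).comp hf

end PTime

lemma chunkStep_fix (c j n : ℕ) (s : List Bool × List Bool) (h : s.2.headD false = false) :
    (chunkStep c j)^[n] s = s := by
  induction n with
  | zero => rfl
  | succ n ih => rw [Function.iterate_succ_apply', ih, chunkStep, h]; simp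

lemma bitEncode_bool (b : Bool) : bitEncode b = [b] := rfl

lemma bitEncode_bits_cons (b : Bool) (l : List Bool) :
    bitEncode (b :: l) = true :: b :: false :: bitEncode l := rfl

lemma bitEncode_bits_nil : bitEncode ([] : List Bool) = [] := rfl

lemma bitEncode_bits_append (l l' : List Bool) :
    bitEncode (l ++ l') = bitEncode l ++ bitEncode l' := by
  induction l with
  | nil => rfl
  | cons b l ih => simp [bitEncode_bits_cons, ih]

lemma length_bitEncode_bits (l : List Bool) : (bitEncode l).length = 3 * l.length := by
  induction l with
  | nil => rfl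
  | cons b l ih => simp [bitEncode_bits_cons, ih]; omega

lemma bitEncode_pair (x w : List Bool) :
    bitEncode (x, w) = delimit (bitEncode x) ++ bitEncode w := rfl

lemma chunks_bits (l : List Bool) : (chunks 3 1 (bitEncode l)).1 = l := by
  have key : ∀ (l acc : List Bool) (n : ℕ), l.length ≤ n →
      (chunkStep 3 1)^[n] (acc, bitEncode l) = (l.reverse ++ acc, []) := by
    intro l
    induction l with
    | nil =>
      intro acc n _
      rw [bitEncode_bits_nil, chunkStep_fix _ _ _ _ rfl]
      simp
    | cons b l ih =>
      intro acc n hn
      cases n with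
      | zero => simp at hn
      | succ n =>
        rw [Function.iterate_succ_apply]
        have : chunkStep 3 1 (acc, bitEncode (b :: l)) = (b :: acc, bitEncode l) := rfl
        rw [this, ih _ _ (by simpa using hn)]
        simp
  unfold chunks
  rw [key l [] _ (by rw [length_bitEncode_bits]; omega)]
  simp

lemma chunks_pair (x w : List Bool) :
    chunks 6 3 (bitEncode (x, w)) = (x, false :: bitEncode w) := by
  have key : ∀ (x acc : List Bool) (n : ℕ), x.length ≤ n →
      (chunkStep 6 3)^[n] (acc, delimit (bitEncode x) ++ bitEncode w) =
        (x.reverse ++ acc, false :: bitEncode w) := by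
    intro x
    induction x with
    | nil =>
      intro acc n _
      rw [chunkStep_fix _ _ _ _ rfl]
      rfl
    | cons b l ih =>
      intro acc n hn
      cases n with
      | zero => simp at hn
      | succ n =>
        rw [Function.iterate_succ_apply]
        have : chunkStep 6 3 (acc, delimit (bitEncode (b :: l)) ++ bitEncode w) =
          (b :: acc, delimit (bitEncode l) ++ bitEncode w) := rfl
        rw [this, ih _ _ (by simpa using hn)]
        simp
  unfold chunks
  rw [bitEncode_pair, key x [] _ (by
    rw [List.length_append, length_delimit, length_bitEncode_bits]; omega)]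
  simp

attribute [irreducible] chunks

/-- A bit-string function in `PTime` is polynomial time in the sense of the prelude. -/
theorem isPolyTime_of_ptime {f : List Bool → List Bool} (hf : PTime f) : IsPolyTime f := by
  refine tm2_of_ptime (f := fun z => (f (chunks 3 1 z).1).flatMap fun b => [true, b, false]) ?_
    fun a => ?_
  · fun_prop
  · change bitEncode (f a) = _
    rw [show (N487b59b3.toEncoding (α := List Bool)).encode a = bitEncode a from rfl, chunks_bits]
    generalize f a = l
    induction l with
    | nil => rfl
    | cons b l ih => rw [bitEncode_bits_cons, ih]; rfl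

/-- A relation in `PTime` is polynomial time in the sense of the prelude. -/
theorem isPolyTime_rel {V : List Bool → List Bool → Bool}
    (hV : PTime fun p : List Bool × List Bool => V p.1 p.2) :
    IsPolyTime (fun p : List Bool × List Bool => V p.1 p.2) := by
  refine tm2_of_ptime (f := fun z => [V (chunks 6 3 z).1 (chunks 3 1 (chunks 6 3 z).2.tail).1]) ?_
    fun a => ?_
  · fun_prop
  · obtain ⟨x, w⟩ := a
    change [V x w] = _
    rw [show (N487b59b3.toEncoding (α := List Bool × List Bool)).encode (x, w) =
      bitEncode (x, w) from rfl, chunks_pair]
    simp [chunks_bits]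

/-- Membership in `NP` from a `PTime` verifier. -/
theorem mem_NP {L : DecisionProblem} {V : List Bool → List Bool → Bool}
    (hV : PTime fun p : List Bool × List Bool => V p.1 p.2) (p : ℕ[X])
    (h : ∀ x, L x = true ↔ ∃ w : List Bool, w.length ≤ p.eval x.length ∧ V x w = true) :
    L ∈ NP :=
  ⟨p, _, isPolyTime_rel hV, h⟩

/-- Many-one reductions from `PTime` functions. -/
theorem manyOne_of_ptime {A B : DecisionProblem} {f : List Bool → List Bool} (hf : PTime f)
    (h : ∀ x, A x = B (f x)) : ManyOneReducible A B :=
  ⟨f, isPolyTime_of_ptime hf, h⟩

end TMLib
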