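import Pool.Agent.TM.NP

/-!
# Typed certificates for membership in `NP`
-/

namespace TMLib

open Polynomial N68a2faeb

/-- Read a prefix code from right to left, with a stack of trees. -/
def parseStep (s : List D) (b : Bool) : List D :=
  bif b then List.casesOn (motive := fun _ => List D) s []
    (fun x t => List.casesOn (motive := fun _ => List D) t [] (fun y t' => D.cons x y :: t'))
  else D.nil :: s

/-- The tree described by a bit string. -/
def parse (l : List Bool) : D := (l.reverse.foldl parseStep []).headD D.nil

lemma parse_foldl (x : D) : ∀ (s : List D), x.code.reverse.foldl parseStep s = x :: s := by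
  induction x with
  | nil => intro s; rfl
  | cons x y ihx ihy =>
    intro s
    simp only [D.code, List.reverse_cons, List.reverse_append, List.foldl_append, ihy, ihx]
    rfl

@[simp] lemma parse_code (x : D) : parse x.code = x := by
  rw [parse, parse_foldl]; rfl

lemma sz_parseStep (s : List D) (b : Bool) : sz (parseStep s b) ≤ sz s + 2 := by
  cases b with
  | false => simp [parseStep]; omega
  | true =>
    cases s with
    | nil => simp [parseStep]
    | cons x t =>
      cases t with
      | nil => simp [parseStep]
      | cons y t => simp [parseStep]; omega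

lemma sz_foldl_parseStep (l : List Bool) : ∀ s : List D,
    sz (l.foldl parseStep s) ≤ sz s + 2 * l.length := by
  induction l with
  | nil => intro s; simp
  | cons b l ih =>
    intro s
    have h1 := ih (parseStep s b)
    have h2 := sz_parseStep s b
    simp only [List.foldl_cons, List.length_cons]
    omega

@[fun_prop] lemma PTime.parse {α : Type} [Enc α] {f : α → List Bool} (hf : PTime f) :
    PTime (fun x => parse (f x)) := by
  have hstep : PTime (fun p : List Bool × List D × Bool => parseStep p.2.1 p.2.2) := by
    refine PTime.cond (by fun_prop) ?_ (by fun_prop)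
    refine PTime.listCases (by fun_prop) (by fun_prop) ?_
    refine PTime.listCases (by fun_prop) (by fun_prop) ?_
    refine PTime.cons ?_ (by fun_prop)
    exact (PTime.of_enc_eq (f := fun p : D × D => D.cons p.1 p.2) fun _ => rfl).comp
      (f := fun p : ((List Bool × List D × Bool) × D × List D) × D × List D => (p.1.2.1, p.2.1))
      (by fun_prop)
  have h := PTime.foldl (f := fun (_ : List Bool) s b => parseStep s b)
    (init := fun _ => ([] : List D)) (l := fun l : List Bool => l.reverse) hstep (by fun_prop)
    (by fun_prop) (h := fun l => 1 + 2 * sz l)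
    ((PB.const 1).add ((PB.const 2).mul PB.sz_self)) (fun l l' hl' => by
      have h1 := sz_foldl_parseStep l' []
      have h2 := hl'.length_le
      have h3 := length_lt_sz l
      change sz (l'.foldl parseStep []) ≤ 1 + 2 * sz l
      simp only [List.length_reverse, sz_nil] at *
      omega)
  refine PTime.comp (g := fun l => TMLib.parse l) ?_ hf
  refine (PTime.getD (PTime.head? h) (PTime.const D.nil)).congr fun l => ?_
  unfold TMLib.parse
  generalize List.foldl parseStep [] l.reverse = s
  cases s <;> rfl

/-- Total decoding of trees: a polynomial time retraction of the encoding. -/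
class Fix (α : Type) [Enc α] where
  /-- the decoding -/
  fix : D → α
  /-- it inverts the encoding -/
  fix_enc : ∀ a, fix (enc a) = a
  /-- it is computable in polynomial time -/
  ptime : PTime fix

attribute [simp] Fix.fix_enc

@[fun_prop] lemma PTime.fix {α β : Type} [Enc α] [Enc β] [Fix β] {f : α → D} (hf : PTime f) :
    PTime (fun x => (Fix.fix (f x) : β)) := Fix.ptime.comp hf

instance : Fix D := ⟨fun x => x, fun _ => rfl, PTime.id⟩

instance : Fix Unit := ⟨fun _ => (), fun _ => rfl, PTime.const ()⟩

instance : Fix Bool where
  fix d := decide (d ≠ D.nil)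
  fix_enc b := by cases b <;> simp
  ptime := by fun_prop

/-- The list of subtrees along the right spine. -/
def D.spine : D → List D
  | .nil => []
  | .cons x y => x :: y.spine

lemma enc_spine (d : D) : enc d.spine = d := by
  induction d with
  | nil => rfl
  | cons x y _ ih => simp [D.spine, ih]

lemma spine_enc_list {α : Type} [Enc α] (l : List α) : (enc l).spine = l.map enc := by
  induction l with
  | nil => rfl
  | cons a l ih => simp [D.spine, ih]

@[fun_prop] lemma PTime.spine {α : Type} [Enc α] {f : α → D} (hf : PTime f) :
    PTime (fun x => (f x).spine) := (PTime.of_enc_eq (f := D.spine) enc_spine).comp hf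

instance : Fix ℕ where
  fix d := d.spine.length
  fix_enc n := by
    induction n with
    | zero => rfl
    | succ n ih => simpa [D.spine] using ih
  ptime := by fun_prop

@[fun_prop] lemma PTime.D_hd {α : Type} [Enc α] {f : α → D} (hf : PTime f) :
    PTime (fun x => (f x).hd) := PTime.hd.comp hf

@[fun_prop] lemma PTime.D_tl {α : Type} [Enc α] {f : α → D} (hf : PTime f) :
    PTime (fun x => (f x).tl) := PTime.tl.comp hf

instance {α β : Type} [Enc α] [Enc β] [Fix α] [Fix β] : Fix (α × β) where
  fix d := (Fix.fix d.hd, Fix.fix d.tl)
  fix_enc p := by simp [show enc p = D.cons (enc p.1) (enc p.2) from rfl]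
  ptime := by fun_prop

instance {α : Type} [Enc α] [Fix α] : Fix (List α) where
  fix d := d.spine.map Fix.fix
  fix_enc l := by rw [spine_enc_list, List.map_map]; simp [Function.comp_def]
  ptime := by fun_prop

@[fun_prop] lemma PTime.beq {α β : Type} [Enc α] [Enc β] [EncInj β] [BEq β] [LawfulBEq β]
    {f g : α → β} (hf : PTime f) (hg : PTime g) : PTime (fun x => f x == g x) := by
  classical
  refine (PTime.eq hf hg).congr fun x => ?_
  by_cases h : f x = g x <;> simp [h]

@[fun_prop] lemma PTime.bne {α β : Type} [Enc α] [Enc β] [EncInj β] [BEq β] [LawfulBEq β]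
    {f g : α → β} (hf : PTime f) (hg : PTime g) : PTime (fun x => f x != g x) :=
  PTime.not (PTime.beq hf hg)

/-- Membership in `NP` from a typed certificate of polynomial size. -/
theorem mem_NP_cert {β : Type} [Enc β] [Fix β] {L : DecisionProblem} {V : List Bool → β → Bool}
    (hV : PTime fun p : List Bool × β => V p.1 p.2) (p : ℕ[X])
    (hsound : ∀ x b, V x b = true → L x = true)
    (hcomplete : ∀ x, L x = true → ∃ b : β, sz b ≤ p.eval x.length ∧ V x b = true) :
    L ∈ NP := by
  refine mem_NP (V := fun x w => V x (Fix.fix (parse w))) ?_ p fun x => ⟨fun h => ?_, ?_⟩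
  · exact hV.comp (f := fun p : List Bool × List Bool => (p.1, (Fix.fix (parse p.2) : β)))
      (by fun_prop)
  · obtain ⟨b, hb, hb'⟩ := hcomplete x h
    exact ⟨(enc b).code, by rw [D.length_code]; exact hb, by rw [parse_code, Fix.fix_enc]; exact hb'⟩
  · rintro ⟨w, -, hw⟩
    exact hsound x _ hw

end TMLib
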