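import Pool.Agent.TM.PTime

/-!
# Closure properties of `PTime`: recursion, arithmetic, lists
-/

namespace TMLib

open Polynomial

variable {α β γ δ σ : Type} [Enc α] [Enc β] [Enc γ] [Enc δ] [Enc σ]

namespace PTime

/-! ### Constructors and case distinctions -/

lemma cons {f : α → β} {g : α → List β} (hf : PTime f) (hg : PTime g) :
    PTime (fun x => f x :: g x) :=
  (of_enc_eq (f := fun p : β × List β => p.1 :: p.2) fun _ => rfl).comp (pair hf hg)

lemma succ {f : α → ℕ} (hf : PTime f) : PTime (fun x => f x + 1) :=
  (of_enc_eq (f := fun p : Unit × ℕ => p.2 + 1) fun _ => rfl).comp (pair (const ()) hf)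

lemma some {f : α → β} (hf : PTime f) : PTime (fun x => some (f x)) :=
  (of_enc_eq (f := fun p : β × Unit => Option.some p.1) fun _ => rfl).comp (pair hf (const ()))

lemma toList {f : α → Option β} (hf : PTime f) : PTime (fun x => (f x).toList) :=
  (of_enc_eq (f := fun p : Option β => p.toList) fun _ => rfl).comp hf

lemma units {f : α → ℕ} (hf : PTime f) : PTime (fun x => List.replicate (f x) ()) := by
  refine (of_enc_eq (f := fun n : ℕ => List.replicate n ()) fun n => ?_).comp hf
  induction n with
  | zero => rfl
  | succ n ih => simp [List.replicate_succ, ih]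

lemma lengthUnits {f : α → List Unit} (hf : PTime f) : PTime (fun x => (f x).length) := by
  refine (of_enc_eq (f := fun l : List Unit => l.length) fun l => ?_).comp hf
  induction l with
  | nil => rfl
  | cons a l ih => simp [ih]

lemma natCases {n : α → ℕ} {f : α → γ} {g : α → ℕ → γ} (hn : PTime n) (hf : PTime f)
    (hg : PTime fun p : α × ℕ => g p.1 p.2) :
    PTime (fun x => Nat.casesOn (motive := fun _ => γ) (n x) (f x) (fun m => g x m)) := by
  refine (listCases (units hn) hf (g := fun x _ t => g x t.length) ?_).congr fun x => ?_
  · exact comp2 hg (fst id) (lengthUnits (snd (snd id)))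
  · cases n x <;> simp [List.replicate_succ]

lemma optCases {o : α → Option β} {f : α → γ} {g : α → β → γ} (ho : PTime o) (hf : PTime f)
    (hg : PTime fun p : α × β => g p.1 p.2) :
    PTime (fun x => Option.casesOn (motive := fun _ => γ) (o x) (f x) (fun b => g x b)) := by
  refine (listCases (toList ho) hf (g := fun x b _ => g x b) ?_).congr fun x => ?_
  · exact comp2 hg (fst id) (fst (snd id))
  · cases o x <;> simp

/-! ### Booleans -/

lemma not {f : α → Bool} (hf : PTime f) : PTime (fun x => !f x) :=
  (cond hf (const false) (const true)).congr fun x => by cases f x <;> rfl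

lemma and {f g : α → Bool} (hf : PTime f) (hg : PTime g) : PTime (fun x => f x && g x) :=
  (cond hf hg (const false)).congr fun x => by cases f x <;> rfl

lemma or {f g : α → Bool} (hf : PTime f) (hg : PTime g) : PTime (fun x => f x || g x) :=
  (cond hf (const true) hg).congr fun x => by cases f x <;> rfl

lemma decide_not {p : α → Prop} [∀ x, Decidable (p x)] (h : PTime fun x => decide (p x)) :
    PTime (fun x => decide (¬ p x)) := (not h).congr fun x => by simp

lemma decide_and {p q : α → Prop} [∀ x, Decidable (p x)] [∀ x, Decidable (q x)]
    (h : PTime fun x => decide (p x)) (h' : PTime fun x => decide (q x)) :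
    PTime (fun x => decide (p x ∧ q x)) := (and h h').congr fun x => by simp

lemma decide_or {p q : α → Prop} [∀ x, Decidable (p x)] [∀ x, Decidable (q x)]
    (h : PTime fun x => decide (p x)) (h' : PTime fun x => decide (q x)) :
    PTime (fun x => decide (p x ∨ q x)) := (or h h').congr fun x => by simp

lemma decide_true' {f : α → Bool} (hf : PTime f) : PTime (fun x => decide (f x = true)) :=
  hf.congr fun x => by simp

/-! ### Folds -/

/-- One step of the fold. -/
def foldStep (f : α → σ → β → σ) (s : α × σ × List β) : α × σ × List β :=
  List.casesOn (motive := fun _ => α × σ × List β) s.2.2 s (fun b t => (s.1, f s.1 s.2.1 b, t))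

omit [Enc α] [Enc β] [Enc σ] in
lemma foldStep_iterate (f : α → σ → β → σ) (k : ℕ) : ∀ (a : α) (s : σ) (l : List β),
    (foldStep f)^[k] (a, s, l) = (a, (l.take k).foldl (f a) s, l.drop k) := by
  induction k with
  | zero => intro a s l; simp
  | succ k ih =>
    intro a s l
    rw [Function.iterate_succ_apply]
    cases l with
    | nil =>
      have : foldStep f (a, s, ([] : List β)) = (a, s, []) := rfl
      rw [this, ih]
      simp
    | cons b t =>
      have : foldStep f (a, s, b :: t) = (a, f a s b, t) := rfl
      rw [this, ih]
      simp

lemma sz_drop_le (l : List β) (k : ℕ) : sz (l.drop k) ≤ sz l := by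
  have h := sz_append (l.take k) (l.drop k)
  rw [List.take_append_drop] at h
  have := sz_pos (l.take k)
  omega

/-- Left fold, provided the intermediate values stay polynomially bounded. -/
lemma foldl {f : α → σ → β → σ} {init : α → σ} {l : α → List β}
    (hf : PTime fun p : α × σ × β => f p.1 p.2.1 p.2.2) (hi : PTime init) (hl : PTime l)
    {h : α → ℕ} (hh : PB h)
    (hB : ∀ a l', l' <+: l a → sz (l'.foldl (f a) (init a)) ≤ h a) :
    PTime (fun a => (l a).foldl (f a) (init a)) := by
  have hstep : PTime (foldStep f) := by
    refine listCases (snd (snd id)) id ?_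
    refine pair (fst (fst id)) (pair ?_ (snd (snd id)))
    exact hf.comp (f := fun p : (α × σ × List β) × β × List β => (p.1.1, p.1.2.1, p.2.1))
      (pair (fst (fst id)) (pair (fst (snd (fst id))) (fst (snd id))))
  have hs : PTime (fun a => (a, init a, l a)) := pair id (pair hi hl)
  have hb : PB (fun a => 2 + sz a + h a + sz (l a)) :=
    (((PB.const 2).add PB.sz_self).add hh).add hl.pb
  have := iterT hstep hs (enc'.comp hl) hb (fun a i hi => by
    rw [foldStep_iterate]
    have h1 := hB a ((l a).take i) (List.take_prefix _ _)
    have h2 := sz_drop_le (l a) i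
    simp only [sz_pair]
    omega)
  refine (fst (snd this)).congr fun a => ?_
  rw [foldStep_iterate]
  simp

/-- Recursion on a natural number, provided the intermediate values stay polynomially bounded. -/
lemma natRec {f : α → σ} {g : α → ℕ → σ → σ} {n : α → ℕ} (hf : PTime f)
    (hg : PTime fun p : α × ℕ × σ => g p.1 p.2.1 p.2.2) (hn : PTime n) {h : α → ℕ} (hh : PB h)
    (hB : ∀ a i, i ≤ n a → sz (Nat.rec (motive := fun _ => σ) (f a) (g a) i) ≤ h a) :
    PTime (fun a => Nat.rec (motive := fun _ => σ) (f a) (g a) (n a)) := by
  have hstep : PTime (fun s : α × ℕ × σ => (s.1, s.2.1 + 1, g s.1 s.2.1 s.2.2)) :=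
    pair (fst id) (pair (succ (fst (snd id))) hg)
  have hs : PTime (fun a => (a, 0, f a)) := pair id (pair (const 0) hf)
  have hit : ∀ (a : α) (k : ℕ), (fun s : α × ℕ × σ => (s.1, s.2.1 + 1, g s.1 s.2.1 s.2.2))^[k]
      (a, 0, f a) = (a, k, Nat.rec (motive := fun _ => σ) (f a) (g a) k) := by
    intro a k
    induction k with
    | zero => rfl
    | succ k ih => rw [Function.iterate_succ_apply', ih]
  have hb : PB (fun a => 2 + sz a + sz (n a) + h a) :=
    (((PB.const 2).add PB.sz_self).add hn.pb).add hh
  have := iter hstep hs hn hb (fun a i hi => by
    rw [hit]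
    have := hB a i hi
    simp only [sz_pair, sz_nat]
    omega)
  refine (snd (snd this)).congr fun a => ?_
  rw [hit]

/-! ### Arithmetic (unary) -/

lemma add {f g : α → ℕ} (hf : PTime f) (hg : PTime g) : PTime (fun x => f x + g x) := by
  have e : ∀ (a : α) (i : ℕ), Nat.rec (motive := fun _ => ℕ) (f a) (fun _ s => s + 1) i = f a + i := by
    intro a i
    induction i with
    | zero => rfl
    | succ i ih => simp only [ih]; omega
  have := natRec (g := fun _ _ s => s + 1) hf (succ (snd (snd id))) hg (h := fun a => sz (f a) + sz (g a))
    (hf.pb.add hg.pb) (fun a i hi => by rw [e]; simp; omega)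
  exact this.congr fun a => (e a (g a)).symm

lemma mul {f g : α → ℕ} (hf : PTime f) (hg : PTime g) : PTime (fun x => f x * g x) := by
  have e : ∀ (a : α) (i : ℕ), Nat.rec (motive := fun _ => ℕ) 0 (fun _ s => s + f a) i = f a * i := by
    intro a i
    induction i with
    | zero => rfl
    | succ i ih => simp only [ih]; rw [Nat.mul_add, Nat.mul_one]
  have := natRec (f := fun _ => 0) (g := fun a _ s => s + f a) (const 0)
    (add (snd (snd id)) (hf.comp (fst id))) hg
    (h := fun a => 2 * (sz (f a) * sz (g a)) + 1)
    (((PB.const 2).mul (hf.pb.mul hg.pb)).add (PB.const 1)) (fun a i hi => by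
      rw [e]
      have : f a * i ≤ sz (f a) * sz (g a) := Nat.mul_le_mul (by simp; omega) (by simp; omega)
      simp only [sz_nat] at *
      omega)
  exact this.congr fun a => (e a (g a)).symm

lemma pred {f : α → ℕ} (hf : PTime f) : PTime (fun x => f x - 1) :=
  (natCases hf (const 0) (g := fun _ m => m) (snd id)).congr fun x => by cases f x <;> simp

lemma sub {f g : α → ℕ} (hf : PTime f) (hg : PTime g) : PTime (fun x => f x - g x) := by
  have e : ∀ (a : α) (i : ℕ), Nat.rec (motive := fun _ => ℕ) (f a) (fun _ s => s - 1) i = f a - i := by
    intro a i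
    induction i with
    | zero => rfl
    | succ i ih => simp only [ih]; omega
  have := natRec (g := fun _ _ s => s - 1) hf (pred (snd (snd id))) hg (h := fun a => sz (f a))
    hf.pb (fun a i hi => by rw [e]; simp)
  exact this.congr fun a => (e a (g a)).symm

lemma le {f g : α → ℕ} (hf : PTime f) (hg : PTime g) : PTime (fun x => decide (f x ≤ g x)) := by
  refine (natCases (sub hf hg) (const true) (g := fun _ _ => false) (const false)).congr fun x => ?_
  cases h : f x - g x with
  | zero => simp; omega
  | succ n => simp; omega

lemma lt {f g : α → ℕ} (hf : PTime f) (hg : PTime g) : PTime (fun x => decide (f x < g x)) :=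
  (le (succ hf) hg).congr fun x => by rw [decide_eq_decide]; omega

lemma natEq {f g : α → ℕ} (hf : PTime f) (hg : PTime g) : PTime (fun x => decide (f x = g x)) :=
  (decide_and (le hf hg) (le hg hf)).congr fun x => by
    rw [decide_eq_decide]; omega

lemma pow {f : α → ℕ} (hf : PTime f) (k : ℕ) : PTime (fun x => f x ^ k) := by
  induction k with
  | zero => exact (const 1).congr fun x => by simp
  | succ k ih => exact (mul ih hf).congr fun x => by rw [Nat.pow_succ]

lemma polyEval (P : ℕ[X]) {f : α → ℕ} (hf : PTime f) : PTime (fun x => P.eval (f x)) := by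
  induction P using Polynomial.induction_on' with
  | add p q hp hq => exact (add hp hq).congr fun x => by simp
  | monomial n a => exact (mul (const a) (pow hf n)).congr fun x => by simp

lemma max {f g : α → ℕ} (hf : PTime f) (hg : PTime g) : PTime (fun x => max (f x) (g x)) :=
  (ite (le hf hg) hg hf).congr fun x => by
    by_cases h : f x ≤ g x <;> simp [h]; omega

lemma min {f g : α → ℕ} (hf : PTime f) (hg : PTime g) : PTime (fun x => min (f x) (g x)) :=
  (ite (le hf hg) hf hg).congr fun x => by
    by_cases h : f x ≤ g x <;> simp [h]; omega

/-! ### Lists -/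

lemma reverse {l : α → List β} (hl : PTime l) : PTime (fun x => (l x).reverse) := by
  have e : ∀ (l acc : List β), l.foldl (fun acc b => b :: acc) acc = l.reverse ++ acc := by
    intro l
    induction l with
    | nil => simp
    | cons b l ih => intro acc; simp [ih]
  have hr : ∀ l : List β, sz l.reverse = sz l := by
    intro l
    induction l with
    | nil => rfl
    | cons b l ih =>
      have := sz_append l.reverse [b]
      simp at *
      omega
  have := foldl (f := fun _ acc b => b :: acc) (init := fun _ : α => ([] : List β)) (l := l)
    (cons (snd (snd id)) (fst (snd id))) (const []) hl (h := fun a => sz (l a)) hl.pb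
    (fun a l' hl' => by rw [e, List.append_nil, hr]; exact sz_le_of_prefix hl')
  exact this.congr fun a => by rw [e, List.append_nil]

lemma append {l l' : α → List β} (hl : PTime l) (hl' : PTime l') : PTime (fun x => l x ++ l' x) := by
  have e : ∀ (l acc : List β), l.foldl (fun acc b => b :: acc) acc = l.reverse ++ acc := by
    intro l
    induction l with
    | nil => simp
    | cons b l ih => intro acc; simp [ih]
  have := foldl (f := fun _ acc b => b :: acc) (init := l') (l := fun a => (l a).reverse)
    (cons (snd (snd id)) (fst (snd id))) hl' (reverse hl)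
    (h := fun a => sz ((l a).reverse) + sz (l' a))
    ((reverse hl).pb.add hl'.pb)
    (fun a m hm => by
      rw [e]
      have h1 := sz_append m.reverse (l' a)
      have h2 := sz_le_of_prefix hm
      have hr : ∀ l : List β, sz l.reverse = sz l := by
        intro l
        induction l with
        | nil => rfl
        | cons b l ih =>
          have := sz_append l.reverse [b]
          simp at *
          omega
      rw [hr] at h1
      rw [hr] at h2 ⊢
      omega)
  exact this.congr fun a => by rw [e, List.reverse_reverse]

omit [Enc β] in
lemma sz_flatMap_le (l : List β) (g : β → List γ) (K : ℕ) (hK : ∀ b ∈ l, sz (g b) ≤ K) :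
    sz (l.flatMap g) ≤ 1 + l.length * K := by
  induction l with
  | nil => simp
  | cons b l ih =>
    have h1 := ih (fun c hc => hK c (List.mem_cons_of_mem _ hc))
    have h2 := hK b List.mem_cons_self
    have h3 := sz_append (g b) (l.flatMap g)
    simp only [List.flatMap_cons, List.length_cons, Nat.add_mul, Nat.one_mul]
    omega

lemma flatMap {l : α → List β} {g : α → β → List γ} (hl : PTime l)
    (hg : PTime fun p : α × β => g p.1 p.2) : PTime (fun x => (l x).flatMap (g x)) := by
  have e : ∀ (a : α) (l : List β) (acc : List γ),
      l.foldl (fun acc b => acc ++ g a b) acc = acc ++ l.flatMap (g a) := by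
    intro a l
    induction l with
    | nil => simp
    | cons b l ih => intro acc; simp [ih]
  obtain ⟨B, hB⟩ := hg.exists_size_le
  have := foldl (f := fun a acc b => acc ++ g a b) (init := fun _ : α => ([] : List γ)) (l := l)
    (append (fst (snd id)) (comp2 hg (fst id) (snd (snd id)))) (const []) hl
    (h := fun a => 1 + sz (l a) * B.eval (1 + sz a + sz (l a)))
    ((PB.const 1).add (hl.pb.mul ((((PB.const 1).add PB.sz_self).add hl.pb).poly B)))
    (fun a l' hl' => by
      rw [e, List.nil_append]
      refine (sz_flatMap_le l' (g a) (B.eval (1 + sz a + sz (l a))) fun b hb => ?_).trans ?_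
      · refine (hB (a, b)).trans (eval_mono B ?_)
        have := sz_le_of_mem (hl'.subset hb)
        simp only [sz_pair]
        omega
      · have h1 : l'.length ≤ sz (l a) := by
          have := length_lt_sz (l a)
          have := hl'.length_le
          omega
        have := Nat.mul_le_mul_right (B.eval (1 + sz a + sz (l a))) h1
        omega)
  exact this.congr fun a => by rw [e, List.nil_append]

lemma map {l : α → List β} {g : α → β → γ} (hl : PTime l) (hg : PTime fun p : α × β => g p.1 p.2) :
    PTime (fun x => (l x).map (g x)) :=
  (flatMap (g := fun x b => [g x b]) hl (cons hg (const []))).congr fun x => by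
    induction l x with
    | nil => rfl
    | cons b l ih => simp [ih]

lemma filter {l : α → List β} {g : α → β → Bool} (hl : PTime l)
    (hg : PTime fun p : α × β => g p.1 p.2) : PTime (fun x => (l x).filter (g x)) := by
  refine (flatMap (g := fun x b => bif g x b then [b] else []) hl
    (cond hg (cons (snd id) (const [])) (const []))).congr fun x => ?_
  induction l x with
  | nil => rfl
  | cons b l ih =>
    cases h : g x b <;> simp [h, ih]

lemma filterMap {l : α → List β} {g : α → β → Option γ} (hl : PTime l)
    (hg : PTime fun p : α × β => g p.1 p.2) : PTime (fun x => (l x).filterMap (g x)) := by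
  refine (flatMap (g := fun x b => (g x b).toList) hl (toList hg)).congr fun x => ?_
  induction l x with
  | nil => rfl
  | cons b l ih =>
    cases h : g x b <;> simp [h, ih]

lemma flatten {l : α → List (List β)} (hl : PTime l) : PTime (fun x => (l x).flatten) :=
  (flatMap (g := fun _ b => b) hl (snd id)).congr fun x => by simp

lemma length {l : α → List β} (hl : PTime l) : PTime (fun x => (l x).length) :=
  (lengthUnits (map (g := fun _ _ => ()) hl (const ()))).congr fun x => by simp

lemma all {l : α → List β} {g : α → β → Bool} (hl : PTime l)
    (hg : PTime fun p : α × β => g p.1 p.2) : PTime (fun x => (l x).all (g x)) := by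
  refine (listCases (filter (g := fun x b => !g x b) hl (not hg)) (const true)
    (g := fun _ _ _ => false) (const false)).congr fun x => ?_
  cases h : (l x).filter (fun b => !g x b) with
  | nil =>
    simp only [List.filter_eq_nil_iff] at h
    simp at h ⊢
    exact h
  | cons b t =>
    have hb : b ∈ (l x).filter (fun b => !g x b) := by rw [h]; exact List.mem_cons_self
    simp only [List.mem_filter] at hb
    simp only [List.all_eq_false]
    exact ⟨b, hb.1, by simpa using hb.2⟩

lemma any {l : α → List β} {g : α → β → Bool} (hl : PTime l)
    (hg : PTime fun p : α × β => g p.1 p.2) : PTime (fun x => (l x).any (g x)) := by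
  refine (not (all (g := fun x b => !g x b) hl (not hg))).congr fun x => ?_
  rw [List.any_eq_not_all_not]

lemma decide_forall_mem {l : α → List β} {p : α → β → Prop} [∀ a b, Decidable (p a b)]
    [∀ a, Decidable (∀ b ∈ l a, p a b)] (hl : PTime l)
    (hg : PTime fun q : α × β => decide (p q.1 q.2)) : PTime (fun x => decide (∀ b ∈ l x, p x b)) :=
  (all (g := fun x b => decide (p x b)) hl hg).congr fun x => by
    rw [Bool.eq_iff_iff]; simp

lemma decide_exists_mem {l : α → List β} {p : α → β → Prop} [∀ a b, Decidable (p a b)]
    [∀ a, Decidable (∃ b ∈ l a, p a b)] (hl : PTime l)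
    (hg : PTime fun q : α × β => decide (p q.1 q.2)) : PTime (fun x => decide (∃ b ∈ l x, p x b)) :=
  (any (g := fun x b => decide (p x b)) hl hg).congr fun x => by
    rw [Bool.eq_iff_iff]; simp

lemma range {n : α → ℕ} (hn : PTime n) : PTime (fun x => List.range (n x)) := by
  have e : ∀ i : ℕ, Nat.rec (motive := fun _ => List ℕ) [] (fun i s => i :: s) i =
      (List.range i).reverse := by
    intro i
    induction i with
    | zero => rfl
    | succ i ih => simp only [ih, List.range_succ]; simp
  have := natRec (f := fun _ : α => ([] : List ℕ)) (g := fun _ i s => i :: s) (const [])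
    (cons (fst (snd id)) (snd (snd id))) hn
    (h := fun a => 1 + sz (n a) * (1 + sz (n a)))
    ((PB.const 1).add (hn.pb.mul ((PB.const 1).add hn.pb))) (fun a i hi => by
      rw [e]
      refine sz_list_le _ _ _ (by simp; omega) ?_
      intro b hb
      simp at hb
      simp
      omega)
  exact (reverse this).congr fun a => by rw [e, List.reverse_reverse]

lemma tail {l : α → List β} (hl : PTime l) : PTime (fun x => (l x).tail) :=
  (listCases hl (const []) (g := fun _ _ t => t) (snd (snd id))).congr fun x => by
    cases l x <;> rfl

lemma head? {l : α → List β} (hl : PTime l) : PTime (fun x => (l x).head?) :=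
  (listCases hl (const none) (g := fun _ b _ => Option.some b) (some (fst (snd id)))).congr fun x => by
    cases l x <;> rfl

lemma isEmpty {l : α → List β} (hl : PTime l) : PTime (fun x => (l x).isEmpty) :=
  (listCases hl (const true) (g := fun _ _ _ => false) (const false)).congr fun x => by
    cases l x <;> rfl

lemma drop {l : α → List β} {n : α → ℕ} (hn : PTime n) (hl : PTime l) :
    PTime (fun x => (l x).drop (n x)) := by
  have e : ∀ (l : List β) (i : ℕ), Nat.rec (motive := fun _ => List β) l (fun _ s => s.tail) i =
      l.drop i := by
    intro l i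
    induction i with
    | zero => rfl
    | succ i ih => simp only [ih]; simp
  have := natRec (f := l) (g := fun _ _ s => s.tail) hl (tail (snd (snd id))) hn
    (h := fun a => sz (l a)) hl.pb (fun a i hi => by rw [e]; exact sz_drop_le _ _)
  exact this.congr fun a => by rw [e]

lemma getElem? {l : α → List β} {n : α → ℕ} (hl : PTime l) (hn : PTime n) :
    PTime (fun x => (l x)[n x]?) :=
  (head? (drop hn hl)).congr fun x => by simp

lemma getD {o : α → Option β} {d : α → β} (ho : PTime o) (hd : PTime d) :
    PTime (fun x => (o x).getD (d x)) :=
  (optCases ho hd (g := fun _ b => b) (snd id)).congr fun x => by cases o x <;> rfl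

lemma listGetD {l : α → List β} {n : α → ℕ} {d : α → β} (hl : PTime l) (hn : PTime n)
    (hd : PTime d) : PTime (fun x => (l x).getD (n x) (d x)) :=
  (getD (getElem? hl hn) hd).congr fun x => by simp [List.getD]

lemma isSome {o : α → Option β} (ho : PTime o) : PTime (fun x => (o x).isSome) :=
  (optCases ho (const false) (g := fun _ _ => true) (const true)).congr fun x => by
    cases o x <;> rfl

lemma optMap {o : α → Option β} {g : α → β → γ} (ho : PTime o)
    (hg : PTime fun p : α × β => g p.1 p.2) : PTime (fun x => (o x).map (g x)) :=
  (optCases ho (const none) (g := fun x b => Option.some (g x b)) (some hg)).congr fun x => by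
    cases o x <;> rfl

lemma optBind {o : α → Option β} {g : α → β → Option γ} (ho : PTime o)
    (hg : PTime fun p : α × β => g p.1 p.2) : PTime (fun x => (o x).bind (g x)) :=
  (optCases ho (const none) (g := fun x b => g x b) hg).congr fun x => by
    cases o x <;> rfl

lemma take {l : α → List β} {n : α → ℕ} (hn : PTime n) (hl : PTime l) :
    PTime (fun x => (l x).take (n x)) := by
  refine (flatMap (g := fun x i => ((l x)[i]?).toList) (range hn)
    (toList (getElem? (hl.comp (fst id)) (snd id)))).congr fun x => ?_
  generalize l x = l
  generalize n x = n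
  induction n with
  | zero => simp
  | succ n ih =>
    rw [List.range_succ, List.flatMap_append, ← ih, List.take_add_one]
    simp

lemma replicate {n : α → ℕ} {f : α → β} (hn : PTime n) (hf : PTime f) :
    PTime (fun x => List.replicate (n x) (f x)) :=
  (map (g := fun x _ => f x) (range hn) (hf.comp (fst id))).congr fun x => by simp

lemma zip {l : α → List β} {l' : α → List γ} (hl : PTime l) (hl' : PTime l') :
    PTime (fun x => (l x).zip (l' x)) := by
  let step : List (β × γ) × List γ → β → List (β × γ) × List γ := fun s b =>
    List.casesOn (motive := fun _ => List (β × γ) × List γ) s.2 (s.1, [])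
      (fun c t => ((b, c) :: s.1, t))
  have e : ∀ (l : List β) (acc : List (β × γ)) (l' : List γ),
      l.foldl step (acc, l') = ((l.zip l').reverse ++ acc, l'.drop l.length) := by
    intro l
    induction l with
    | nil => intro acc l'; simp
    | cons b l ih =>
      intro acc l'
      cases l' with
      | nil =>
        have : step (acc, []) b = (acc, []) := rfl
        rw [List.foldl_cons, this, ih]
        simp
      | cons c t =>
        have : step (acc, c :: t) b = ((b, c) :: acc, t) := rfl
        rw [List.foldl_cons, this, ih]
        simp
  have hstep : PTime (fun p : α × (List (β × γ) × List γ) × β => step p.2.1 p.2.2) := by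
    refine listCases (snd (fst (snd id))) (pair (fst (fst (snd id))) (const [])) ?_
    exact pair (cons (pair (snd (snd (fst id))) (fst (snd id))) (fst (fst (snd (fst id)))))
      (snd (snd id))
  have := foldl (f := fun _ s b => step s b) (init := fun a => (([] : List (β × γ)), l' a)) (l := l)
    hstep (pair (const []) hl') hl
    (h := fun a => 1 + (1 + sz (l a) * (1 + (1 + sz (l a) + sz (l' a)))) + sz (l' a))
    (((PB.const 1).add ((PB.const 1).add (hl.pb.mul ((PB.const 1).add
      (((PB.const 1).add hl.pb).add hl'.pb))))).add hl'.pb)
    (fun a m hm => by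
      rw [e, List.append_nil]
      have h1 := sz_list_le ((m.zip (l' a)).reverse) (sz (l a)) (1 + sz (l a) + sz (l' a)) (by
        have := length_lt_sz (l a)
        have := hm.length_le
        simp
        omega) (by
        rintro ⟨b, c⟩ hb
        simp only [List.mem_reverse] at hb
        have hb1 := List.of_mem_zip hb
        have h2 := sz_le_of_mem (hm.subset hb1.1)
        have h3 := sz_le_of_mem hb1.2
        simp only [sz_pair]
        omega)
      have h2 := sz_drop_le (l' a) m.length
      simp only [sz_pair] at *
      omega)
  exact (reverse (fst this)).congr fun a => by rw [e]; simp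

end PTime

end TMLib
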