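import Pool.Agent.TM.Tree

/-!
# The class `PTime` of polynomial time functions between encoded types

`PTime f` says that some stack program, run on the tree code of `a` (on top of anything),
replaces it by the tree code of `f a` in time polynomial in the size of the code of `a`.
-/

namespace TMLib

open Polynomial

lemma eval_mono (T : ℕ[X]) {a b : ℕ} (h : a ≤ b) : T.eval a ≤ T.eval b := by
  rw [eval_eq_sum_range, eval_eq_sum_range]
  exact Finset.sum_le_sum fun i _ => Nat.mul_le_mul_left _ (Nat.pow_le_pow_left h i)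

/-- Types whose elements are encoded by trees. -/
class Enc (α : Type) where
  /-- the tree of an element -/
  enc : α → D

export Enc (enc)

/-- Size of the code of an element. -/
def sz {α : Type} [Enc α] (a : α) : ℕ := (enc a).size

/-- Polynomial time functions. -/
def PTime {α β : Type} [Enc α] [Enc β] (f : α → β) : Prop :=
  ∃ (p : Prog) (T : ℕ[X]), ∀ a r,
    Runs p (ms ((enc a).code ++ r)) (ms ((enc (f a)).code ++ r)) (T.eval (sz a))

/-- Polynomially bounded quantities. -/
def PB {α : Type} [Enc α] (g : α → ℕ) : Prop := ∃ B : ℕ[X], ∀ a, g a ≤ B.eval (sz a)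

instance : Enc D := ⟨fun x => x⟩
instance : Enc Unit := ⟨fun _ => .nil⟩
instance : Enc Bool := ⟨fun b => cond b (.cons .nil .nil) .nil⟩
instance : Enc ℕ := ⟨fun n => Nat.rec .nil (fun _ x => .cons .nil x) n⟩
instance {α β : Type} [Enc α] [Enc β] : Enc (α × β) := ⟨fun p => .cons (enc p.1) (enc p.2)⟩
instance {α : Type} [Enc α] : Enc (List α) := ⟨fun l => List.rec .nil (fun a _ x => .cons (enc a) x) l⟩
instance {α : Type} [Enc α] : Enc (Option α) := ⟨fun o => enc o.toList⟩

section enc_lemmas

variable {α β : Type} [Enc α] [Enc β]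

@[simp] lemma enc_D (x : D) : enc x = x := rfl
@[simp] lemma enc_unit (x : Unit) : enc x = D.nil := rfl
@[simp] lemma enc_true : enc true = D.cons .nil .nil := rfl
@[simp] lemma enc_false : enc false = D.nil := rfl
@[simp] lemma enc_zero : enc (0 : ℕ) = D.nil := rfl
@[simp] lemma enc_succ (n : ℕ) : enc (n + 1) = D.cons .nil (enc n) := rfl
@[simp] lemma enc_pair (a : α) (b : β) : enc (a, b) = D.cons (enc a) (enc b) := rfl
@[simp] lemma enc_nil : enc ([] : List α) = D.nil := rfl
@[simp] lemma enc_cons (a : α) (l : List α) : enc (a :: l) = D.cons (enc a) (enc l) := rfl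
@[simp] lemma enc_none : enc (none : Option α) = D.nil := rfl
@[simp] lemma enc_some (a : α) : enc (some a) = D.cons (enc a) D.nil := rfl

lemma sz_pos (a : α) : 1 ≤ sz a := D.size_pos _
@[simp] lemma sz_D (x : D) : sz x = x.size := rfl
@[simp] lemma sz_unit (x : Unit) : sz x = 1 := rfl
lemma sz_bool_le (b : Bool) : sz b ≤ 3 := by cases b <;> simp [sz]
@[simp] lemma sz_nat (n : ℕ) : sz n = 2 * n + 1 := by
  induction n with
  | zero => rfl
  | succ n ih =>
    have : sz (n + 1) = 2 + sz n := by simp [sz]
    omega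
@[simp] lemma sz_pair (p : α × β) : sz p = 1 + sz p.1 + sz p.2 := rfl
@[simp] lemma sz_nil : sz ([] : List α) = 1 := rfl
@[simp] lemma sz_cons (a : α) (l : List α) : sz (a :: l) = 1 + sz a + sz l := rfl
@[simp] lemma sz_none : sz (none : Option α) = 1 := rfl
@[simp] lemma sz_some (a : α) : sz (some a) = 2 + sz a := by simp [sz]; omega

lemma sz_list (l : List α) : sz l = 1 + (l.map fun a => 1 + sz a).sum := by
  induction l with
  | nil => rfl
  | cons a l ih => simp [ih]; omega

lemma length_lt_sz (l : List α) : 2 * l.length < sz l := by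
  induction l with
  | nil => simp
  | cons a l ih => have := sz_pos a; simp; omega

lemma sz_append (l l' : List α) : sz (l ++ l') + 1 = sz l + sz l' := by
  induction l with
  | nil => simp; omega
  | cons a l ih => simp; omega

lemma sz_le_of_mem {a : α} {l : List α} (h : a ∈ l) : sz a < sz l := by
  induction l with
  | nil => simp at h
  | cons b l ih =>
    have := sz_pos b
    have := sz_pos l
    rcases List.mem_cons.1 h with rfl | h
    · simp; omega
    · have := ih h
      simp; omega

lemma sz_le_of_prefix {l l' : List α} (h : l' <+: l) : sz l' ≤ sz l := by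
  obtain ⟨t, rfl⟩ := h
  have := sz_append l' t
  have := sz_pos t
  omega

lemma sz_list_le (l : List α) (n K : ℕ) (hn : l.length ≤ n) (hK : ∀ a ∈ l, sz a ≤ K) :
    sz l ≤ 1 + n * (1 + K) := by
  induction l generalizing n with
  | nil => simp
  | cons a l ih =>
    cases n with
    | zero => simp at hn
    | succ n =>
      have h1 := ih n (by simpa using hn) (fun b hb => hK b (List.mem_cons_of_mem _ hb))
      have h2 := hK a List.mem_cons_self
      simp only [sz_cons, Nat.add_mul, Nat.one_mul]
      omega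

end enc_lemmas

section

variable {α β γ δ : Type} [Enc α] [Enc β] [Enc γ] [Enc δ]

namespace PB

lemma mono {g h : α → ℕ} (hh : PB h) (hg : ∀ a, g a ≤ h a) : PB g := by
  obtain ⟨B, hB⟩ := hh
  exact ⟨B, fun a => (hg a).trans (hB a)⟩

lemma const (n : ℕ) : PB (fun _ : α => n) := ⟨C n, fun a => by simp⟩

lemma sz_self : PB (fun a : α => sz a) := ⟨X, fun a => by simp⟩

lemma add {g h : α → ℕ} (hg : PB g) (hh : PB h) : PB (fun a => g a + h a) := by
  obtain ⟨B, hB⟩ := hg
  obtain ⟨B', hB'⟩ := hh
  exact ⟨B + B', fun a => by simpa using Nat.add_le_add (hB a) (hB' a)⟩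

lemma mul {g h : α → ℕ} (hg : PB g) (hh : PB h) : PB (fun a => g a * h a) := by
  obtain ⟨B, hB⟩ := hg
  obtain ⟨B', hB'⟩ := hh
  exact ⟨B * B', fun a => by simpa using Nat.mul_le_mul (hB a) (hB' a)⟩

lemma poly {g : α → ℕ} (hg : PB g) (P : ℕ[X]) : PB (fun a => P.eval (g a)) := by
  obtain ⟨B, hB⟩ := hg
  exact ⟨P.comp B, fun a => by simpa using eval_mono P (hB a)⟩

end PB

namespace PTime

lemma size_le {f : α → β} {p : Prog} {T : ℕ[X]}
    (h : ∀ a r, Runs p (ms ((enc a).code ++ r)) (ms ((enc (f a)).code ++ r)) (T.eval (sz a)))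
    (a : α) : sz (f a) ≤ (X + T).eval (sz a) := by
  obtain ⟨t, ht, h1⟩ := h a []
  have := h1.tot_le
  simp [St.tot, ms] at this
  simp [sz] at *
  omega

/-- Output sizes are polynomially bounded. -/
lemma exists_size_le {f : α → β} (h : PTime f) : ∃ B : ℕ[X], ∀ a, sz (f a) ≤ B.eval (sz a) := by
  obtain ⟨p, T, h⟩ := h
  exact ⟨X + T, size_le h⟩

lemma pb {f : α → β} (h : PTime f) : PB (fun a => sz (f a)) := h.exists_size_le

lemma of_enc_eq {f : α → β} (h : ∀ a, enc (f a) = enc a) : PTime f :=
  ⟨.skip, 1, fun a r => by rw [h]; exact (Runs.skip _).mono (by simp)⟩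

lemma id : PTime (fun x : α => x) := of_enc_eq fun _ => rfl

lemma comp {g : β → γ} {f : α → β} (hg : PTime g) (hf : PTime f) : PTime (fun x => g (f x)) := by
  obtain ⟨p, T, hp⟩ := hg
  obtain ⟨q, U, hq⟩ := hf
  refine ⟨.seq q p, U + T.comp (X + U), fun x r => ?_⟩
  refine ((hq x r).seq (hp (f x) r)).mono ?_
  have h1 := eval_mono T (size_le hq x)
  simp only [eval_add, eval_comp, eval_X] at h1 ⊢
  omega

lemma congr {f g : α → β} (hf : PTime f) (h : ∀ a, g a = f a) : PTime g := by
  rwa [show g = f from funext h]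

lemma pair {f : α → β} {g : α → γ} (hf : PTime f) (hg : PTime g) :
    PTime (fun x => (f x, g x)) := by
  obtain ⟨p, T, hp⟩ := hf
  obtain ⟨q, U, hq⟩ := hg
  refine ⟨.seq dup (.seq q (.seq swap (.seq p (.push .m true)))),
    12 + 27 * X + U + 9 * (X + U) + T, fun x r => ?_⟩
  have h1 := (runs_dup (enc x) r).seq ((hq x ((enc x).code ++ r)).seq
    ((runs_swap (enc (g x)) (enc x) r).seq
    ((hp x ((enc (g x)).code ++ r)).seq (Runs.push .m true _))))
  have h2 := size_le hq x
  have e : (ms ((enc (f x)).code ++ ((enc (g x)).code ++ r))).set .m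
      (true :: (ms ((enc (f x)).code ++ ((enc (g x)).code ++ r))).get .m) =
      ms ((enc (f x, g x)).code ++ r) := by
    simp [ms, D.code]
  rw [e] at h1
  refine h1.mono ?_
  have h12 : eval (sz x) (12 : ℕ[X]) = 12 := by simp
  have h27 : eval (sz x) (27 : ℕ[X]) = 27 := by simp
  have h9 : eval (sz x) (9 : ℕ[X]) = 9 := by simp
  simp only [eval_add, eval_mul, eval_X, h12, h27, h9] at h2 ⊢
  change (g x |> sz) ≤ _ at h2
  simp only [sz] at *
  omega

lemma hd : PTime D.hd := by
  refine ⟨.ite .m isT (.seq (.pop .m) (.seq swap drop)) .skip, 20 + 30 * X, fun x r => ?_⟩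
  have h20 : eval (sz x) (20 : ℕ[X]) = 20 := by simp
  have h30 : eval (sz x) (30 : ℕ[X]) = 30 := by simp
  simp only [eval_add, eval_mul, eval_X, h20, h30, enc_D]
  cases x with
  | nil =>
    refine (Runs.iteF (by rfl) (Runs.skip _)).mono (by omega)
  | cons x y =>
    have h1 : Runs (.pop .m) (ms ((D.cons x y).code ++ r)) (ms (x.code ++ (y.code ++ r))) 1 := by
      have := Runs.pop .m (ms ((D.cons x y).code ++ r))
      simpa [ms, D.code] using this
    refine (Runs.iteT (by rfl) (h1.seq ((runs_swap x y r).seq (runs_drop y (x.code ++ r))))).mono ?_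
    simp only [sz_D, D.size_cons]
    omega

lemma tl : PTime D.tl := by
  refine ⟨.ite .m isT (.seq (.pop .m) drop) .skip, 20 + 30 * X, fun x r => ?_⟩
  have h20 : eval (sz x) (20 : ℕ[X]) = 20 := by simp
  have h30 : eval (sz x) (30 : ℕ[X]) = 30 := by simp
  simp only [eval_add, eval_mul, eval_X, h20, h30, enc_D]
  cases x with
  | nil =>
    refine (Runs.iteF (by rfl) (Runs.skip _)).mono (by omega)
  | cons x y =>
    have h1 : Runs (.pop .m) (ms ((D.cons x y).code ++ r)) (ms (x.code ++ (y.code ++ r))) 1 := by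
      have := Runs.pop .m (ms ((D.cons x y).code ++ r))
      simpa [ms, D.code] using this
    refine (Runs.iteT (by rfl) (h1.seq (runs_drop x (y.code ++ r)))).mono ?_
    simp only [sz_D, D.size_cons]
    omega

/-- The encoding itself is polynomial time (it does nothing). -/
lemma enc' : PTime (enc : α → D) := of_enc_eq fun _ => rfl

/-- A function is polynomial time as soon as its tree version is. -/
lemma of_tree {F : D → D} (hF : PTime F) {f : α → β} (h : ∀ a, enc (f a) = F (enc a)) :
    PTime f := by
  obtain ⟨p, T, hp⟩ := hF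
  refine ⟨p, T, fun a r => ?_⟩
  rw [h]
  exact hp (enc a) r

lemma to_tree {f : α → β} (h : PTime fun a => enc (f a)) : PTime f := h

lemma fst {f : α → β × γ} (hf : PTime f) : PTime (fun x => (f x).1) :=
  (of_tree hd (f := (Prod.fst : β × γ → β)) fun _ => rfl).comp hf

lemma snd {f : α → β × γ} (hf : PTime f) : PTime (fun x => (f x).2) :=
  (of_tree tl (f := (Prod.snd : β × γ → γ)) fun _ => rfl).comp hf

lemma const_D (d : D) : PTime (fun _ : α => d) := by
  induction d with
  | nil =>
    refine ⟨.seq drop (.push .m false), 20 + 30 * X, fun x r => ?_⟩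
    have h20 : eval (sz x) (20 : ℕ[X]) = 20 := by simp
    have h30 : eval (sz x) (30 : ℕ[X]) = 30 := by simp
    simp only [eval_add, eval_mul, eval_X, h20, h30]
    have h0 : (enc x).size = sz x := rfl
    exact ((runs_drop (enc x) r).seq (Runs.push .m false _)).mono (by omega)
  | cons x y ihx ihy =>
    exact (of_enc_eq (f := fun p : D × D => D.cons p.1 p.2) fun _ => rfl).comp (pair ihx ihy)

lemma const (b : β) : PTime (fun _ : α => b) := to_tree (const_D (enc b))

/-- Binary composition. -/
lemma comp2 {g : β → γ → δ} (hg : PTime (fun p : β × γ => g p.1 p.2)) {f₁ : α → β} {f₂ : α → γ}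
    (h₁ : PTime f₁) (h₂ : PTime f₂) : PTime (fun x => g (f₁ x) (f₂ x)) :=
  hg.comp (pair h₁ h₂)

/-- Case distinction on the tree of `c x`. -/
lemma treeCases {c : α → D} {f g : α → β} (hc : PTime c) (hf : PTime f) (hg : PTime g) :
    PTime (fun x => if c x = D.nil then f x else g x) := by
  obtain ⟨pc, Tc, hc⟩ := hc
  obtain ⟨p, T, hp⟩ := hf
  obtain ⟨q, U, hq⟩ := hg
  refine ⟨.seq dup (.seq pc (.ite .m isT (.seq drop q) (.seq drop p))),
    12 + 27 * X + Tc + 9 * (X + Tc) + T + U, fun x r => ?_⟩
  have h12 : eval (sz x) (12 : ℕ[X]) = 12 := by simp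
  have h27 : eval (sz x) (27 : ℕ[X]) = 27 := by simp
  have h9 : eval (sz x) (9 : ℕ[X]) = 9 := by simp
  have h2 := size_le hc x
  simp only [eval_add, eval_mul, eval_X, h12, h27, h9, sz_D] at h2 ⊢
  have h0 : (enc x).size = sz x := rfl
  by_cases hx : c x = D.nil
  · simp only [hx, if_true]
    have h1 : Runs (.ite .m isT (.seq drop q) (.seq drop p)) (ms ((c x).code ++ ((enc x).code ++ r)))
        (ms ((enc (f x)).code ++ r)) (1 + ((3 + 7 * (c x).size) + T.eval (sz x))) := by
      refine Runs.iteF ?_ ((runs_drop (c x) ((enc x).code ++ r)).seq (hp x r))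
      rw [hx]
      rfl
    refine ((runs_dup (enc x) r).seq ((hc x ((enc x).code ++ r)).seq h1)).mono ?_
    omega
  · simp only [hx, if_false]
    have h1 : Runs (.ite .m isT (.seq drop q) (.seq drop p)) (ms ((c x).code ++ ((enc x).code ++ r)))
        (ms ((enc (g x)).code ++ r)) (1 + ((3 + 7 * (c x).size) + U.eval (sz x))) := by
      refine Runs.iteT ?_ ((runs_drop (c x) ((enc x).code ++ r)).seq (hq x r))
      cases h : c x with
      | nil => exact absurd h hx
      | cons y z => rfl
    refine ((runs_dup (enc x) r).seq ((hc x ((enc x).code ++ r)).seq h1)).mono ?_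
    omega

/-- Case distinction on a boolean. -/
lemma cond {c : α → Bool} {f g : α → β} (hc : PTime c) (hf : PTime f) (hg : PTime g) :
    PTime (fun x => bif c x then f x else g x) := by
  refine (treeCases (enc'.comp hc) hg hf).congr fun x => ?_
  cases c x <;> simp

/-- Case distinction on a decidable proposition. -/
lemma ite {c : α → Prop} [∀ x, Decidable (c x)] {f g : α → β} (hc : PTime fun x => decide (c x))
    (hf : PTime f) (hg : PTime g) : PTime (fun x => if c x then f x else g x) := by
  refine (cond hc hf hg).congr fun x => ?_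
  by_cases h : c x <;> simp [h]

/-- Case distinction on a list; in the second case the function gets head and tail. -/
lemma listCases {l : α → List β} {f : α → γ} {g : α → β → List β → γ} (hl : PTime l) (hf : PTime f)
    (hg : PTime fun p : α × β × List β => g p.1 p.2.1 p.2.2) :
    PTime (fun x => List.casesOn (motive := fun _ => γ) (l x) (f x) (fun b t => g x b t)) := by
  obtain ⟨pc, Tc, hc⟩ := hl
  obtain ⟨p, T, hp⟩ := hf
  obtain ⟨q, U, hq⟩ := hg
  refine ⟨.seq dup (.seq pc (.ite .m isT (.seq swap (.seq (.push .m true) q)) (.seq drop p))),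
    20 + 27 * X + Tc + 9 * (X + Tc) + T + 9 * X + U.comp (1 + X + (X + Tc)), fun x r => ?_⟩
  have h20 : eval (sz x) (20 : ℕ[X]) = 20 := by simp
  have h27 : eval (sz x) (27 : ℕ[X]) = 27 := by simp
  have h9 : eval (sz x) (9 : ℕ[X]) = 9 := by simp
  have h1' : eval (sz x) (1 : ℕ[X]) = 1 := by simp
  have h2 := size_le hc x
  simp only [eval_add, eval_mul, eval_X, eval_comp, h20, h27, h9, h1'] at h2 ⊢
  have h0 : (enc x).size = sz x := rfl
  have hdup := runs_dup (enc x) r
  have hpc := hc x ((enc x).code ++ r)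
  cases hx : l x with
  | nil =>
    rw [hx] at hpc h2
    have h1 : Runs (.ite .m isT (.seq swap (.seq (.push .m true) q)) (.seq drop p))
        (ms ((enc ([] : List β)).code ++ ((enc x).code ++ r)))
        (ms ((enc (f x)).code ++ r)) (1 + ((3 + 7 * (enc ([] : List β)).size) + T.eval (sz x))) :=
      Runs.iteF rfl ((runs_drop (enc ([] : List β)) ((enc x).code ++ r)).seq (hp x r))
    refine (hdup.seq (hpc.seq h1)).mono ?_
    simp only [enc_nil, D.size_nil]
    omega
  | cons b t =>
    rw [hx] at hpc h2
    have e : (ms ((enc x).code ++ ((enc (b :: t)).code ++ r))).set .m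
        (true :: (ms ((enc x).code ++ ((enc (b :: t)).code ++ r))).get .m) =
        ms ((enc (x, b, t)).code ++ r) := by
      simp [ms, D.code]
    have h1 : Runs (.ite .m isT (.seq swap (.seq (.push .m true) q)) (.seq drop p))
        (ms ((enc (b :: t)).code ++ ((enc x).code ++ r)))
        (ms ((enc (g x b t)).code ++ r))
          (1 + ((6 + 9 * (enc (b :: t)).size + 9 * (enc x).size) + (1 + U.eval (sz (x, b, t))))) := by
      refine Runs.iteT rfl ((runs_swap (enc (b :: t)) (enc x) r).seq ((Runs.push .m true _).seq ?_))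
      rw [e]
      exact hq (x, b, t) r
    refine (hdup.seq (hpc.seq h1)).mono ?_
    have h3 : (enc (b :: t)).size = sz (b :: t) := rfl
    have h4 : sz (x, b, t) = 1 + sz x + sz (b :: t) := rfl
    have h5 : U.eval (sz (x, b, t)) ≤ U.eval (1 + sz x + (sz x + Tc.eval (sz x))) :=
      eval_mono U (by omega)
    omega

/-- The loop used for iteration. -/
def iterLoop (p : Prog) : Prog :=
  .loop .m isT (.seq (.pop .m) (.seq drop (.seq swap (.seq p swap))))

lemma runs_iterLoop {f : α → α} {p : Prog} {T : ℕ[X]}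
    (hp : ∀ a r, Runs p (ms ((enc a).code ++ r)) (ms ((enc (f a)).code ++ r)) (T.eval (sz a)))
    (Y S : ℕ) (y : D) : ∀ (x : α) (r : List Bool), y.size ≤ Y →
      (∀ i ≤ y.len, sz (f^[i] x) ≤ S) →
      Runs (iterLoop p) (ms (y.code ++ ((enc x).code ++ r)))
        (ms (false :: ((enc (f^[y.len] x)).code ++ r)))
        (1 + y.len * (24 + 25 * Y + 18 * S + T.eval S)) := by
  induction y with
  | nil =>
    intro x r hY hS
    exact (Runs.loopF (by rfl)).mono (by simp)
  | cons h y _ ih =>
    intro x r hY hS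
    simp only [D.size_cons, D.len_cons] at hY hS ⊢
    have h1 : Runs (.pop .m) (ms ((D.cons h y).code ++ ((enc x).code ++ r)))
        (ms (h.code ++ (y.code ++ ((enc x).code ++ r)))) 1 := by
      have := Runs.pop .m (ms ((D.cons h y).code ++ ((enc x).code ++ r)))
      simpa [ms, D.code] using this
    have h2 := h1.seq ((runs_drop h (y.code ++ ((enc x).code ++ r))).seq
      ((runs_swap y (enc x) r).seq
      ((hp x (y.code ++ r)).seq (runs_swap (enc (f x)) y r))))
    have h3 := ih (f x) r (by omega) (fun i hi => by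
      have := hS (i + 1) (by omega)
      simpa using this)
    have h4 := Runs.loopT (k := .m) (f := isT) (by rfl) h2 h3
    have hx : sz x ≤ S := hS 0 (by omega)
    have hfx : sz (f x) ≤ S := by
      have := hS 1 (by omega)
      simpa using this
    have hT := eval_mono T hx
    rw [Function.iterate_succ_apply]
    refine h4.mono ?_
    have e1 : (enc x).size = sz x := rfl
    have e3 : (enc (f x)).size = sz (f x) := rfl
    rw [Nat.add_mul]
    omega

/-- Iteration of a polynomial time function from a starting value; the number of iterations is the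
length of the right spine of a tree. -/
lemma iterT {f : β → β} {s : α → β} {n : α → D} (hf : PTime f) (hs : PTime s) (hn : PTime n)
    {h : α → ℕ} (hh : PB h) (hB : ∀ x, ∀ i ≤ (n x).len, sz (f^[i] (s x)) ≤ h x) :
    PTime (fun x => f^[(n x).len] (s x)) := by
  obtain ⟨B, hB'⟩ := hh
  obtain ⟨p, T, hp⟩ := hf
  obtain ⟨q, U, hq⟩ := hn
  obtain ⟨q', U', hq'⟩ := hs
  refine ⟨.seq dup (.seq q' (.seq swap (.seq q (.seq (iterLoop p) (.pop .m))))),
    13 + 27 * X + U + U' + 9 * (X + U') +
      (X + U) * (24 + 25 * (X + U) + 18 * B + T.comp B), fun x r => ?_⟩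
  have hs := size_le hq x
  have hs' := size_le hq' x
  have h1 := runs_iterLoop hp ((X + U).eval (sz x)) (B.eval (sz x)) (n x) (s x) r hs
    (fun i hi => (hB x i hi).trans (hB' x))
  have h2 := (runs_dup (enc x) r).seq ((hq' x ((enc x).code ++ r)).seq
    ((runs_swap (enc (s x)) (enc x) r).seq ((hq x ((enc (s x)).code ++ r)).seq
    (h1.seq (Runs.pop .m _)))))
  refine h2.mono ?_
  have h7 : eval (sz x) (13 : ℕ[X]) = 13 := by simp
  have h18 : eval (sz x) (18 : ℕ[X]) = 18 := by simp
  have h24 : eval (sz x) (24 : ℕ[X]) = 24 := by simp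
  have h25 : eval (sz x) (25 : ℕ[X]) = 25 := by simp
  have h27 : eval (sz x) (27 : ℕ[X]) = 27 := by simp
  have h9 : eval (sz x) (9 : ℕ[X]) = 9 := by simp
  have e1 : (enc x).size = sz x := rfl
  have e2 : (enc (s x)).size = sz (s x) := rfl
  have hl := (n x).len_le_size
  simp only [eval_add, eval_mul, eval_X, eval_comp, h7, h24, h18, h25, h9, h27, sz_D] at hs hs' ⊢
  have := Nat.mul_le_mul_right (24 + 25 * (sz x + U.eval (sz x)) + 18 * B.eval (sz x) +
    T.eval (B.eval (sz x))) (hl.trans hs)
  omega

@[simp] lemma _root_.TMLib.len_enc_nat (n : ℕ) : (enc n).len = n := by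
  induction n with
  | zero => rfl
  | succ n ih => simp [ih]

@[simp] lemma _root_.TMLib.len_enc_list (l : List α) : (enc l).len = l.length := by
  induction l with
  | nil => rfl
  | cons a l ih => simp [ih]

/-- Iteration of a polynomial time function a polynomial number of times, provided the
intermediate values stay polynomially bounded. -/
lemma iter {f : β → β} {s : α → β} {n : α → ℕ} (hf : PTime f) (hs : PTime s) (hn : PTime n)
    {h : α → ℕ} (hh : PB h) (hB : ∀ x, ∀ i ≤ n x, sz (f^[i] (s x)) ≤ h x) :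
    PTime (fun x => f^[n x] (s x)) := by
  refine (iterT hf hs (enc'.comp hn) hh
    (fun x i hi => hB x i (by simpa using hi))).congr fun x => ?_
  simp

end PTime

end

end TMLib
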