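import Mathlib

/-!
# Structured programs over four stacks of bits, and their compilation to Mathlib's `TM2`

`Prog` is a small structured language (push, pop, sequencing, test of the top of a stack, while
loop) over four stacks of booleans.  `Run p s s' t` is its big-step semantics; `t` counts exactly
the steps of the `TM2` machine the program is compiled to (`reach_of_run`).
-/

namespace TMLib

open Turing

/-- The four stacks. -/
inductive Stk | m | a | b | c
deriving DecidableEq

instance : Fintype Stk where
  elems := {.m, .a, .b, .c}
  complete := fun x => by cases x <;> simp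

/-- Contents of the four stacks. -/
@[ext] structure St where
  m : List Bool
  a : List Bool
  b : List Bool
  c : List Bool

namespace St

/-- Contents of stack `k`. -/
def get (s : St) : Stk → List Bool
  | .m => s.m
  | .a => s.a
  | .b => s.b
  | .c => s.c

/-- Overwrite the contents of stack `k`. -/
def set (s : St) : Stk → List Bool → St
  | .m, l => { s with m := l }
  | .a, l => { s with a := l }
  | .b, l => { s with b := l }
  | .c, l => { s with c := l }

@[simp] lemma get_m (s : St) : s.get .m = s.m := rfl
@[simp] lemma get_a (s : St) : s.get .a = s.a := rfl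
@[simp] lemma get_b (s : St) : s.get .b = s.b := rfl
@[simp] lemma get_c (s : St) : s.get .c = s.c := rfl
@[simp] lemma set_m (s : St) (l) : s.set .m l = { s with m := l } := rfl
@[simp] lemma set_a (s : St) (l) : s.set .a l = { s with a := l } := rfl
@[simp] lemma set_b (s : St) (l) : s.set .b l = { s with b := l } := rfl
@[simp] lemma set_c (s : St) (l) : s.set .c l = { s with c := l } := rfl

lemma get_set (s : St) (k : Stk) (l : List Bool) :
    (s.set k l).get = Function.update s.get k l := by
  funext k'
  cases k <;> cases k' <;> rfl

/-- Total length of all stacks. -/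
def tot (s : St) : ℕ := s.m.length + s.a.length + s.b.length + s.c.length

end St

/-- Structured programs. -/
inductive Prog
  | skip
  | push (k : Stk) (b : Bool)
  | pop (k : Stk)
  | seq (p q : Prog)
  | ite (k : Stk) (f : Option Bool → Bool) (p q : Prog)
  | loop (k : Stk) (f : Option Bool → Bool) (p : Prog)

/-- Big-step semantics, with the exact number of machine steps. -/
inductive Run : Prog → St → St → ℕ → Prop
  | skip (s) : Run .skip s s 1
  | push (k b s) : Run (.push k b) s (s.set k (b :: s.get k)) 1
  | pop (k s) : Run (.pop k) s (s.set k (s.get k).tail) 1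
  | seq {p q s s' s'' t t'} : Run p s s' t → Run q s' s'' t' → Run (.seq p q) s s'' (t + t')
  | iteT {k f p q s s' t} : f (s.get k).head? = true → Run p s s' t →
      Run (.ite k f p q) s s' (1 + t)
  | iteF {k f p q s s' t} : f (s.get k).head? = false → Run q s s' t →
      Run (.ite k f p q) s s' (1 + t)
  | loopF {k f p s} : f (s.get k).head? = false → Run (.loop k f p) s s 1
  | loopT {k f p s s' s'' t t'} : f (s.get k).head? = true → Run p s s' t →
      Run (.loop k f p) s' s'' t' → Run (.loop k f p) s s'' (1 + t + t')

/-- Program points. -/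
def Lbl : Prog → Type
  | .skip => Unit
  | .push _ _ => Unit
  | .pop _ => Unit
  | .seq p q => Lbl p ⊕ Lbl q
  | .ite _ _ p q => Option (Lbl p ⊕ Lbl q)
  | .loop _ _ p => Option (Lbl p)

/-- There are finitely many program points. -/
@[instance_reducible]
def fintypeLbl : (p : Prog) → Fintype (Lbl p)
  | .skip => inferInstanceAs (Fintype Unit)
  | .push _ _ => inferInstanceAs (Fintype Unit)
  | .pop _ => inferInstanceAs (Fintype Unit)
  | .seq p q =>
      letI := fintypeLbl p
      letI := fintypeLbl q
      inferInstanceAs (Fintype (Lbl p ⊕ Lbl q))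
  | .ite _ _ p q =>
      letI := fintypeLbl p
      letI := fintypeLbl q
      inferInstanceAs (Fintype (Option (Lbl p ⊕ Lbl q)))
  | .loop _ _ p =>
      letI := fintypeLbl p
      inferInstanceAs (Fintype (Option (Lbl p)))

instance (p : Prog) : Fintype (Lbl p) := fintypeLbl p

/-- The first program point. -/
def entry : (p : Prog) → Lbl p
  | .skip => ()
  | .push _ _ => ()
  | .pop _ => ()
  | .seq p _ => Sum.inl (entry p)
  | .ite _ _ _ _ => (none : Option _)
  | .loop _ _ _ => (none : Option _)

/-- The stack alphabets of the machine. -/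
abbrev Γb : Stk → Type := fun _ => Bool

/-- Statement that tests the top of stack `k` and jumps. -/
def test {Λ : Type} (k : Stk) (f : Option Bool → Bool) (l₁ l₂ : Λ) :
    TM2.Stmt Γb Λ (Option Bool) :=
  .peek k (fun _ o => o)
    (.branch f (.load (fun _ => none) (.goto fun _ => l₁)) (.load (fun _ => none) (.goto fun _ => l₂)))

/-- The statement at each program point; `ι` embeds the program points, `ex` is the exit. -/
def stmtOf {Λ : Type} : (p : Prog) → (Lbl p → Λ) → Λ → Lbl p → TM2.Stmt Γb Λ (Option Bool)
  | .skip, _, ex, _ => .goto fun _ => ex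
  | .push k b, _, ex, _ => .push k (fun _ => b) (.goto fun _ => ex)
  | .pop k, _, ex, _ => .pop k (fun s _ => s) (.goto fun _ => ex)
  | .seq p q, ι, ex, l =>
      Sum.rec (fun l => stmtOf p (fun x => ι (Sum.inl x)) (ι (Sum.inr (entry q))) l)
        (fun l => stmtOf q (fun x => ι (Sum.inr x)) ex l) l
  | .ite k f p q, ι, ex, l =>
      Option.rec (test k f (ι (some (Sum.inl (entry p)) : Option _))
          (ι (some (Sum.inr (entry q)) : Option _)))
        (fun l => Sum.rec (fun l => stmtOf p (fun x => ι (some (Sum.inl x) : Option _)) ex l)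
          (fun l => stmtOf q (fun x => ι (some (Sum.inr x) : Option _)) ex l) l) l
  | .loop k f p, ι, ex, l =>
      Option.rec (test k f (ι (some (entry p) : Option _)) ex)
        (fun l => stmtOf p (fun x => ι (some x : Option _)) (ι (none : Option _)) l) l

/-- Configuration of the machine at a label, with the internal state reset. -/
def cfg {Λ : Type} (l : Option Λ) (s : St) : TM2.Cfg Γb Λ (Option Bool) := ⟨l, none, s.get⟩

/-- `c'` is reached from `c` in exactly `t` machine steps. -/
def Reach {Λ : Type} (M : Λ → TM2.Stmt Γb Λ (Option Bool)) (c c' : TM2.Cfg Γb Λ (Option Bool))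
    (t : ℕ) : Prop :=
  (flip bind (TM2.step M))^[t] (some c) = some c'

lemma Reach.trans {Λ : Type} {M : Λ → TM2.Stmt Γb Λ (Option Bool)} {c c' c''} {t t' : ℕ}
    (h : Reach M c c' t) (h' : Reach M c' c'' t') : Reach M c c'' (t + t') := by
  unfold Reach at *
  rw [Nat.add_comm, Function.iterate_add_apply, h, h']

lemma Reach.one {Λ : Type} {M : Λ → TM2.Stmt Γb Λ (Option Bool)} {c c'}
    (h : TM2.step M c = some c') : Reach M c c' 1 := by
  simpa [Reach, flip] using h

/-- The compiled machine simulates the big-step semantics. -/
theorem reach_of_run {Λ : Type} (M : Λ → TM2.Stmt Γb Λ (Option Bool)) {p : Prog} {s s' : St}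
    {t : ℕ} (h : Run p s s' t) : ∀ (ι : Lbl p → Λ) (ex : Λ),
      (∀ l, M (ι l) = stmtOf p ι ex l) → Reach M (cfg (some (ι (entry p))) s) (cfg (some ex) s') t := by
  induction h with
  | skip s =>
    intro ι ex hM
    apply Reach.one
    simp [cfg, hM, stmtOf]
  | push k b s =>
    intro ι ex hM
    apply Reach.one
    simp [cfg, hM, stmtOf, St.get_set]
  | pop k s =>
    intro ι ex hM
    apply Reach.one
    simp [cfg, hM, stmtOf, St.get_set]
  | @seq p q s s' s'' t t' h1 h2 ih1 ih2 =>
    intro ι ex hM
    exact (ih1 (fun x => ι (Sum.inl x)) (ι (Sum.inr (entry q))) fun l => hM (Sum.inl l)).trans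
      (ih2 (fun x => ι (Sum.inr x)) ex fun l => hM (Sum.inr l))
  | @iteT k f p q s s' t hf h1 ih1 =>
    intro ι ex hM
    refine Reach.trans (c' := cfg (some (ι (some (Sum.inl (entry p)) : Option _))) s)
      (Reach.one ?_) (ih1 (fun x => ι (some (Sum.inl x) : Option _)) ex
        fun l => hM (some (Sum.inl l) : Option _))
    have h0 := hM (none : Option _)
    change TM2.step M ⟨some (ι (none : Option _)), none, s.get⟩ = _
    rw [TM2.step, h0]
    simp [stmtOf, test, hf, cfg]
  | @iteF k f p q s s' t hf h1 ih1 =>
    intro ι ex hM
    refine Reach.trans (c' := cfg (some (ι (some (Sum.inr (entry q)) : Option _))) s)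
      (Reach.one ?_) (ih1 (fun x => ι (some (Sum.inr x) : Option _)) ex
        fun l => hM (some (Sum.inr l) : Option _))
    have h0 := hM (none : Option _)
    change TM2.step M ⟨some (ι (none : Option _)), none, s.get⟩ = _
    rw [TM2.step, h0]
    simp [stmtOf, test, hf, cfg]
  | @loopF k f p s hf =>
    intro ι ex hM
    apply Reach.one
    have h0 := hM (none : Option _)
    change TM2.step M ⟨some (ι (none : Option _)), none, s.get⟩ = _
    rw [TM2.step, h0]
    simp [stmtOf, test, hf, cfg]
  | @loopT k f p s s' s'' t t' hf h1 h2 ih1 ih2 =>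
    intro ι ex hM
    refine Reach.trans (Reach.trans (c' := cfg (some (ι (some (entry p) : Option _))) s)
      (Reach.one ?_) (ih1 (fun x => ι (some x : Option _)) (ι (none : Option _))
        fun l => hM (some l : Option _))) (ih2 ι ex hM)
    have h0 := hM (none : Option _)
    change TM2.step M ⟨some (ι (none : Option _)), none, s.get⟩ = _
    rw [TM2.step, h0]
    simp [stmtOf, test, hf, cfg]

/-- A run adds at most one symbol per step. -/
lemma Run.tot_le {p : Prog} {s s' : St} {t : ℕ} (h : Run p s s' t) : s'.tot ≤ s.tot + t := by
  induction h with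
  | skip s => omega
  | push k b s => cases k <;> simp [St.tot] <;> omega
  | pop k s => cases k <;> simp [St.tot] <;> omega
  | seq _ _ ih1 ih2 => omega
  | iteT _ _ ih => omega
  | iteF _ _ ih => omega
  | loopF _ => omega
  | loopT _ _ _ ih1 ih2 => omega

/-- The machine of a program, with input and output stack `a`. -/
def machine (p : Prog) : FinTM2 where
  K := Stk
  k₀ := .a
  k₁ := .a
  Γ := Γb
  Λ := Option (Lbl p)
  main := some (entry p)
  σ := Option Bool
  initialState := none
  Γk₀Fin := inferInstanceAs (Fintype Bool)
  m l := Option.rec .halt (fun l => stmtOf p some none l) l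

/-- State with everything on stack `a`. -/
def St.ofA (l : List Bool) : St := ⟨[], l, [], []⟩

theorem outputsInTime_of_run {p : Prog} {l l' : List Bool} {t T : ℕ}
    (h : Run p (.ofA l) (.ofA l') t) (hT : t + 1 ≤ T) :
    Nonempty (TM2OutputsInTime (machine p) l (some l') T) := by
  have h1 := reach_of_run (machine p).m h some none (fun l => rfl)
  have h2 : Reach (machine p).m (cfg (some none) (.ofA l')) (cfg none (.ofA l')) 1 := by
    apply Reach.one
    rfl
  have h3 := h1.trans h2
  refine ⟨⟨⟨t + 1, ?_⟩, hT⟩⟩
  have e1 : initList (machine p) l = cfg (some (some (entry p))) (.ofA l) := by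
    simp only [initList, cfg]
    congr 1
    funext k
    cases k <;> rfl
  have e2 : haltList (machine p) l' = cfg none (.ofA l') := by
    simp only [haltList, cfg]
    congr 1
    funext k
    cases k <;> rfl
  change (flip bind (TM2.step (machine p).m))^[t + 1] (some (initList (machine p) l)) =
    some (haltList (machine p) l')
  rw [e1, e2]
  exact h3

end TMLib
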