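import Pool.Agent.TM.Prog

/-!
# Binary trees as data, and the class of polynomial time functions on trees

A tree is stored on stack `m` in prefix notation; programs work on the tree on top of stack `m`
and leave what is below it untouched.
-/

namespace TMLib

open Polynomial

/-- Binary trees. -/
inductive D
  | nil
  | cons (x y : D)
deriving DecidableEq

namespace D

/-- Prefix code. -/
def code : D → List Bool
  | nil => [false]
  | cons x y => true :: (x.code ++ y.code)

/-- Size, the length of the prefix code. -/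
def size : D → ℕ
  | nil => 1
  | cons x y => 1 + x.size + y.size

@[simp] lemma length_code (x : D) : x.code.length = x.size := by
  induction x with
  | nil => rfl
  | cons x y ihx ihy => simp [code, size, ihx, ihy]; omega

lemma size_pos (x : D) : 1 ≤ x.size := by cases x <;> simp [size]; omega

/-- First component (`nil` for `nil`). -/
def hd : D → D
  | nil => nil
  | cons x _ => x

/-- Second component (`nil` for `nil`). -/
def tl : D → D
  | nil => nil
  | cons _ y => y

/-- Length of the right spine. -/
def len : D → ℕ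
  | nil => 0
  | cons _ y => y.len + 1

@[simp] lemma hd_nil : hd nil = nil := rfl
@[simp] lemma hd_cons (x y : D) : hd (cons x y) = x := rfl
@[simp] lemma tl_nil : tl nil = nil := rfl
@[simp] lemma tl_cons (x y : D) : tl (cons x y) = y := rfl
@[simp] lemma len_nil : len nil = 0 := rfl
@[simp] lemma len_cons (x y : D) : len (cons x y) = len y + 1 := rfl
@[simp] lemma size_nil : size nil = 1 := rfl
@[simp] lemma size_cons (x y : D) : size (cons x y) = 1 + x.size + y.size := rfl

lemma len_le_size (x : D) : x.len ≤ x.size := by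
  induction x with
  | nil => simp
  | cons x y _ ih => simp; have := x.size_pos; omega

lemma size_hd_le (x : D) : x.hd.size ≤ x.size := by cases x <;> simp; omega
lemma size_tl_le (x : D) : x.tl.size ≤ x.size := by cases x <;> simp

end D

/-- `p` runs from `s` to `s'` in at most `T` steps. -/
def Runs (p : Prog) (s s' : St) (T : ℕ) : Prop := ∃ t ≤ T, Run p s s' t

namespace Runs

lemma mono {p : Prog} {s s' : St} {T T' : ℕ} (h : Runs p s s' T) (hT : T ≤ T') :
    Runs p s s' T' := by
  obtain ⟨t, ht, h⟩ := h
  exact ⟨t, ht.trans hT, h⟩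

lemma seq {p q : Prog} {s s' s'' : St} {T T' : ℕ} (h : Runs p s s' T) (h' : Runs q s' s'' T') :
    Runs (.seq p q) s s'' (T + T') := by
  obtain ⟨t, ht, h⟩ := h
  obtain ⟨t', ht', h'⟩ := h'
  exact ⟨t + t', by omega, h.seq h'⟩

lemma skip (s : St) : Runs .skip s s 1 := ⟨1, le_rfl, .skip s⟩

lemma push (k : Stk) (b : Bool) (s : St) : Runs (.push k b) s (s.set k (b :: s.get k)) 1 :=
  ⟨1, le_rfl, .push k b s⟩

lemma pop (k : Stk) (s : St) : Runs (.pop k) s (s.set k (s.get k).tail) 1 :=
  ⟨1, le_rfl, .pop k s⟩

lemma iteT {k : Stk} {f : Option Bool → Bool} {p q : Prog} {s s' : St} {T : ℕ}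
    (hf : f (s.get k).head? = true) (h : Runs p s s' T) : Runs (.ite k f p q) s s' (1 + T) := by
  obtain ⟨t, ht, h⟩ := h
  exact ⟨1 + t, by omega, .iteT hf h⟩

lemma iteF {k : Stk} {f : Option Bool → Bool} {p q : Prog} {s s' : St} {T : ℕ}
    (hf : f (s.get k).head? = false) (h : Runs q s s' T) : Runs (.ite k f p q) s s' (1 + T) := by
  obtain ⟨t, ht, h⟩ := h
  exact ⟨1 + t, by omega, .iteF hf h⟩

lemma loopF {k : Stk} {f : Option Bool → Bool} {p : Prog} {s : St}
    (hf : f (s.get k).head? = false) : Runs (.loop k f p) s s 1 := ⟨1, le_rfl, .loopF hf⟩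

lemma loopT {k : Stk} {f : Option Bool → Bool} {p : Prog} {s s' s'' : St} {T T' : ℕ}
    (hf : f (s.get k).head? = true) (h : Runs p s s' T) (h' : Runs (.loop k f p) s' s'' T') :
    Runs (.loop k f p) s s'' (1 + T + T') := by
  obtain ⟨t, ht, h⟩ := h
  obtain ⟨t', ht', h'⟩ := h'
  exact ⟨1 + t + t', by omega, .loopT hf h h'⟩

end Runs

/-- Is there a top symbol? -/
def isS : Option Bool → Bool := fun o => o.isSome

/-- Is the top symbol `true`? -/
def isT : Option Bool → Bool := fun o => o == some true

@[simp] lemma isS_none : isS none = false := rfl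
@[simp] lemma isS_some (b : Bool) : isS (some b) = true := rfl
@[simp] lemma isT_true : isT (some true) = true := rfl
@[simp] lemma isT_false : isT (some false) = false := rfl
@[simp] lemma isT_none : isT none = false := rfl

/-- Pop a symbol from `k` and push it on `k'`. -/
def mv (k k' : Stk) : Prog :=
  .ite k isT (.seq (.pop k) (.push k' true)) (.seq (.pop k) (.push k' false))

/-- Pop a symbol from `k` and push it on `k'` and on `k''`. -/
def mv2 (k k' k'' : Stk) : Prog :=
  .ite k isT (.seq (.pop k) (.seq (.push k' true) (.push k'' true)))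
    (.seq (.pop k) (.seq (.push k' false) (.push k'' false)))

/-- Move stack `k` to `k'`, reversing. -/
def mvAll (k k' : Stk) : Prog := .loop k isS (mv k k')

/-- Move stack `k` to `k'` and `k''`, reversing. -/
def mvAll2 (k k' k'' : Stk) : Prog := .loop k isS (mv2 k k' k'')

lemma runs_mvAll_am (l m b c : List Bool) :
    Runs (mvAll .a .m) ⟨m, l, b, c⟩ ⟨l.reverse ++ m, [], b, c⟩ (1 + 4 * l.length) := by
  induction l generalizing m with
  | nil => exact (Runs.loopF rfl).mono (by simp)
  | cons x l ih =>
    have h1 : Runs (mv .a .m) ⟨m, x :: l, b, c⟩ ⟨x :: m, l, b, c⟩ 3 := by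
      cases x
      · exact Runs.iteF rfl ((Runs.pop _ _).seq (Runs.push _ _ _))
      · exact Runs.iteT rfl ((Runs.pop _ _).seq (Runs.push _ _ _))
    have h2 := Runs.loopT (k := .a) (f := isS) rfl h1 (ih (x :: m))
    simp only [List.reverse_cons, List.append_assoc, List.singleton_append, List.length_cons]
    exact h2.mono (by omega)

lemma runs_mvAll_bm (l m a c : List Bool) :
    Runs (mvAll .b .m) ⟨m, a, l, c⟩ ⟨l.reverse ++ m, a, [], c⟩ (1 + 4 * l.length) := by
  induction l generalizing m with
  | nil => exact (Runs.loopF rfl).mono (by simp)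
  | cons x l ih =>
    have h1 : Runs (mv .b .m) ⟨m, a, x :: l, c⟩ ⟨x :: m, a, l, c⟩ 3 := by
      cases x
      · exact Runs.iteF rfl ((Runs.pop _ _).seq (Runs.push _ _ _))
      · exact Runs.iteT rfl ((Runs.pop _ _).seq (Runs.push _ _ _))
    have h2 := Runs.loopT (k := .b) (f := isS) rfl h1 (ih (x :: m))
    simp only [List.reverse_cons, List.append_assoc, List.singleton_append, List.length_cons]
    exact h2.mono (by omega)

lemma runs_mvAll_ba (l m a c : List Bool) :
    Runs (mvAll .b .a) ⟨m, a, l, c⟩ ⟨m, l.reverse ++ a, [], c⟩ (1 + 4 * l.length) := by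
  induction l generalizing a with
  | nil => exact (Runs.loopF rfl).mono (by simp)
  | cons x l ih =>
    have h1 : Runs (mv .b .a) ⟨m, a, x :: l, c⟩ ⟨m, x :: a, l, c⟩ 3 := by
      cases x
      · exact Runs.iteF rfl ((Runs.pop _ _).seq (Runs.push _ _ _))
      · exact Runs.iteT rfl ((Runs.pop _ _).seq (Runs.push _ _ _))
    have h2 := Runs.loopT (k := .b) (f := isS) rfl h1 (ih (x :: a))
    simp only [List.reverse_cons, List.append_assoc, List.singleton_append, List.length_cons]
    exact h2.mono (by omega)

lemma runs_mvAll_ab (l m b c : List Bool) :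
    Runs (mvAll .a .b) ⟨m, l, b, c⟩ ⟨m, [], l.reverse ++ b, c⟩ (1 + 4 * l.length) := by
  induction l generalizing b with
  | nil => exact (Runs.loopF rfl).mono (by simp)
  | cons x l ih =>
    have h1 : Runs (mv .a .b) ⟨m, x :: l, b, c⟩ ⟨m, l, x :: b, c⟩ 3 := by
      cases x
      · exact Runs.iteF rfl ((Runs.pop _ _).seq (Runs.push _ _ _))
      · exact Runs.iteT rfl ((Runs.pop _ _).seq (Runs.push _ _ _))
    have h2 := Runs.loopT (k := .a) (f := isS) rfl h1 (ih (x :: b))
    simp only [List.reverse_cons, List.append_assoc, List.singleton_append, List.length_cons]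
    exact h2.mono (by omega)

lemma runs_mvAll2 (l m b c : List Bool) :
    Runs (mvAll2 .a .m .b) ⟨m, l, b, c⟩ ⟨l.reverse ++ m, [], l.reverse ++ b, c⟩
      (1 + 5 * l.length) := by
  induction l generalizing m b with
  | nil => exact (Runs.loopF rfl).mono (by simp)
  | cons x l ih =>
    have h1 : Runs (mv2 .a .m .b) ⟨m, x :: l, b, c⟩ ⟨x :: m, l, x :: b, c⟩ 4 := by
      cases x
      · exact Runs.iteF rfl ((Runs.pop _ _).seq ((Runs.push _ _ _).seq (Runs.push _ _ _)))
      · exact Runs.iteT rfl ((Runs.pop _ _).seq ((Runs.push _ _ _).seq (Runs.push _ _ _)))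
    have h2 := Runs.loopT (k := .a) (f := isS) rfl h1 (ih (x :: m) (x :: b))
    simp only [List.reverse_cons, List.append_assoc, List.singleton_append, List.length_cons]
    exact h2.mono (by omega)

/-- Read a tree symbol by symbol, moving it (reversed) to stack `k`; stack `c` counts the trees
still to be read. -/
def scanLoop (k : Stk) : Prog :=
  .loop .c isS (.ite .m isT
    (.seq (.pop .m) (.seq (.push k true) (.push .c true)))
    (.seq (.pop .m) (.seq (.push k false) (.pop .c))))

/-- Move the top tree, reversed, to stack `k`. -/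
def scan (k : Stk) : Prog := .seq (.push .c true) (scanLoop k)

lemma runs_scanLoop_a (x : D) : ∀ (r acc b c : List Bool) (sf : St) (T : ℕ),
    Runs (scanLoop .a) ⟨r, x.code.reverse ++ acc, b, c⟩ sf T →
    Runs (scanLoop .a) ⟨x.code ++ r, acc, b, true :: c⟩ sf (T + 5 * x.size) := by
  induction x with
  | nil =>
    intro r acc b c sf T h
    have h1 : Runs (.ite .m isT
        (.seq (.pop .m) (.seq (.push .a true) (.push .c true)))
        (.seq (.pop .m) (.seq (.push .a false) (.pop .c)))) ⟨D.nil.code ++ r, acc, b, true :: c⟩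
        ⟨r, D.nil.code.reverse ++ acc, b, c⟩ 4 :=
      Runs.iteF rfl ((Runs.pop _ _).seq ((Runs.push _ _ _).seq (Runs.pop _ _)))
    exact (Runs.loopT (k := .c) (f := isS) rfl h1 h).mono (by simp; omega)
  | cons x y ihx ihy =>
    intro r acc b c sf T h
    have h1 : Runs (.ite .m isT
        (.seq (.pop .m) (.seq (.push .a true) (.push .c true)))
        (.seq (.pop .m) (.seq (.push .a false) (.pop .c))))
        ⟨(D.cons x y).code ++ r, acc, b, true :: c⟩
        ⟨x.code ++ y.code ++ r, true :: acc, b, true :: true :: c⟩ 4 :=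
      Runs.iteT rfl ((Runs.pop _ _).seq ((Runs.push _ _ _).seq (Runs.push _ _ _)))
    have h2 := ihy r (x.code.reverse ++ (true :: acc)) b c sf T (by
      simpa [D.code, List.append_assoc] using h)
    have h3 := ihx (y.code ++ r) (true :: acc) b (true :: c) sf _ h2
    rw [← List.append_assoc] at h3
    exact (Runs.loopT (k := .c) (f := isS) rfl h1 h3).mono (by simp; omega)

lemma runs_scanLoop_b (x : D) : ∀ (r acc a c : List Bool) (sf : St) (T : ℕ),
    Runs (scanLoop .b) ⟨r, a, x.code.reverse ++ acc, c⟩ sf T →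
    Runs (scanLoop .b) ⟨x.code ++ r, a, acc, true :: c⟩ sf (T + 5 * x.size) := by
  induction x with
  | nil =>
    intro r acc a c sf T h
    have h1 : Runs (.ite .m isT
        (.seq (.pop .m) (.seq (.push .b true) (.push .c true)))
        (.seq (.pop .m) (.seq (.push .b false) (.pop .c)))) ⟨D.nil.code ++ r, a, acc, true :: c⟩
        ⟨r, a, D.nil.code.reverse ++ acc, c⟩ 4 :=
      Runs.iteF rfl ((Runs.pop _ _).seq ((Runs.push _ _ _).seq (Runs.pop _ _)))
    exact (Runs.loopT (k := .c) (f := isS) rfl h1 h).mono (by simp; omega)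
  | cons x y ihx ihy =>
    intro r acc a c sf T h
    have h1 : Runs (.ite .m isT
        (.seq (.pop .m) (.seq (.push .b true) (.push .c true)))
        (.seq (.pop .m) (.seq (.push .b false) (.pop .c))))
        ⟨(D.cons x y).code ++ r, a, acc, true :: c⟩
        ⟨x.code ++ y.code ++ r, a, true :: acc, true :: true :: c⟩ 4 :=
      Runs.iteT rfl ((Runs.pop _ _).seq ((Runs.push _ _ _).seq (Runs.push _ _ _)))
    have h2 := ihy r (x.code.reverse ++ (true :: acc)) a c sf T (by
      simpa [D.code, List.append_assoc] using h)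
    have h3 := ihx (y.code ++ r) (true :: acc) a (true :: c) sf _ h2
    rw [← List.append_assoc] at h3
    exact (Runs.loopT (k := .c) (f := isS) rfl h1 h3).mono (by simp; omega)

lemma runs_scan_a (x : D) (r b : List Bool) :
    Runs (scan .a) ⟨x.code ++ r, [], b, []⟩ ⟨r, x.code.reverse, b, []⟩ (2 + 5 * x.size) := by
  have h : Runs (scanLoop .a) ⟨r, x.code.reverse ++ [], b, []⟩ ⟨r, x.code.reverse, b, []⟩ 1 := by
    rw [List.append_nil]
    exact Runs.loopF rfl
  exact ((Runs.push .c true _).seq (runs_scanLoop_a x r [] b [] _ _ h)).mono (by omega)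

lemma runs_scan_b (x : D) (r a : List Bool) :
    Runs (scan .b) ⟨x.code ++ r, a, [], []⟩ ⟨r, a, x.code.reverse, []⟩ (2 + 5 * x.size) := by
  have h : Runs (scanLoop .b) ⟨r, a, x.code.reverse ++ [], []⟩ ⟨r, a, x.code.reverse, []⟩ 1 := by
    rw [List.append_nil]
    exact Runs.loopF rfl
  exact ((Runs.push .c true _).seq (runs_scanLoop_b x r [] a [] _ _ h)).mono (by omega)

/-- State with everything on stack `m`. -/
def ms (l : List Bool) : St := ⟨l, [], [], []⟩

/-- Remove the top tree. -/
def drop : Prog := .seq (scan .a) (.loop .a isS (.pop .a))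

lemma runs_clear_a (l m b c : List Bool) :
    Runs (.loop .a isS (.pop .a)) ⟨m, l, b, c⟩ ⟨m, [], b, c⟩ (1 + 2 * l.length) := by
  induction l with
  | nil => exact (Runs.loopF rfl).mono (by simp)
  | cons x l ih =>
    have h1 : Runs (.pop .a) ⟨m, x :: l, b, c⟩ ⟨m, l, b, c⟩ 1 := Runs.pop _ _
    exact (Runs.loopT (k := .a) (f := isS) rfl h1 ih).mono (by simp; omega)

lemma runs_drop (x : D) (r : List Bool) :
    Runs drop (ms (x.code ++ r)) (ms r) (3 + 7 * x.size) :=
  ((runs_scan_a x r []).seq (runs_clear_a x.code.reverse r [] [])).mono (by simp; omega)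

/-- Duplicate the top tree. -/
def dup : Prog := .seq (scan .a) (.seq (mvAll2 .a .m .b) (.seq (mvAll .b .a) (mvAll .a .m)))

lemma runs_dup (x : D) (r : List Bool) :
    Runs dup (ms (x.code ++ r)) (ms (x.code ++ (x.code ++ r))) (5 + 18 * x.size) := by
  have h1 := runs_scan_a x r []
  have h2 := runs_mvAll2 x.code.reverse r [] []
  have h3 := runs_mvAll_ba x.code (x.code ++ r) [] []
  have h4 := runs_mvAll_am x.code.reverse (x.code ++ r) [] []
  simp only [List.reverse_reverse, List.append_nil, List.length_reverse, D.length_code]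
    at h1 h2 h3 h4
  exact (h1.seq (h2.seq (h3.seq h4))).mono (by omega)

/-- Swap the two top trees. -/
def swap : Prog := .seq (scan .a) (.seq (scan .b) (.seq (mvAll .a .m) (mvAll .b .m)))

lemma runs_swap (x y : D) (r : List Bool) :
    Runs swap (ms (x.code ++ (y.code ++ r))) (ms (y.code ++ (x.code ++ r)))
      (6 + 9 * x.size + 9 * y.size) := by
  have h1 := runs_scan_a x (y.code ++ r) []
  have h2 := runs_scan_b y r x.code.reverse
  have h3 := runs_mvAll_am x.code.reverse r y.code.reverse []
  have h4 := runs_mvAll_bm y.code.reverse (x.code ++ r) [] []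
  simp only [List.reverse_reverse, List.append_nil, List.length_reverse, D.length_code]
    at h1 h2 h3 h4
  exact (h1.seq (h2.seq (h3.seq h4))).mono (by omega)

end TMLib
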